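import Pool.Agent.helper26.CK.Layer

/-!
# CR-LayS: weighted norms of a layered space, close to the sup norm
-/

set_option autoImplicit false

open Set Topology Filter

namespace Pool.Agent.helper26.CR

open Pool.Agent.helper26.CK

/-- the rescaled weights -/
noncomputable def LayS_c (sw : ℝ) (q : Cl) : ℝ := 1 + sw * (cc q - 1)

theorem LayS_one_le {sw : ℝ} (hs0 : 0 < sw) (q : Cl) : 1 ≤ LayS_c sw q := by
  have h1 := one_le_cc q
  unfold LayS_c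
  nlinarith

theorem LayS_le' {sw : ℝ} (hs0 : 0 < sw) (q : Cl) : LayS_c sw q ≤ 1 + sw := by
  have h1 := cc_le q
  unfold LayS_c
  nlinarith

theorem LayS_le {sw : ℝ} (hs0 : 0 < sw) (hs1 : sw ≤ 1) (q : Cl) : LayS_c sw q ≤ 2 :=
  (LayS_le' hs0 q).trans (by linarith)

theorem LayS_dom {sw : ℝ} (hs0 : 0 < sw) (q q' : Cl) (hk : q'.k < q.k)
    (hG : ∀ m ∈ q.G, m < q'.k → m ∈ q'.G) : LayS_c sw q + 8 * sw * w q'.k ≤ LayS_c sw q' := by
  have h1 := mul_le_mul_of_nonneg_left (cc_dom q q' hk hG) hs0.le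
  unfold LayS_c
  linarith

theorem LayS_gap {sw : ℝ} (hs0 : 0 < sw) (hs1 : sw ≤ 1) (q q' : Cl) (hG : insert q.n q.G ⊆ q'.G) :
    LayS_c sw q + sw * w q.n / 2 ≤ (1 - sw * w q.n / 8) * LayS_c sw q' := by
  have h1 := cc_gap q q' hG
  have h2 := one_le_cc q'
  have h3 := w_pos q.n
  have h4 : cc q + 3 / 4 * w q.n ≤ cc q' := by nlinarith
  have h5 := mul_le_mul_of_nonneg_left h4 hs0.le
  have h6 := LayS_le hs0 hs1 q'
  have h7 : 0 < sw * w q.n := mul_pos hs0 h3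
  have h8 : sw * w q.n / 8 * LayS_c sw q' ≤ sw * w q.n / 8 * 2 :=
    mul_le_mul_of_nonneg_left h6 (by linarith)
  have h9 : LayS_c sw q + 3 / 4 * (sw * w q.n) ≤ LayS_c sw q' := by
    unfold LayS_c
    linarith
  linarith

section

variable {K Z : Type} [TopologicalSpace K] [CompactSpace K] [TopologicalSpace Z] [CompactSpace Z]

variable (Λ : Lay K)

/-- the values -/
def LayS_Val (sw : ℝ) (ν : C(Z, ℝ) → ℝ) (F : C(K × Z, ℝ)) : Set ℝ :=
  {r | ∃ (q : Cl) (j : Λ.J q.n), ∃ y ∈ Λ.pc q j, r = LayS_c sw q * ν (ev y F)}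

/-- the weighted norm -/
noncomputable def LayS_P (sw : ℝ) (ν : C(Z, ℝ) → ℝ) (F : C(K × Z, ℝ)) : ℝ := sSup (LayS_Val Λ sw ν F)

variable {ν : C(Z, ℝ) → ℝ} {sw : ℝ}

theorem LayS_Val_bdd (hs0 : 0 < sw) (hs1 : sw ≤ 1) (hν : EqNorm C(Z, ℝ) ν) (F : C(K × Z, ℝ)) : BddAbove (LayS_Val Λ sw ν F) := by
  refine ⟨2 * PP (K := K) ν F, ?_⟩
  rintro _ ⟨q, j, y, -, rfl⟩
  have h1 := LayS_le hs0 hs1 q
  have h2 := le_PP hν y F
  have h3 := hν.nonneg (ev y F)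
  have h4 := LayS_one_le hs0 q
  nlinarith

theorem LayS_Val_nonempty [Nonempty K] (F : C(K × Z, ℝ)) : (LayS_Val Λ sw ν F).Nonempty := by
  obtain ⟨x⟩ := (inferInstance : Nonempty K)
  obtain ⟨q, j, -, hx, -⟩ := Λ.exists_cl x 0
  exact ⟨_, q, j, x, hx, rfl⟩

theorem LayS_le_P (hs0 : 0 < sw) (hs1 : sw ≤ 1) (hν : EqNorm C(Z, ℝ) ν) (F : C(K × Z, ℝ)) (q : Cl) (j : Λ.J q.n) {y : K}
    (hy : y ∈ Λ.pc q j) : LayS_c sw q * ν (ev y F) ≤ LayS_P Λ sw ν F :=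
  le_csSup (LayS_Val_bdd Λ hs0 hs1 hν F) ⟨q, j, y, hy, rfl⟩

theorem LayS_nu_le_P (hs0 : 0 < sw) (hs1 : sw ≤ 1) (hν : EqNorm C(Z, ℝ) ν) (F : C(K × Z, ℝ)) (x : K) : ν (ev x F) ≤ LayS_P Λ sw ν F := by
  obtain ⟨q, j, -, hx, -⟩ := Λ.exists_cl x 0
  have h1 := LayS_le_P Λ hs0 hs1 hν F q j hx
  have h2 := LayS_one_le hs0 q
  have h3 := hν.nonneg (ev x F)
  nlinarith

theorem LayS_P_le [Nonempty K] (F : C(K × Z, ℝ)) {M : ℝ}
    (h : ∀ (q : Cl) (j : Λ.J q.n), ∀ y ∈ Λ.pc q j, LayS_c sw q * ν (ev y F) ≤ M) : LayS_P Λ sw ν F ≤ M := by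
  refine csSup_le (LayS_Val_nonempty Λ (sw := sw) (ν := ν) F) ?_
  rintro _ ⟨q, j, y, hy, rfl⟩
  exact h q j y hy

theorem LayS_P_smul_le [Nonempty K] (hs0 : 0 < sw) (hs1 : sw ≤ 1) (hν : EqNorm C(Z, ℝ) ν) (a : ℝ) (F : C(K × Z, ℝ)) :
    LayS_P Λ sw ν (a • F) ≤ |a| * LayS_P Λ sw ν F := by
  refine LayS_P_le Λ _ fun q j y hy => ?_
  rw [map_smul, hν.smul]
  have h1 := LayS_le_P Λ hs0 hs1 hν F q j hy
  have := mul_le_mul_of_nonneg_left h1 (abs_nonneg a)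
  linarith

theorem LayS_eqNorm_P [Nonempty K] (hs0 : 0 < sw) (hs1 : sw ≤ 1) (hν : EqNorm C(Z, ℝ) ν) : EqNorm C(K × Z, ℝ) (LayS_P Λ sw ν) where
  add_le := by
    intro F G
    refine LayS_P_le Λ _ fun q j y hy => ?_
    rw [map_add]
    have h1 := LayS_le_P Λ hs0 hs1 hν F q j hy
    have h2 := LayS_le_P Λ hs0 hs1 hν G q j hy
    have h3 := hν.add_le (ev y F) (ev y G)
    have h4 := LayS_one_le hs0 q
    nlinarith
  smul := by
    intro a F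
    refine le_antisymm (LayS_P_smul_le Λ hs0 hs1 hν a F) ?_
    by_cases ha : a = 0
    · obtain ⟨x⟩ := (inferInstance : Nonempty K)
      rw [ha, abs_zero, zero_mul]
      exact (hν.nonneg _).trans (LayS_nu_le_P Λ hs0 hs1 hν _ x)
    · have h1 := LayS_P_smul_le Λ hs0 hs1 hν a⁻¹ (a • F)
      rw [smul_smul, inv_mul_cancel₀ ha, one_smul, abs_inv] at h1
      have h2 : 0 < |a| := abs_pos.2 ha
      calc |a| * LayS_P Λ sw ν F ≤ |a| * (|a|⁻¹ * LayS_P Λ sw ν (a • F)) := by gcongr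
        _ = LayS_P Λ sw ν (a • F) := by rw [← mul_assoc, mul_inv_cancel₀ h2.ne', one_mul]
  eq_zero := by
    intro F hF
    refine (eqNorm_PP (K := K) hν).eq_zero F (le_antisymm ?_ ((eqNorm_PP hν).nonneg F))
    rw [← hF]
    exact ciSup_le fun x => LayS_nu_le_P Λ hs0 hs1 hν F x
  equiv := by
    obtain ⟨c, C, hc, hC, h⟩ := (eqNorm_PP (K := K) hν).equiv
    refine ⟨c, 2 * C, hc, by positivity, fun F => ⟨(h F).1.trans ?_, ?_⟩⟩
    · exact ciSup_le fun x => LayS_nu_le_P Λ hs0 hs1 hν F x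
    · refine LayS_P_le Λ _ fun q j y _ => ?_
      have h1 := LayS_le hs0 hs1 q
      have h2 := le_PP hν y F
      have h3 := hν.nonneg (ev y F)
      have h4 := LayS_one_le hs0 q
      have h5 := (h F).2
      nlinarith

/-- in every class, only finitely many pieces carry large values -/
theorem LayS_fin_class (hs0 : 0 < sw) (hs1 : sw ≤ 1) (hν : EqNorm C(Z, ℝ) ν) (F : C(K × Z, ℝ)) (hF : 0 < LayS_P Λ sw ν F) (q : Cl) :
    {j | ∃ y ∈ Λ.pc q j, (1 - sw * w q.n / 8) * LayS_P Λ sw ν F ≤ LayS_c sw q * ν (ev y F)}.Finite := by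
  classical
  have key := (isCompact_univ (X := K)).induction_on (p := fun s =>
    {j | ∃ y ∈ Λ.pc q j ∩ s, (1 - sw * w q.n / 8) * LayS_P Λ sw ν F ≤ LayS_c sw q * ν (ev y F)}.Finite) ?_ ?_ ?_ ?_
  · refine key.subset ?_
    rintro j ⟨y, hy, h⟩
    exact ⟨y, ⟨hy, mem_univ _⟩, h⟩
  · refine (finite_empty).subset ?_
    rintro j ⟨y, ⟨-, hy⟩, -⟩
    exact hy
  · intro s t hst ht
    refine ht.subset ?_
    rintro j ⟨y, hy, h⟩
    exact ⟨y, ⟨hy.1, hst hy.2⟩, h⟩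
  · intro s t hs ht
    refine (hs.union ht).subset ?_
    rintro j ⟨y, ⟨hy, hy' | hy'⟩, h⟩
    · exact Or.inl ⟨y, ⟨hy, hy'⟩, h⟩
    · exact Or.inr ⟨y, ⟨hy, hy'⟩, h⟩
  · intro x _
    rw [nhdsWithin_univ]
    by_cases hx : x ∈ Λ.B q.n
    swap
    · obtain ⟨U, hU, hfin⟩ := Λ.lf q.n x hx
      refine ⟨U, hU, hfin.subset ?_⟩
      rintro j ⟨y, ⟨hy, hyU⟩, -⟩
      exact ⟨y, hy.1, hyU⟩
    by_cases hxG : ∀ m ∈ q.G, x ∈ Λ.B m
    swap
    · push Not at hxG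
      obtain ⟨m, hm, hxm⟩ := hxG
      refine ⟨(Λ.B m)ᶜ, (Λ.hB m).isOpen_compl.mem_nhds hxm, (finite_empty).subset ?_⟩
      rintro j ⟨y, ⟨hy, hyU⟩, -⟩
      exact hyU (hy.2 m hm)
    have hstrict : LayS_c sw q * ν (ev x F) < (1 - sw * w q.n / 8) * LayS_P Λ sw ν F := by
      obtain ⟨q', j', hk, hx', hG⟩ := Λ.exists_cl x q.k
      have h1 := LayS_gap hs0 hs1 q q' (by
        intro m hm
        rcases Finset.mem_insert.1 hm with h | h
        · rw [h]; exact hG _ (q.hn.trans_le hk) hx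
        · exact hG _ ((Finset.mem_range.1 (q.hG h)).trans_le hk) (hxG m h))
      have h2 := LayS_le_P Λ hs0 hs1 hν F q' j' hx'
      have h3 := hν.nonneg (ev x F)
      have h4 : 0 < sw * w q.n := mul_pos hs0 (w_pos q.n)
      have h5 : sw * w q.n ≤ 1 / 100 := by
        have a1 := w_le q.n
        have a2 := w_pos q.n
        nlinarith
      have h6 : (1 - sw * w q.n / 8) * (LayS_c sw q' * ν (ev x F)) ≤ (1 - sw * w q.n / 8) * LayS_P Λ sw ν F :=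
        mul_le_mul_of_nonneg_left h2 (by linarith)
      rcases eq_or_lt_of_le h3 with h7 | h7
      · rw [← h7, mul_zero]
        have : 0 < 1 - sw * w q.n / 8 := by linarith
        positivity
      · nlinarith
    refine ⟨{y | LayS_c sw q * ν (ev y F) < (1 - sw * w q.n / 8) * LayS_P Λ sw ν F}, ?_, (finite_empty).subset ?_⟩
    · refine (isOpen_lt ?_ continuous_const).mem_nhds hstrict
      exact continuous_const.mul (hν.continuous.comp (continuous_ev F))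
    · rintro j ⟨y, ⟨-, hyU⟩, h⟩
      exact absurd hyU (not_lt.2 h)

/-- late stages do not carry large values -/
theorem LayS_fin_stage (hs0 : 0 < sw) (hs1 : sw ≤ 1) (hν : EqNorm C(Z, ℝ) ν) (F : C(K × Z, ℝ)) (hF : 0 < LayS_P Λ sw ν F) :
    ∃ (k0 : ℕ) (δ : ℝ), 0 < δ ∧ ∀ q : Cl, k0 < q.k → ∀ (j : Λ.J q.n), ∀ y ∈ Λ.pc q j,
      LayS_c sw q * ν (ev y F) ≤ LayS_P Λ sw ν F - δ := by
  classical
  have key := (isCompact_univ (X := K)).induction_on (p := fun s =>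
    ∃ (k0 : ℕ) (δ : ℝ), 0 < δ ∧ ∀ q : Cl, k0 < q.k → ∀ (j : Λ.J q.n), ∀ y ∈ Λ.pc q j ∩ s,
      LayS_c sw q * ν (ev y F) ≤ LayS_P Λ sw ν F - δ) ?_ ?_ ?_ ?_
  · obtain ⟨k0, δ, hδ, h⟩ := key
    exact ⟨k0, δ, hδ, fun q hq j y hy => h q hq j y ⟨hy, mem_univ _⟩⟩
  · exact ⟨0, 1, one_pos, fun q _ j y hy => hy.2.elim⟩
  · rintro s t hst ⟨k0, δ, hδ, h⟩
    exact ⟨k0, δ, hδ, fun q hq j y hy => h q hq j y ⟨hy.1, hst hy.2⟩⟩
  · rintro s t ⟨k0, δ, hδ, h⟩ ⟨k0', δ', hδ', h'⟩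
    refine ⟨max k0 k0', min δ δ', lt_min hδ hδ', ?_⟩
    rintro q hq j y ⟨hy, hy' | hy'⟩
    · have := h q ((le_max_left _ _).trans_lt hq) j y ⟨hy, hy'⟩
      have := min_le_left δ δ'
      linarith
    · have := h' q ((le_max_right _ _).trans_lt hq) j y ⟨hy, hy'⟩
      have := min_le_right δ δ'
      linarith
  · intro x _
    rw [nhdsWithin_univ]
    obtain ⟨q', j', -, hx', hG⟩ := Λ.exists_cl x 0
    let g : K → ℝ := fun y => (LayS_c sw q' - 8 * sw * w q'.k) * ν (ev y F)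
    have hg : Continuous g := continuous_const.mul (hν.continuous.comp (continuous_ev F))
    have h2 := LayS_le_P Λ hs0 hs1 hν F q' j' hx'
    have hgx : g x < LayS_P Λ sw ν F := by
      have h3 := hν.nonneg (ev x F)
      have h4 : 0 < sw * w q'.k := mul_pos hs0 (w_pos q'.k)
      rcases eq_or_lt_of_le h3 with h7 | h7
      · simp only [g]
        rw [← h7, mul_zero]
        exact hF
      · simp only [g]
        nlinarith
    refine ⟨(⋂ m ∈ (Finset.range q'.k).filter (fun m => x ∉ Λ.B m), (Λ.B m)ᶜ) ∩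
      {y | g y < g x + (LayS_P Λ sw ν F - g x) / 2}, ?_, q'.k, (LayS_P Λ sw ν F - g x) / 2, by linarith, ?_⟩
    · refine inter_mem ?_ ((isOpen_lt hg continuous_const).mem_nhds (by
        simp only [mem_ofPred_eq]; linarith))
      rw [Filter.biInter_finset_mem]
      intro m hm
      rw [Finset.mem_filter] at hm
      exact (Λ.hB m).isOpen_compl.mem_nhds hm.2
    · rintro q hq j y ⟨hy, hyU, hyg⟩
      have h1 := LayS_dom hs0 q q' hq (by
        intro m hm hmk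
        refine hG m hmk ?_
        by_contra hcon
        have h3 := mem_iInter₂.1 hyU m (Finset.mem_filter.2 ⟨Finset.mem_range.2 hmk, hcon⟩)
        exact h3 (hy.2 m hm))
      have h3 := hν.nonneg (ev y F)
      have h4 : LayS_c sw q * ν (ev y F) ≤ g y := by
        simp only [g]
        gcongr
        linarith
      have hyg : g y < g x + (LayS_P Λ sw ν F - g x) / 2 := hyg
      linarith

/-- the weighted norm is attained -/
theorem LayS_attained [Nonempty K] (hs0 : 0 < sw) (hs1 : sw ≤ 1) (hν : EqNorm C(Z, ℝ) ν) (F : C(K × Z, ℝ)) (hF : 0 < LayS_P Λ sw ν F) :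
    ∃ (q : Cl) (j : Λ.J q.n), ∃ y ∈ Λ.pc q j, LayS_c sw q * ν (ev y F) = LayS_P Λ sw ν F := by
  classical
  by_contra hcon
  push Not at hcon
  have hlt : ∀ (q : Cl) (j : Λ.J q.n), ∀ y ∈ Λ.pc q j, LayS_c sw q * ν (ev y F) < LayS_P Λ sw ν F :=
    fun q j y hy => lt_of_le_of_ne (LayS_le_P Λ hs0 hs1 hν F q j hy) (hcon q j y hy)
  have hpiece : ∀ (q : Cl) (j : Λ.J q.n), ∃ M < LayS_P Λ sw ν F, ∀ y ∈ Λ.pc q j,
      LayS_c sw q * ν (ev y F) ≤ M := by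
    intro q j
    by_cases hne : (Λ.pc q j).Nonempty
    · obtain ⟨y, hy, hmax⟩ := (Λ.isClosed_pc q j).isCompact.exists_isMaxOn hne
        (f := fun y => LayS_c sw q * ν (ev y F))
        (continuous_const.mul (hν.continuous.comp (continuous_ev F))).continuousOn
      exact ⟨_, hlt q j y hy, fun z hz => hmax hz⟩
    · exact ⟨LayS_P Λ sw ν F - 1, by linarith, fun y hy => absurd ⟨y, hy⟩ hne⟩
  have hclass : ∀ q : Cl, ∃ M < LayS_P Λ sw ν F, ∀ (j : Λ.J q.n), ∀ y ∈ Λ.pc q j,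
      LayS_c sw q * ν (ev y F) ≤ M := by
    intro q
    obtain ⟨M, hM, h⟩ := Lay.exists_bound (LayS_fin_class Λ hs0 hs1 hν F hF q) (LayS_P Λ sw ν F)
      (fun j M => ∀ y ∈ Λ.pc q j, LayS_c sw q * ν (ev y F) ≤ M)
      (fun j M M' hMM h y hy => (h y hy).trans hMM) (fun j _ => hpiece q j)
    have h4 : 0 < sw * w q.n := mul_pos hs0 (w_pos q.n)
    refine ⟨max M ((1 - sw * w q.n / 8) * LayS_P Λ sw ν F), max_lt hM (by nlinarith), fun j y hy => ?_⟩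
    by_cases hj : (1 - sw * w q.n / 8) * LayS_P Λ sw ν F ≤ LayS_c sw q * ν (ev y F)
    · exact (h j ⟨y, hy, hj⟩ y hy).trans (le_max_left _ _)
    · exact (not_le.1 hj).le.trans (le_max_right _ _)
  obtain ⟨k0, δ, hδ, hst⟩ := LayS_fin_stage Λ hs0 hs1 hν F hF
  obtain ⟨M, hM, h⟩ := Lay.exists_bound (finite_stage k0) (LayS_P Λ sw ν F)
    (fun q M => ∀ (j : Λ.J q.n), ∀ y ∈ Λ.pc q j, LayS_c sw q * ν (ev y F) ≤ M)
    (fun q M M' hMM h j y hy => (h j y hy).trans hMM) (fun q _ => hclass q)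
  have hle : LayS_P Λ sw ν F ≤ max M (LayS_P Λ sw ν F - δ) := by
    refine LayS_P_le Λ F fun q j y hy => ?_
    by_cases hq : q.k ≤ k0
    · exact (h q hq j y hy).trans (le_max_left _ _)
    · exact (hst q (not_le.1 hq) j y hy).trans (le_max_right _ _)
  have : max M (LayS_P Λ sw ν F - δ) < LayS_P Λ sw ν F := max_lt hM (by linarith)
  linarith

end

theorem exists_weighted {K Z : Type} [TopologicalSpace K] [CompactSpace K] [TopologicalSpace Z]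
    [CompactSpace Z] [Nonempty K] (Λ : Lay K) {ν : C(Z, ℝ) → ℝ} (hν : EqNorm C(Z, ℝ) ν) {s : ℝ}
    (hs0 : 0 < s) (hs1 : s ≤ 1) :
    ∃ (c : Cl → ℝ) (P : C(K × Z, ℝ) → ℝ), (∀ q, 1 ≤ c q ∧ c q ≤ 1 + s) ∧
      EqNorm C(K × Z, ℝ) P ∧
      (∀ F, PP (K := K) ν F ≤ P F ∧ P F ≤ (1 + s) * PP (K := K) ν F) ∧
      (∀ (F : C(K × Z, ℝ)) (q : Cl) (j : Λ.J q.n), ∀ y ∈ Λ.pc q j, c q * ν (ev y F) ≤ P F) ∧
      (∀ F, 0 < P F → ∀ q : Cl,
        {j : Λ.J q.n | ∃ y ∈ Λ.pc q j, (1 - s * w q.n / 8) * P F ≤ c q * ν (ev y F)}.Finite) ∧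
      ∀ F, 0 < P F → ∃ (q : Cl) (j : Λ.J q.n), ∃ y ∈ Λ.pc q j, c q * ν (ev y F) = P F := by
  refine ⟨LayS_c s, LayS_P Λ s ν, fun q => ⟨LayS_one_le hs0 q, LayS_le' hs0 q⟩,
    LayS_eqNorm_P Λ hs0 hs1 hν, fun F => ⟨ciSup_le fun x => LayS_nu_le_P Λ hs0 hs1 hν F x, ?_⟩,
    fun F q j y hy => LayS_le_P Λ hs0 hs1 hν F q j hy,
    fun F hF q => LayS_fin_class Λ hs0 hs1 hν F hF q,
    fun F hF => LayS_attained Λ hs0 hs1 hν F hF⟩
  refine LayS_P_le Λ F fun q j y _ => ?_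
  have h1 := LayS_le' hs0 q
  have h2 := le_PP hν y F
  have h3 := hν.nonneg (ev y F)
  have h4 := LayS_one_le hs0 q
  exact mul_le_mul h1 h2 h3 (by linarith)

end Pool.Agent.helper26.CR
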