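import Pool.Agent.helper26.CR.Deriv
import Pool.Agent.helper26.CR.LayS

/-!
# CR-Adm: admissible compact spaces and their closure properties
-/

set_option autoImplicit false

open Set Topology Filter TopologicalSpace

namespace Pool.Agent.helper26.CR

open Pool.Agent.helper26.CK

/-- the sup norms have arbitrarily good approximations in all classes of norms -/
def Adm (K : Type) [TopologicalSpace K] [CompactSpace K] : Prop :=
  ∀ (Q : Cls), CompProp Q → StarProp Q → ∀ (Z : Type) [TopologicalSpace Z]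
    [CompactSpace Z] [T2Space Z] (ν : C(Z, ℝ) → ℝ), EqNorm C(Z, ℝ) ν → Q C(Z, ℝ) ν →
    ∀ δ : ℝ, 0 < δ → ∃ N : C(K × Z, ℝ) → ℝ, SN C(K × Z, ℝ) N ∧ Q C(K × Z, ℝ) N ∧
      ∀ F, PP (K := K) ν F ≤ N F ∧ N F ≤ (1 + δ) * PP (K := K) ν F

section
variable {K Z : Type} [TopologicalSpace K] [CompactSpace K] [TopologicalSpace Z] [CompactSpace Z]
  {ν : C(Z, ℝ) → ℝ}

/-- a seminorm equivalent to the sup norm is an equivalent norm -/
theorem eqNorm_of_approx [Nonempty K] (hν : EqNorm C(Z, ℝ) ν) {N : C(K × Z, ℝ) → ℝ} {δ : ℝ}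
    (hδ : 0 < δ) (h1 : SN C(K × Z, ℝ) N)
    (h2 : ∀ F, PP (K := K) ν F ≤ N F ∧ N F ≤ (1 + δ) * PP (K := K) ν F) :
    EqNorm C(K × Z, ℝ) N := by
  have hPP := eqNorm_PP (K := K) hν
  refine ⟨h1.add_le, h1.smul, fun F hF => ?_, ?_⟩
  · have h3 := (h2 F).1
    rw [hF] at h3
    exact hPP.eq_zero F (le_antisymm h3 (hPP.nonneg F))
  · obtain ⟨c, C, hc', hC, h⟩ := hPP.equiv
    refine ⟨c, (1 + δ) * C, hc', by positivity, fun F => ?_⟩
    have h3 := h2 F
    have h4 := h F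
    constructor
    · linarith
    · rw [mul_assoc]
      exact h3.2.trans (mul_le_mul_of_nonneg_left h4.2 (by positivity))

theorem Adm.norm {Q : Cls} (hc : CompProp Q) (hs : StarProp Q) [Nonempty K] [T2Space Z]
    (h : Adm K) (hν : EqNorm C(Z, ℝ) ν) (hQ : Q C(Z, ℝ) ν) :
    ∃ N : C(K × Z, ℝ) → ℝ, EqNorm C(K × Z, ℝ) N ∧ Q C(K × Z, ℝ) N := by
  obtain ⟨N, h1, h2, h3⟩ := h Q hc hs Z ν hν hQ 1 one_pos
  exact ⟨N, eqNorm_of_approx hν one_pos h1 h3, h2⟩

end

/-- scattered spaces with separating functionals are admissible -/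
theorem adm_of_sep {K : Type} [TopologicalSpace K] [CompactSpace K] [T2Space K] [Nonempty K]
    (hK : Scattered K) (hsep : ∀ p : K, Nonempty (Sep K p)) : Adm K :=
  fun Q hc hs Z _ _ _ ν hν hQ δ hδ => exists_approx hc hs hK hsep hν hQ δ hδ

/-- composition with a continuous map -/
noncomputable def pull {X Y : Type} [TopologicalSpace X] [CompactSpace X] [TopologicalSpace Y]
    [CompactSpace Y] (h : C(X, Y)) : C(Y, ℝ) →L[ℝ] C(X, ℝ) :=
  LinearMap.mkContinuous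
    { toFun := fun F => F.comp h
      map_add' := fun F G => by ext z; rfl
      map_smul' := fun a F => by ext z; rfl } 1 (by
    intro F
    rw [one_mul]
    refine (ContinuousMap.norm_le _ (norm_nonneg _)).2 fun z => ?_
    exact F.norm_coe_le_norm (h z))

theorem pull_apply {X Y : Type} [TopologicalSpace X] [CompactSpace X] [TopologicalSpace Y]
    [CompactSpace Y] (h : C(X, Y)) (F : C(Y, ℝ)) (x : X) : pull h F x = F (h x) := rfl

section cover
variable {K L Z : Type} [TopologicalSpace K] [CompactSpace K] [TopologicalSpace L] [CompactSpace L]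
  [TopologicalSpace Z] [CompactSpace Z]

/-- composition with a continuous map, in the first variable -/
noncomputable def pull1 (Z : Type) [TopologicalSpace Z] [CompactSpace Z] (φ : C(L, K)) :
    C(K × Z, ℝ) →L[ℝ] C(L × Z, ℝ) :=
  pull ⟨fun p => (φ p.1, p.2), by fun_prop⟩

theorem ev_pull1 (φ : C(L, K)) (l : L) (F : C(K × Z, ℝ)) : ev l (pull1 Z φ F) = ev (φ l) F := by
  ext z
  rfl

theorem PP_pull1_le [Nonempty L] {ν : C(Z, ℝ) → ℝ} (hν : EqNorm C(Z, ℝ) ν) (φ : C(L, K))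
    (F : C(K × Z, ℝ)) : PP (K := L) ν (pull1 Z φ F) ≤ PP (K := K) ν F := by
  refine ciSup_le fun l => ?_
  rw [ev_pull1]
  exact le_PP hν _ F

theorem le_PP_pull1 {ν : C(Z, ℝ) → ℝ} (hν : EqNorm C(Z, ℝ) ν) (φ : C(L, K)) (l : L)
    (F : C(K × Z, ℝ)) : ν (ev (φ l) F) ≤ PP (K := L) ν (pull1 Z φ F) := by
  rw [← ev_pull1]
  exact le_PP hν l _

end cover

/-- compact spaces covered by countably many continuous images of admissible spaces -/
theorem adm_cover {K : Type} [TopologicalSpace K] [CompactSpace K] [Nonempty K]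
    {L : ℕ → Type} [∀ n, TopologicalSpace (L n)] [∀ n, CompactSpace (L n)]
    (φ : ∀ n, C(L n, K)) (hcov : ∀ x, ∃ n l, φ n l = x) (h : ∀ n, Nonempty (L n) → Adm (L n)) :
    Adm K := by
  classical
  intro Q hc hs Z _ _ _ ν hν hQ δ hδ
  have hPP := eqNorm_PP (K := K) hν
  have hM : ∀ i : ULift.{1} {n : ℕ // Nonempty (L n)}, ∃ M : C(K × Z, ℝ) → ℝ,
      SN C(K × Z, ℝ) M ∧ Q C(K × Z, ℝ) M ∧ ∀ F, 1 / 2 * PP (K := L i.down.1) ν
        (pull1 Z (φ i.down.1) F) ≤ M F ∧ M F ≤ PP (K := K) ν F := by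
    intro i
    have := i.down.2
    obtain ⟨N, hN1, hN2, hN3⟩ := h i.down.1 i.down.2 Q hc hs Z ν hν hQ 1 one_pos
    have h1 := scale hc (hN1.comp (pull1 Z (φ i.down.1))) (hc _ _ (pull1 Z (φ i.down.1)) N hN2)
      (a := 1 / 2) (by norm_num)
    refine ⟨_, h1.1, h1.2, fun F => ?_⟩
    have h2 := hN3 (pull1 Z (φ i.down.1) F)
    have h3 := PP_pull1_le hν (φ i.down.1) F
    constructor
    · linarith
    · linarith
  choose M hM1 hM2 hM3 using hM
  obtain ⟨N, hN1, hN2, hN3⟩ := hs C(K × Z, ℝ) (PP (K := K) ν) hPP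
    (ULift.{1} {n : ℕ // Nonempty (L n)}) (fun i => i.down.1) (fun _ => 1)
    (fun i F => PP (K := L i.down.1) ν (pull1 Z (φ i.down.1) F)) M δ hδ
    (fun _ => ⟨one_pos, le_rfl⟩)
    (fun i => by
      have := i.down.2
      exact ⟨(EqNorm.sn (eqNorm_PP (K := L i.down.1) hν)).comp _, PP_pull1_le hν _⟩)
    (fun i ε hε => by
      obtain ⟨N, hN1, hN2, hN3⟩ := h i.down.1 i.down.2 Q hc hs Z ν hν hQ ε hε
      exact ⟨fun F => N (pull1 Z (φ i.down.1) F), hN1.comp _, hc _ _ _ N hN2, fun F => hN3 _⟩)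
    (fun i => ⟨hM1 i, hM2 i, fun F => (hM3 i F).2⟩)
    (fun c F ε hε => by
      refine Set.Subsingleton.finite ?_
      rintro ⟨i, hi⟩ ⟨hi1, -⟩ ⟨j, hj⟩ ⟨hj1, -⟩
      have hi1 : i = c := hi1
      have hj1 : j = c := hj1
      subst hi1
      subst hj1
      rfl)
    (fun F hF => by
      obtain ⟨y, hy⟩ := exists_PP (K := K) hν F
      obtain ⟨n, l, hl⟩ := hcov y
      refine ⟨⟨n, ⟨l⟩⟩, ?_, ?_⟩
      · rw [← hy, ← hl]
        exact le_PP_pull1 hν (φ n) l F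
      · have h1 := le_PP_pull1 hν (φ n) l F
        rw [hl, hy] at h1
        have h2 := (hM3 ⟨n, ⟨l⟩⟩ F).1
        have h3 := hPP.pos hF
        change 1 / 2 * PP (K := L n) ν (pull1 Z (φ n) F) ≤ M ⟨n, ⟨l⟩⟩ F at h2
        have h4 : 0 < M ⟨n, ⟨l⟩⟩ F := by linarith
        exact h4.ne')
  exact ⟨N, EqNorm.sn hN1, hN2, hN3⟩

/-- continuous images -/
theorem adm_image {K L : Type} [TopologicalSpace K] [CompactSpace K] [Nonempty K]
    [TopologicalSpace L] [CompactSpace L] (φ : C(L, K)) (hφ : Function.Surjective φ)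
    (h : Nonempty L → Adm L) : Adm K :=
  adm_cover (L := fun _ => L) (fun _ => φ) (fun x => ⟨0, hφ x⟩) fun _ => h

/-- products of admissible spaces -/
theorem adm_prod {K L : Type} [TopologicalSpace K] [CompactSpace K] [TopologicalSpace L]
    [CompactSpace L] [T2Space L] [Nonempty K] [Nonempty L] (hK : Adm K) (hL : Adm L) :
    Adm (K × L) := by
  intro Q hc hs Z _ _ _ ν hν hQ δ hδ
  let A : C((K × L) × Z, ℝ) →L[ℝ] C(K × (L × Z), ℝ) :=
    pull ⟨fun p => ((p.1, p.2.1), p.2.2), by fun_prop⟩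
  have hA : ∀ (x : K) (y : L) (F : C((K × L) × Z, ℝ)), ev y (ev x (A F)) = ev (x, y) F := by
    intro x y F
    ext z
    rfl
  have hL' := eqNorm_PP (K := L) hν
  have hPA : ∀ F : C((K × L) × Z, ℝ),
      PP (K := K) (PP (K := L) ν) (A F) = PP (K := K × L) ν F := by
    intro F
    apply le_antisymm
    · refine ciSup_le fun x => ciSup_le fun y => ?_
      rw [hA]
      exact le_PP hν _ F
    · refine ciSup_le fun p => ?_
      have h1 := le_PP hν p.2 (ev p.1 (A F))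
      have h2 := le_PP hL' p.1 (A F)
      rw [hA] at h1
      exact h1.trans h2
  set δ1 := min (δ / 3) 1 with hδ1
  have h0 : 0 < δ1 := lt_min (by positivity) one_pos
  have h0' : δ1 ≤ δ / 3 := min_le_left _ _
  have h0'' : δ1 ≤ 1 := min_le_right _ _
  obtain ⟨M, hM1, hM2, hM3⟩ := hL Q hc hs Z ν hν hQ δ1 h0
  have hM := eqNorm_of_approx hν h0 hM1 hM3
  obtain ⟨N, hN1, hN2, hN3⟩ := hK Q hc hs (L × Z) M hM hM2 δ1 h0
  have hPM : ∀ G : C(K × (L × Z), ℝ), PP (K := K) (PP (K := L) ν) G ≤ PP (K := K) M G := by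
    intro G
    exact ciSup_le fun x => (hM3 _).1.trans (le_PP hM x G)
  have hPM' : ∀ G : C(K × (L × Z), ℝ), PP (K := K) M G ≤
      (1 + δ1) * PP (K := K) (PP (K := L) ν) G := by
    intro G
    refine ciSup_le fun x => (hM3 _).2.trans ?_
    exact mul_le_mul_of_nonneg_left (le_PP hL' x G) (by positivity)
  refine ⟨fun F => N (A F), hN1.comp A, hc _ _ A N hN2, fun F => ⟨?_, ?_⟩⟩
  · rw [← hPA]
    exact (hPM _).trans (hN3 _).1
  · rw [← hPA]
    have h1 := (hN3 (A F)).2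
    have h2 := hPM' (A F)
    have h3 := (eqNorm_PP (K := K) hL').nonneg (A F)
    calc N (A F) ≤ (1 + δ1) * PP (K := K) M (A F) := h1
      _ ≤ (1 + δ1) * ((1 + δ1) * PP (K := K) (PP (K := L) ν) (A F)) :=
        mul_le_mul_of_nonneg_left h2 (by positivity)
      _ = ((1 + δ1) * (1 + δ1)) * PP (K := K) (PP (K := L) ν) (A F) := by ring
      _ ≤ (1 + δ) * PP (K := K) (PP (K := L) ν) (A F) :=
        mul_le_mul_of_nonneg_right (by nlinarith) h3

/-- spaces with Talagrand systems -/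
theorem adm_of_TSys {K : Type} [TopologicalSpace K] [CompactSpace K] [Nonempty K]
    (h : ∀ (Z : Type) [TopologicalSpace Z] [CompactSpace Z] (ν : C(Z, ℝ) → ℝ),
      EqNorm C(Z, ℝ) ν → ∃ I : Type 1, Nonempty (TSys C(K × Z, ℝ) C(Z, ℝ) I ν (PP (K := K) ν))) :
    Adm K := by
  intro Q hc hs Z _ _ _ ν hν hQ δ hδ
  obtain ⟨I, ⟨T⟩⟩ := h Z ν hν
  have hS : ∀ i, SN C(K × Z, ℝ) (fun F => 1 / 2 * ν (T.t i F)) ∧
      Q C(K × Z, ℝ) fun F => 1 / 2 * ν (T.t i F) := fun i =>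
    scale hc ((EqNorm.sn hν).comp (T.t i)) (hc _ _ (T.t i) ν hQ) (by norm_num)
  obtain ⟨N, hN1, hN2, hN3⟩ := hs C(K × Z, ℝ) (PP (K := K) ν) (eqNorm_PP hν) I
    (fun _ => 0) (fun _ => 1) (fun i F => ν (T.e i F)) (fun i F => 1 / 2 * ν (T.t i F)) δ hδ
    (fun _ => ⟨one_pos, le_rfl⟩)
    (fun i => ⟨(EqNorm.sn hν).comp (T.e i), T.he i⟩)
    (fun i ε hε => ⟨fun F => ν (T.e i F), (EqNorm.sn hν).comp _, hc _ _ (T.e i) ν hQ, fun F =>
      ⟨le_rfl, by have := hν.nonneg (T.e i F); nlinarith⟩⟩)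
    (fun i => ⟨(hS i).1, (hS i).2, fun F => by
      have := T.ht i F
      linarith⟩)
    (fun c F ε hε => by
      refine (T.fin F ε hε).subset fun i hi => ?_
      have hi : ε ≤ 1 / 2 * ν (T.t i F) := hi.2.2
      have := hν.nonneg (T.t i F)
      change ε ≤ ν (T.t i F)
      linarith)
    (fun F hF => by
      obtain ⟨i, hi1, hi2⟩ := T.catch_ F hF
      refine ⟨i, hi1.ge, ?_⟩
      have := hν.pos hi2
      positivity)
  exact ⟨N, EqNorm.sn hN1, hN2, hN3⟩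

/-- layered spaces with admissible pieces -/
theorem adm_layered {K : Type} [TopologicalSpace K] [CompactSpace K] [Nonempty K] (Λ : Lay K)
    (h : ∀ (q : Cl) (j : Λ.J q.n) [CompactSpace (Λ.pc q j)], (Λ.pc q j).Nonempty →
      Adm (Λ.pc q j)) : Adm K := by
  classical
  intro Q hc hs Z _ _ _ ν hν hQ δ hδ
  set s := min (δ / 3) 1 with hs'
  have h0 : 0 < s := lt_min (by positivity) one_pos
  have h0' : s ≤ δ / 3 := min_le_left _ _
  have h0'' : s ≤ 1 := min_le_right _ _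
  obtain ⟨c, P, hc1, hP, hP1, hP2, hP3, hP4⟩ := exists_weighted (Z := Z) Λ hν h0 h0''
  have hPP := eqNorm_PP (K := K) hν
  have hcomp : ∀ (q : Cl) (j : Λ.J q.n), CompactSpace (Λ.pc q j) := fun q j =>
    isCompact_iff_compactSpace.1 (Λ.isClosed_pc q j).isCompact
  let ι : ∀ (q : Cl) (j : Λ.J q.n), C(Λ.pc q j, K) := fun q j => ⟨Subtype.val, by fun_prop⟩
  let I := ULift.{1} {i : Σ q : Cl, Λ.J q.n // (Λ.pc i.1 i.2).Nonempty}
  let R : I → C(K × Z, ℝ) → ℝ := fun i F =>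
    c i.down.1.1 * PP (K := Λ.pc i.down.1.1 i.down.1.2) ν
      (pull1 Z (ι i.down.1.1 i.down.1.2) F)
  have hcpos : ∀ q, 0 < c q := fun q => zero_lt_one.trans_le (hc1 q).1
  have hRle : ∀ i F, R i F ≤ P F := by
    rintro ⟨⟨⟨q, j⟩, hne⟩⟩ F
    have : Nonempty (Λ.pc q j) := hne.to_subtype
    change c q * PP (K := Λ.pc q j) ν (pull1 Z (ι q j) F) ≤ P F
    obtain ⟨y, hy⟩ := exists_PP (K := Λ.pc q j) hν (pull1 Z (ι q j) F)
    rw [← hy, ev_pull1]
    exact hP2 F q j y.1 y.2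
  have hRsn : ∀ i, SN C(K × Z, ℝ) (R i) := by
    rintro ⟨⟨⟨q, j⟩, hne⟩⟩
    have : Nonempty (Λ.pc q j) := hne.to_subtype
    have h1 := (EqNorm.sn (eqNorm_PP (K := Λ.pc q j) hν)).comp (pull1 Z (ι q j))
    refine ⟨fun F G => ?_, fun a F => ?_⟩
    · have h2 := h1.add_le F G
      have h3 := (hcpos q).le
      change c q * _ ≤ c q * _ + c q * _
      rw [← mul_add]
      exact mul_le_mul_of_nonneg_left h2 h3
    · have h2 := h1.smul a F
      change c q * _ = |a| * (c q * _)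
      rw [h2]
      ring
  have happ : ∀ i (ε : ℝ), 0 < ε → ∃ N, SN C(K × Z, ℝ) N ∧ Q C(K × Z, ℝ) N ∧
      ∀ F, R i F ≤ N F ∧ N F ≤ (1 + ε) * R i F := by
    rintro ⟨⟨⟨q, j⟩, hne⟩⟩ ε hε
    have : Nonempty (Λ.pc q j) := hne.to_subtype
    obtain ⟨N, hN1, hN2, hN3⟩ := h q j hne Q hc hs Z ν hν hQ ε hε
    have h1 := scale hc (hN1.comp (pull1 Z (ι q j))) (hc _ _ (pull1 Z (ι q j)) N hN2)
      (a := c q) (hcpos q).le
    refine ⟨_, h1.1, h1.2, fun F => ?_⟩
    have h2 := hN3 (pull1 Z (ι q j) F)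
    have h3 := (hcpos q).le
    change c q * PP (K := Λ.pc q j) ν (pull1 Z (ι q j) F) ≤ c q * N (pull1 Z (ι q j) F) ∧
      c q * N (pull1 Z (ι q j) F) ≤ (1 + ε) * (c q * PP (K := Λ.pc q j) ν (pull1 Z (ι q j) F))
    refine ⟨mul_le_mul_of_nonneg_left h2.1 h3, ?_⟩
    have h4 := mul_le_mul_of_nonneg_left h2.2 h3
    linarith
  have hS : ∀ i, ∃ S : C(K × Z, ℝ) → ℝ, SN C(K × Z, ℝ) S ∧ Q C(K × Z, ℝ) S ∧
      ∀ F, 1 / 2 * R i F ≤ S F ∧ S F ≤ P F := by
    intro i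
    obtain ⟨N, hN1, hN2, hN3⟩ := happ i 1 one_pos
    have h1 := scale hc hN1 hN2 (a := 1 / 2) (by norm_num)
    refine ⟨_, h1.1, h1.2, fun F => ?_⟩
    have h2 := hN3 F
    have h3 := hRle i F
    constructor
    · linarith
    · linarith
  choose S hS1 hS2 hS3 using hS
  let τ : ℕ → ℝ := fun m =>
    match (Encodable.decode m : Option Cl) with
    | none => 1
    | some q => s * w q.n / 8
  have hτ : ∀ q : Cl, τ (Encodable.encode q) = s * w q.n / 8 := by
    intro q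
    simp only [τ, Encodable.encodek]
  obtain ⟨N, hN1, hN2, hN3⟩ := hs C(K × Z, ℝ) P hP I (fun i => Encodable.encode i.down.1.1) τ R S s
    h0 (by
      intro m
      simp only [τ]
      split
      · exact ⟨one_pos, le_rfl⟩
      · rename_i q _
        have h1 := w_pos q.n
        have h2 := w_le q.n
        constructor
        · positivity
        · nlinarith)
    (fun i => ⟨hRsn i, hRle i⟩) happ (fun i => ⟨hS1 i, hS2 i, fun F => (hS3 i F).2⟩)
    (by
      intro m F ε hε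
      by_cases hF : F = 0
      · refine finite_empty.subset ?_
        rintro i ⟨-, -, h1⟩
        rw [hF, (hS1 i).map_zero] at h1
        exact absurd h1 (not_le.2 hε)
      have hPF := hP.pos hF
      by_cases hm : ∃ q : Cl, Encodable.encode q = m
      swap
      · refine finite_empty.subset ?_
        rintro i ⟨h1, -, -⟩
        exact hm ⟨_, h1⟩
      obtain ⟨q, rfl⟩ := hm
      rw [hτ]
      have hfin := hP3 F hPF q
      have hfin2 := hfin.image (fun j => (⟨q, j⟩ : Σ q : Cl, Λ.J q.n))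
      have hfin3 : {i : I | i.down.1 ∈ (fun j => (⟨q, j⟩ : Σ q : Cl, Λ.J q.n)) ''
          {j : Λ.J q.n | ∃ y ∈ Λ.pc q j, (1 - s * w q.n / 8) * P F ≤ c q * ν (ev y F)}}.Finite := by
        refine hfin2.preimage (f := fun i : I => i.down.1) ?_
        intro i _ i' _ hii
        exact ULift.down_injective (Subtype.ext hii)
      refine hfin3.subset ?_
      rintro ⟨⟨⟨q', j⟩, hne⟩⟩ ⟨h1, h2, -⟩
      have h1 : q' = q := Encodable.encode_injective h1
      subst h1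
      have : Nonempty (Λ.pc q' j) := hne.to_subtype
      refine ⟨j, ?_, rfl⟩
      obtain ⟨y, hy⟩ := exists_PP (K := Λ.pc q' j) hν (pull1 Z (ι q' j) F)
      refine ⟨y.1, y.2, ?_⟩
      have h2 : (1 - s * w q'.n / 8) * P F ≤ c q' * PP (K := Λ.pc q' j) ν
        (pull1 Z (ι q' j) F) := h2
      rw [← hy, ev_pull1] at h2
      exact h2)
    (by
      intro F hF
      have hPF := hP.pos hF
      obtain ⟨q, j, y, hy, hyP⟩ := hP4 F hPF
      have h1 := le_PP_pull1 hν (ι q j) ⟨y, hy⟩ F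
      have h2 : P F ≤ R ⟨⟨⟨q, j⟩, ⟨y, hy⟩⟩⟩ F := by
        rw [← hyP]
        exact mul_le_mul_of_nonneg_left h1 (hcpos q).le
      refine ⟨⟨⟨⟨q, j⟩, ⟨y, hy⟩⟩⟩, h2, ?_⟩
      have h3 := (hS3 ⟨⟨⟨q, j⟩, ⟨y, hy⟩⟩⟩ F).1
      have h4 : 0 < S ⟨⟨⟨q, j⟩, ⟨y, hy⟩⟩⟩ F := by linarith
      exact h4.ne')
  refine ⟨N, EqNorm.sn hN1, hN2, fun F => ⟨(hP1 F).1.trans (hN3 F).1, ?_⟩⟩
  have h1 := (hN3 F).2
  have h2 := (hP1 F).2
  have h3 := hPP.nonneg F
  calc N F ≤ (1 + s) * P F := h1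
    _ ≤ (1 + s) * ((1 + s) * PP (K := K) ν F) := mul_le_mul_of_nonneg_left h2 (by positivity)
    _ = ((1 + s) * (1 + s)) * PP (K := K) ν F := by ring
    _ ≤ (1 + δ) * PP (K := K) ν F := mul_le_mul_of_nonneg_right (by nlinarith) h3

end Pool.Agent.helper26.CR
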