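import Pool.Agent.helper26.CK.Prod
import Pool.Agent.helper26.CK.RoughM
import Pool.Agent.helper26.CK.Restr
import Pool.Agent.helper26.CK.Point

/-!
# CR-Defs: the class of compact spaces generated by retractive transfinite sequences, and good norms
-/

set_option autoImplicit false

open Set Topology Filter

namespace Pool.Agent.helper26.CR

open Pool.Agent.helper26.CK

/-- a continuous transfinite sequence of retractions of `K`, of length `θ`, with limit `K` -/
structure RSeq (K : Type) [TopologicalSpace K] (θ : Ordinal.{0}) where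
  /-- the retractions -/
  r : Ordinal.{0} → K → K
  cont : ∀ α, Continuous (r α)
  comm : ∀ α β x, r α (r β x) = r (min α β) x
  last : ∀ x, r θ x = x
  lim : ∀ δ, Order.IsSuccLimit δ → ∀ x, ∀ U ∈ 𝓝 (r δ x), ∃ β < δ, ∀ γ, β ≤ γ → γ < δ → r γ x ∈ U

instance RSeq.compactSpace {K : Type} [TopologicalSpace K] [CompactSpace K] {θ : Ordinal.{0}}
    (R : RSeq K θ) (α : Ordinal.{0}) : CompactSpace (range (R.r α)) :=
  isCompact_iff_compactSpace.1 (isCompact_range (R.cont α))

/-- the smallest class of compact Hausdorff spaces which contains the metrizable ones and is closed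
under limits of continuous transfinite sequences of retractions -/
inductive Rcl : ∀ (K : Type) [TopologicalSpace K], Prop
  | metr (K : Type) [TopologicalSpace K] [CompactSpace K] [T2Space K]
      [SecondCountableTopology K] : Rcl K
  | lim (K : Type) [TopologicalSpace K] [CompactSpace K] [T2Space K] (θ : Ordinal.{0})
      (hθ : Order.IsSuccLimit θ) (R : RSeq K θ) (h : ∀ α < θ, Rcl (range (R.r α))) : Rcl K

theorem Rcl.compactSpace {K : Type} [TopologicalSpace K] (h : Rcl K) : CompactSpace K := by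
  cases h <;> assumption

theorem Rcl.t2Space {K : Type} [TopologicalSpace K] (h : Rcl K) : T2Space K := by
  cases h <;> assumption

/-- functionals on `C(K)` which separate the points of `K` from `p` -/
structure Sep (K : Type) [TopologicalSpace K] [CompactSpace K] (p : K) where
  /-- the indices -/
  I : Type 1
  /-- the sets -/
  U : I → Set K
  clopen : ∀ i, IsClopen (U i)
  notMem : ∀ i, p ∉ U i
  /-- the functionals -/
  J : I → C(K, ℝ) →L[ℝ] ℝ
  norm_le : ∀ i, ‖J i‖ ≤ 1
  fin : ∀ (g : C(K, ℝ)) (ε : ℝ), 0 < ε → {i | ε ≤ |J i g|}.Finite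
  sep : ∀ (g : C(K, ℝ)) (y : K), g y ≠ g p → ∃ i, y ∈ U i ∧ J i g ≠ 0

/-- seminorms -/
structure SN (E : Type*) [NormedAddCommGroup E] [NormedSpace ℝ E] (N : E → ℝ) : Prop where
  add_le : ∀ f g, N (f + g) ≤ N f + N g
  smul : ∀ (a : ℝ) f, N (a • f) = |a| * N f

namespace SN

variable {E : Type*} [NormedAddCommGroup E] [NormedSpace ℝ E] {N : E → ℝ}

theorem map_zero (h : SN E N) : N 0 = 0 := by
  have := h.smul 0 0
  simpa using this

theorem map_neg (h : SN E N) (x : E) : N (-x) = N x := by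
  have := h.smul (-1) x
  simpa using this

theorem nonneg (h : SN E N) (x : E) : 0 ≤ N x := by
  have h1 := h.add_le x (-x)
  rw [add_neg_cancel, h.map_zero, h.map_neg] at h1
  linarith

theorem sub_le (h : SN E N) (x y : E) : N x - N y ≤ N (x - y) := by
  have := h.add_le (x - y) y
  rw [sub_add_cancel] at this
  linarith

theorem sub_comm (h : SN E N) (x y : E) : N (x - y) = N (y - x) := by
  rw [← h.map_neg, neg_sub]

theorem abs_sub_le (h : SN E N) (x y : E) : |N x - N y| ≤ N (x - y) := by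
  rw [abs_le]
  constructor
  · have := h.sub_le y x
    rw [h.sub_comm y x] at this
    linarith
  · exact h.sub_le x y

theorem smul_nonneg (h : SN E N) {a : ℝ} (ha : 0 ≤ a) (x : E) : N (a • x) = a * N x := by
  rw [h.smul, abs_of_nonneg ha]

theorem convexOn (h : SN E N) : ConvexOn ℝ univ N := by
  refine ⟨convex_univ, fun x _ y _ a b ha hb _ => ?_⟩
  calc N (a • x + b • y) ≤ N (a • x) + N (b • y) := h.add_le _ _
    _ = a • N x + b • N y := by rw [h.smul_nonneg ha, h.smul_nonneg hb]; rfl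

/-- a seminorm bounded by a multiple of an equivalent norm is continuous -/
theorem continuous (h : SN E N) {P : E → ℝ} (hP : EqNorm E P) {M : ℝ} (hM : ∀ x, N x ≤ M * P x) :
    Continuous N := by
  obtain ⟨c, C, hc, hC, h1⟩ := hP.equiv
  have h2 : ∀ x, N x ≤ (|M| * C) * ‖x‖ := fun x => by
    have h3 := hP.nonneg x
    calc N x ≤ M * P x := hM x
      _ ≤ |M| * P x := mul_le_mul_of_nonneg_right (le_abs_self M) h3
      _ ≤ |M| * (C * ‖x‖) := mul_le_mul_of_nonneg_left (h1 x).2 (abs_nonneg M)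
      _ = (|M| * C) * ‖x‖ := by ring
  have : LipschitzWith ⟨|M| * C, by positivity⟩ N := by
    refine LipschitzWith.of_dist_le_mul fun x y => ?_
    rw [Real.dist_eq, dist_eq_norm]
    exact (h.abs_sub_le x y).trans (h2 _)
  exact this.continuous

theorem comp (h : SN E N) {E' : Type*} [NormedAddCommGroup E'] [NormedSpace ℝ E']
    (f : E' →L[ℝ] E) : SN E' fun x => N (f x) :=
  ⟨fun x y => by simp only [map_add]; exact h.add_le _ _,
    fun a x => by simp only [map_smul]; exact h.smul _ _⟩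

end SN

theorem EqNorm.sn {E : Type*} [NormedAddCommGroup E] [NormedSpace ℝ E] {N : E → ℝ}
    (h : EqNorm E N) : SN E N := ⟨h.add_le, h.smul⟩

/-- classes of seminorms -/
abbrev Cls := ∀ (E : Type) [NormedAddCommGroup E] [NormedSpace ℝ E], (E → ℝ) → Prop

/-- on finite-dimensional spaces, `N` is a maximum of finitely many linear functionals -/
def PolyS : Cls := fun E _ _ N =>
  ∀ (V : Type) [AddCommGroup V] [Module ℝ V] [FiniteDimensional ℝ V] (f : V →ₗ[ℝ] E),
    FM fun x => N (f x)

/-- `N` is `C¹` off its kernel -/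
def C1S : Cls := fun E _ _ N => ContDiffOn ℝ 1 N {y | N y ≠ 0}

/-- the class is stable under composition with continuous linear maps -/
def CompProp (Q : Cls) : Prop :=
  ∀ (E E' : Type) [NormedAddCommGroup E] [NormedSpace ℝ E] [NormedAddCommGroup E']
    [NormedSpace ℝ E'] (f : E' →L[ℝ] E) (N : E → ℝ), Q E N → Q E' fun x => N (f x)

/-- approximations of `P` from approximations of the `R i` and the small operators `T i` -/
def StepProp (Q : Cls) : Prop :=
  ∀ (E X : Type) [NormedAddCommGroup E] [NormedSpace ℝ E] [NormedAddCommGroup X]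
    [NormedSpace ℝ X] (P : E → ℝ) (ν : X → ℝ), EqNorm E P → EqNorm X ν → Q X ν →
    ∀ (L : Type) [Finite L] (B : L → E → ℝ) (I : Type 1) (R : I → E → ℝ) (T : I → E →L[ℝ] X)
      (δ δ' : ℝ), 0 < δ → δ < δ' →
    (∀ l, SN E (B l) ∧ Q E (B l) ∧ ∀ y, B l y ≤ (1 + δ) * P y) →
    (∀ i y, R i y ≤ P y) →
    (∀ i (ε : ℝ), 0 < ε → ∃ N, SN E N ∧ Q E N ∧ ∀ y, R i y ≤ N y ∧ N y ≤ (1 + ε) * R i y) →
    (∀ i y, ν (T i y) ≤ P y) →
    (∀ y (ε : ℝ), 0 < ε → {i | ε ≤ ν (T i y)}.Finite) →
    (∀ y, y ≠ 0 → (∃ l, P y ≤ B l y) ∨ ∃ i, P y ≤ R i y ∧ T i y ≠ 0) →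
    ∃ N, EqNorm E N ∧ Q E N ∧ ∀ y, P y ≤ N y ∧ N y ≤ (1 + δ') * P y

theorem compProp_polyS : CompProp PolyS := by
  intro E E' _ _ _ _ f N h V _ _ _ g
  exact h V ((f : E' →ₗ[ℝ] E) ∘ₗ g)

theorem compProp_C1S : CompProp C1S := by
  intro E E' _ _ _ _ f N h
  exact ContDiffOn.comp h f.contDiff.contDiffOn fun x hx => hx

theorem polyS_of_polyhedral {E : Type} [NormedAddCommGroup E] [NormedSpace ℝ E] {N : E → ℝ}
    (hN : EqNorm E N) (h : Polyhedral E N) : PolyS E N := fun _ _ _ _ f =>
  FM_of_polyhedral hN h f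

theorem polyhedral_of_polyS {E : Type} [NormedAddCommGroup E] [NormedSpace ℝ E] {N : E → ℝ}
    (hN : EqNorm E N) (h : PolyS E N) : Polyhedral E N := fun V _ =>
  poly_of_finMax hN V (h V V.subtype)

theorem setOf_ne {E : Type*} [NormedAddCommGroup E] [NormedSpace ℝ E] {N : E → ℝ}
    (hN : EqNorm E N) : {y | N y ≠ 0} = {y | y ≠ 0} := by
  ext y
  exact ⟨fun h h0 => h (by rw [show y = 0 from h0, hN.map_zero]), fun h => (hN.pos h).ne'⟩

theorem C1S_iff {E : Type} [NormedAddCommGroup E] [NormedSpace ℝ E] {N : E → ℝ}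
    (hN : EqNorm E N) : C1S E N ↔ ContDiffOn ℝ 1 N {y | y ≠ 0} := by
  unfold C1S
  rw [setOf_ne hN]

end Pool.Agent.helper26.CR
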