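import Pool.Agent.helper26.CR.Defs

/-!
# CR-Defs2: approximations of a norm from classes of seminorms with thresholds
-/

set_option autoImplicit false

open Set Topology Filter

namespace Pool.Agent.helper26.CR

open Pool.Agent.helper26.CK

/-- approximations of `P` from approximations of the `R i` and the small seminorms `S i` -/
def StarProp (Q : Cls) : Prop :=
  ∀ (E : Type) [NormedAddCommGroup E] [NormedSpace ℝ E] (P : E → ℝ), EqNorm E P →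
    ∀ (I : Type 1) (cls : I → ℕ) (τ : ℕ → ℝ) (R S : I → E → ℝ) (δ : ℝ), 0 < δ →
    (∀ c, 0 < τ c ∧ τ c ≤ 1) →
    (∀ i, SN E (R i) ∧ ∀ y, R i y ≤ P y) →
    (∀ i (ε : ℝ), 0 < ε → ∃ N, SN E N ∧ Q E N ∧ ∀ y, R i y ≤ N y ∧ N y ≤ (1 + ε) * R i y) →
    (∀ i, SN E (S i) ∧ Q E (S i) ∧ ∀ y, S i y ≤ P y) →
    (∀ c y (ε : ℝ), 0 < ε → {i | cls i = c ∧ (1 - τ c) * P y ≤ R i y ∧ ε ≤ S i y}.Finite) →
    (∀ y, y ≠ 0 → ∃ i, P y ≤ R i y ∧ S i y ≠ 0) →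
    ∃ N, EqNorm E N ∧ Q E N ∧ ∀ y, P y ≤ N y ∧ N y ≤ (1 + δ) * P y

end Pool.Agent.helper26.CR
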