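import Pool.Agent.helper26.CR.Defs

/-!
# CR-SepM: metrizable scattered compact spaces

PROOF.  K is scattered compact T2, so totally disconnected: the closure C of a preconnected set with ≥ 2 points is
connected closed; a relatively isolated point x of C (`Scattered`) gives {x} open in C, closed in C (T1), so C = {x} by
connectedness, contradiction.
So every y ≠ p has a clopen nbhd not containing p; K ∖ {p} is Lindelöf (second countable), so countably many clopen
U n (n : ℕ), p ∉ U n, cover K ∖ {p}.  Let d : ℕ → K be a dense sequence.  Index I = ULift (ℕ × ℕ),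
U (n,k) = U n, J (n,k) g = (1/2)^(n+k+1) * (g (d k) - g p).
-/

set_option autoImplicit false

open Set Topology Filter

namespace Pool.Agent.helper26.CR

open Pool.Agent.helper26.CK

theorem totallyDisconnected_of_scattered {K : Type} [TopologicalSpace K] [T2Space K]
    (hK : Scattered K) : TotallyDisconnectedSpace K := by
  refine ⟨fun C _ hC => ?_⟩
  by_contra hns
  rw [Set.not_subsingleton_iff] at hns
  obtain ⟨x, hx, U, hU, hUC⟩ := hK C hns.nonempty
  obtain ⟨a, ha, b, hb, hab⟩ := hns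
  -- another point of `C`
  obtain ⟨y, hy, hyx⟩ : ∃ y ∈ C, y ≠ x := by
    by_cases h : a = x
    · exact ⟨b, hb, fun h' => hab (h.trans h'.symm)⟩
    · exact ⟨a, ha, h⟩
  have hcov : C ⊆ U ∪ {x}ᶜ := by
    intro z hz
    by_cases h : z = x
    · left
      have : x ∈ U ∩ C := by rw [hUC]; exact mem_singleton x
      rw [h]
      exact this.1
    · right
      exact h
  have hxU : x ∈ U := by
    have : x ∈ U ∩ C := by rw [hUC]; exact mem_singleton x
    exact this.1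
  obtain ⟨z, hzC, hzU, hzx⟩ := hC U {x}ᶜ hU isOpen_compl_singleton hcov ⟨x, hx, hxU⟩ ⟨y, hy, hyx⟩
  have : z ∈ U ∩ C := ⟨hzU, hzC⟩
  rw [hUC] at this
  exact hzx this

/-- countably many clopen sets which cover the complement of a point -/
theorem SepM_cover {K : Type} [TopologicalSpace K] [CompactSpace K] [T2Space K]
    [SecondCountableTopology K] (hK : Scattered K) (p : K) :
    ∃ U : ℕ → Set K, (∀ n, IsClopen (U n)) ∧ (∀ n, p ∉ U n) ∧ ∀ y, y ≠ p → ∃ n, y ∈ U n := by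
  haveI := totallyDisconnected_of_scattered hK
  have h1 : ∀ y : ({p}ᶜ : Set K), ∃ V : Set K, IsClopen V ∧ (y : K) ∈ V ∧ V ⊆ {p}ᶜ := fun y =>
    compact_exists_isClopen_in_isOpen isOpen_compl_singleton y.2
  choose V hV1 hV2 hV3 using h1
  obtain ⟨T, hT, hTU⟩ := TopologicalSpace.isOpen_iUnion_countable V (fun y => (hV1 y).isOpen)
  rcases T.eq_empty_or_nonempty with h0 | h0
  · refine ⟨fun _ => ∅, fun _ => isClopen_empty, fun _ => fun h => h, fun y hy => ?_⟩
    exfalso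
    have h2 : y ∈ ⋃ i, V i := mem_iUnion.2 ⟨⟨y, hy⟩, hV2 ⟨y, hy⟩⟩
    rw [← hTU, h0] at h2
    simp at h2
  · obtain ⟨f, hf⟩ := hT.exists_eq_range h0
    refine ⟨fun n => V (f n), fun n => hV1 _, fun n h => hV3 _ h rfl, fun y hy => ?_⟩
    have h2 : y ∈ ⋃ i, V i := mem_iUnion.2 ⟨⟨y, hy⟩, hV2 ⟨y, hy⟩⟩
    rw [← hTU, mem_iUnion₂] at h2
    obtain ⟨i, hi, hyi⟩ := h2
    rw [hf] at hi
    obtain ⟨n, rfl⟩ := hi
    exact ⟨n, hyi⟩

/-- the functionals -/
noncomputable def SepM_J {K : Type} [TopologicalSpace K] [CompactSpace K] (p : K) (d : ℕ → K)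
    (i : ℕ × ℕ) : C(K, ℝ) →L[ℝ] ℝ :=
  ((1 / 2 : ℝ) ^ (i.1 + i.2 + 1)) •
    (ContinuousMap.evalCLM ℝ (d i.2) - ContinuousMap.evalCLM ℝ p)

theorem SepM_J_apply {K : Type} [TopologicalSpace K] [CompactSpace K] (p : K) (d : ℕ → K)
    (i : ℕ × ℕ) (g : C(K, ℝ)) :
    SepM_J p d i g = (1 / 2 : ℝ) ^ (i.1 + i.2 + 1) * (g (d i.2) - g p) := by
  simp [SepM_J]

theorem SepM_J_le {K : Type} [TopologicalSpace K] [CompactSpace K] (p : K) (d : ℕ → K)
    (i : ℕ × ℕ) (g : C(K, ℝ)) : |SepM_J p d i g| ≤ (1 / 2 : ℝ) ^ (i.1 + i.2) * ‖g‖ := by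
  rw [SepM_J_apply, abs_mul, abs_of_nonneg (by positivity)]
  have h1 : |g (d i.2) - g p| ≤ 2 * ‖g‖ := by
    have ha := g.norm_coe_le_norm (d i.2)
    have hb := g.norm_coe_le_norm p
    rw [Real.norm_eq_abs] at ha hb
    have := abs_sub (g (d i.2)) (g p)
    linarith
  calc (1 / 2 : ℝ) ^ (i.1 + i.2 + 1) * |g (d i.2) - g p|
      ≤ (1 / 2 : ℝ) ^ (i.1 + i.2 + 1) * (2 * ‖g‖) :=
        mul_le_mul_of_nonneg_left h1 (by positivity)
    _ = (1 / 2 : ℝ) ^ (i.1 + i.2) * ‖g‖ := by rw [pow_succ]; ring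

theorem SepM_fin (c ε : ℝ) (hε : 0 < ε) :
    {i : ℕ × ℕ | ε ≤ (1 / 2 : ℝ) ^ (i.1 + i.2) * c}.Finite := by
  have ht : Tendsto (fun n : ℕ => (1 / 2 : ℝ) ^ n * c) atTop (𝓝 (0 * c)) :=
    (tendsto_pow_atTop_nhds_zero_of_lt_one (by norm_num) (by norm_num)).mul_const c
  rw [zero_mul] at ht
  obtain ⟨n0, hn0⟩ := eventually_atTop.1 (ht.eventually (gt_mem_nhds hε))
  refine (((Set.finite_Iio n0).prod (Set.finite_Iio n0))).subset ?_
  rintro ⟨a, b⟩ h
  have h1 : a + b < n0 := by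
    by_contra h2
    have h3 := hn0 (a + b) (not_lt.1 h2)
    exact absurd h (not_le.2 h3)
  exact ⟨by show a < n0; omega, by show b < n0; omega⟩

theorem sep_metr {K : Type} [TopologicalSpace K] [CompactSpace K] [T2Space K]
    [SecondCountableTopology K] (hK : Scattered K) (p : K) : Nonempty (Sep K p) := by
  obtain ⟨U, hU1, hU2, hU3⟩ := SepM_cover hK p
  haveI : Nonempty K := ⟨p⟩
  let d : ℕ → K := TopologicalSpace.denseSeq K
  have hd : DenseRange d := TopologicalSpace.denseRange_denseSeq K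
  refine ⟨⟨ULift.{1} (ℕ × ℕ), fun i => U i.down.1, fun i => hU1 _, fun i => hU2 _,
    fun i => SepM_J p d i.down, fun i => ?_, fun g ε hε => ?_, fun g y hy => ?_⟩⟩
  · refine ContinuousLinearMap.opNorm_le_bound _ zero_le_one fun g => ?_
    rw [Real.norm_eq_abs, one_mul]
    refine (SepM_J_le p d i.down g).trans ?_
    have h1 : (1 / 2 : ℝ) ^ (i.down.1 + i.down.2) ≤ 1 := pow_le_one₀ (by norm_num) (by norm_num)
    calc (1 / 2 : ℝ) ^ (i.down.1 + i.down.2) * ‖g‖ ≤ 1 * ‖g‖ :=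
          mul_le_mul_of_nonneg_right h1 (norm_nonneg _)
      _ = ‖g‖ := one_mul _
  · have h1 := (SepM_fin ‖g‖ ε hε).preimage (f := ULift.down.{1}) ULift.down_injective.injOn
    refine h1.subset fun i hi => ?_
    exact le_trans hi (SepM_J_le p d i.down g)
  · have hyp : y ≠ p := fun h => hy (by rw [h])
    obtain ⟨n, hn⟩ := hU3 y hyp
    have hopen : IsOpen {x | g x ≠ g p} := by
      have : {x | g x ≠ g p} = g ⁻¹' {g p}ᶜ := rfl
      rw [this]
      exact isOpen_compl_singleton.preimage g.continuous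
    obtain ⟨k, hk⟩ := hd.exists_mem_open hopen ⟨y, hy⟩
    refine ⟨⟨(n, k)⟩, hn, ?_⟩
    rw [SepM_J_apply]
    refine mul_ne_zero (by positivity) (sub_ne_zero.2 hk)

end Pool.Agent.helper26.CR
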