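import Pool.Agent.helper26.CR.Ops
import Pool.Agent.helper26.CR.SepM
import Pool.Agent.helper26.CR.Defs2

/-!
# CR-Deriv: approximations of the sup norm on clopen sets; the derivation argument
-/

set_option autoImplicit false

open Set Topology Filter TopologicalSpace

namespace Pool.Agent.helper26.CR

open Pool.Agent.helper26.CK

section cut
variable {K Z : Type} [TopologicalSpace K] [CompactSpace K] [TopologicalSpace Z] [CompactSpace Z]

open Classical in
/-- multiplication by the indicator function of a clopen set -/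
noncomputable def cutFun (A : Clopens K) (F : C(K × Z, ℝ)) : C(K × Z, ℝ) where
  toFun p := if p.1 ∈ A then F p else 0
  continuous_toFun := by
    refine continuous_if ?_ F.continuous.continuousOn continuousOn_const
    intro p hp
    exfalso
    have hc : IsClopen {p : K × Z | p.1 ∈ A} := A.isClopen.preimage continuous_fst
    rw [hc.frontier_eq] at hp
    exact hp

omit [CompactSpace K] [CompactSpace Z] in
theorem cutFun_of_mem {A : Clopens K} {x : K} (hx : x ∈ A) (F : C(K × Z, ℝ)) (z : Z) :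
    cutFun A F (x, z) = F (x, z) := by
  simp [cutFun, hx]

omit [CompactSpace K] [CompactSpace Z] in
theorem cutFun_of_notMem {A : Clopens K} {x : K} (hx : x ∉ A) (F : C(K × Z, ℝ)) (z : Z) :
    cutFun A F (x, z) = 0 := by
  simp [cutFun, hx]

/-- multiplication by the indicator function of a clopen set -/
noncomputable def cut (A : Clopens K) : C(K × Z, ℝ) →L[ℝ] C(K × Z, ℝ) :=
  LinearMap.mkContinuous
    { toFun := cutFun A
      map_add' := fun F G => by
        ext ⟨x, z⟩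
        by_cases hx : x ∈ A
        · simp [cutFun_of_mem hx]
        · simp [cutFun_of_notMem hx]
      map_smul' := fun a F => by
        ext ⟨x, z⟩
        by_cases hx : x ∈ A
        · simp [cutFun_of_mem hx]
        · simp [cutFun_of_notMem hx] } 1 (by
    intro F
    rw [one_mul]
    refine (ContinuousMap.norm_le _ (norm_nonneg _)).2 ?_
    rintro ⟨x, z⟩
    change ‖cutFun A F (x, z)‖ ≤ _
    by_cases hx : x ∈ A
    · rw [cutFun_of_mem hx]
      exact F.norm_coe_le_norm _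
    · rw [cutFun_of_notMem hx, norm_zero]
      exact norm_nonneg _)

theorem ev_cut_of_mem {A : Clopens K} {x : K} (hx : x ∈ A) (F : C(K × Z, ℝ)) :
    ev x (cut A F) = ev x F := by
  ext z
  exact cutFun_of_mem hx F z

theorem ev_cut_of_notMem {A : Clopens K} {x : K} (hx : x ∉ A) (F : C(K × Z, ℝ)) :
    ev x (cut A F) = 0 := by
  ext z
  exact cutFun_of_notMem hx F z

theorem ext_ev {F G : C(K × Z, ℝ)} (h : ∀ x, ev x F = ev x G) : F = G := by
  ext ⟨x, z⟩
  exact DFunLike.congr_fun (h x) z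

theorem cut_cut {A B : Clopens K} (h : B ≤ A) (F : C(K × Z, ℝ)) : cut A (cut B F) = cut B F := by
  refine ext_ev fun x => ?_
  by_cases hx : x ∈ A
  · rw [ev_cut_of_mem hx]
  · rw [ev_cut_of_notMem hx, ev_cut_of_notMem fun hB => hx (h hB)]

variable {ν : C(Z, ℝ) → ℝ}

theorem PP_cut_mono (hν : EqNorm C(Z, ℝ) ν) [Nonempty K] {A B : Clopens K} (h : A ≤ B)
    (F : C(K × Z, ℝ)) : PP (K := K) ν (cut A F) ≤ PP (K := K) ν (cut B F) := by
  refine ciSup_le fun x => ?_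
  by_cases hx : x ∈ A
  · have h1 := le_PP hν x (cut B F)
    rw [ev_cut_of_mem (h hx)] at h1
    rwa [ev_cut_of_mem hx]
  · rw [ev_cut_of_notMem hx, hν.map_zero]
    exact (eqNorm_PP (K := K) hν).nonneg _

theorem PP_cut_le (hν : EqNorm C(Z, ℝ) ν) [Nonempty K] (A : Clopens K) (F : C(K × Z, ℝ)) :
    PP (K := K) ν (cut A F) ≤ PP (K := K) ν F := by
  refine ciSup_le fun x => ?_
  by_cases hx : x ∈ A
  · rw [ev_cut_of_mem hx]
    exact le_PP hν x F
  · rw [ev_cut_of_notMem hx, hν.map_zero]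
    exact (eqNorm_PP (K := K) hν).nonneg _

theorem le_PP_cut (hν : EqNorm C(Z, ℝ) ν) {A : Clopens K} {x : K} (hx : x ∈ A) (F : C(K × Z, ℝ)) :
    ν (ev x F) ≤ PP (K := K) ν (cut A F) := by
  rw [← ev_cut_of_mem hx F]
  exact le_PP hν x _

/-- the sup norm on the clopen set `A` has arbitrarily good approximations in the class `Q` -/
def GoodOn (Q : Cls) (ν : C(Z, ℝ) → ℝ) (A : Clopens K) : Prop :=
  ∀ δ : ℝ, 0 < δ → ∃ N : C(K × Z, ℝ) → ℝ, SN C(K × Z, ℝ) N ∧ Q C(K × Z, ℝ) N ∧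
    ∀ F, PP (K := K) ν (cut A F) ≤ N F ∧ N F ≤ (1 + δ) * PP (K := K) ν (cut A F)

theorem GoodOn.mono {Q : Cls} (hc : CompProp Q) {A B : Clopens K} (hA : GoodOn Q ν A) (h : B ≤ A) :
    GoodOn Q ν B := by
  intro δ hδ
  obtain ⟨N, h1, h2, h3⟩ := hA δ hδ
  refine ⟨fun F => N (cut B F), h1.comp _, hc _ _ (cut B) N h2, fun F => ?_⟩
  have := h3 (cut B F)
  rwa [cut_cut h] at this

/-- the functions which vanish off `W` -/
noncomputable def VW (Z : Type) [TopologicalSpace Z] [CompactSpace Z] (W : Clopens K) :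
    Submodule ℝ C(K × Z, ℝ) :=
  LinearMap.ker (((ContinuousLinearMap.id ℝ C(K × Z, ℝ)) - cut W : C(K × Z, ℝ) →L[ℝ] C(K × Z, ℝ)) :
    C(K × Z, ℝ) →ₗ[ℝ] C(K × Z, ℝ))

theorem mem_VW {W : Clopens K} {F : C(K × Z, ℝ)} : F ∈ VW Z W ↔ cut W F = F := by
  unfold VW
  rw [LinearMap.mem_ker]
  change F - cut W F = 0 ↔ _
  rw [sub_eq_zero, eq_comm]

theorem eqNorm_sub {E : Type} [NormedAddCommGroup E] [NormedSpace ℝ E] {P : E → ℝ}
    (hP : EqNorm E P) (V : Submodule ℝ E) : EqNorm V fun v => P v := by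
  obtain ⟨c, C, hc, hC, h⟩ := hP.equiv
  refine ⟨fun f g => hP.add_le _ _, fun a f => hP.smul _ _, fun f hf => ?_, c, C, hc, hC,
    fun f => h f⟩
  exact Subtype.ext (hP.eq_zero _ hf)

theorem scale {E : Type} [NormedAddCommGroup E] [NormedSpace ℝ E] {Q : Cls} (hc : CompProp Q)
    {N : E → ℝ} (hN : SN E N) (hQ : Q E N) {a : ℝ} (ha : 0 ≤ a) :
    SN E (fun x => a * N x) ∧ Q E fun x => a * N x := by
  have h1 : (fun x => a * N x) = fun x => N ((a • ContinuousLinearMap.id ℝ E) x) := by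
    funext x
    change a * N x = N (a • x)
    rw [hN.smul_nonneg ha]
  rw [h1]
  exact ⟨hN.comp _, hc _ _ _ N hQ⟩

/-- the step, on a clopen set -/
theorem good_star {Q : Cls} (hc : CompProp Q) (hs : StarProp Q) [Nonempty K] (W : Clopens K)
    (hν : EqNorm C(Z, ℝ) ν) (I : Type 1) (cls : I → ℕ) (R S : I → C(K × Z, ℝ) → ℝ)
    (δ : ℝ) (hδ : 0 < δ)
    (h1 : ∀ i, SN C(K × Z, ℝ) (R i) ∧ ∀ F, R i F ≤ PP (K := K) ν F)
    (h2 : ∀ i (ε : ℝ), 0 < ε → ∃ N, SN C(K × Z, ℝ) N ∧ Q C(K × Z, ℝ) N ∧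
      ∀ F, R i F ≤ N F ∧ N F ≤ (1 + ε) * R i F)
    (h3 : ∀ i, SN C(K × Z, ℝ) (S i) ∧ Q C(K × Z, ℝ) (S i) ∧ ∀ F, S i F ≤ PP (K := K) ν F)
    (h4 : ∀ c F (ε : ℝ), 0 < ε → {i | cls i = c ∧ ε ≤ S i F}.Finite)
    (h5 : ∀ F, cut W F = F → ∀ y ∈ W, ν (ev y F) = PP (K := K) ν F → 0 < PP (K := K) ν F →
      ∃ i, PP (K := K) ν F ≤ R i F ∧ S i F ≠ 0) :
    ∃ N : C(K × Z, ℝ) → ℝ, SN C(K × Z, ℝ) N ∧ Q C(K × Z, ℝ) N ∧
      ∀ F, PP (K := K) ν (cut W F) ≤ N F ∧ N F ≤ (1 + δ) * PP (K := K) ν (cut W F) := by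
  have hPP := eqNorm_PP (K := K) hν
  have hP := eqNorm_sub hPP (VW Z W)
  have hsn : ∀ N : C(K × Z, ℝ) → ℝ, SN C(K × Z, ℝ) N → SN ↥(VW Z W) fun v => N v := by
    intro N h
    have := h.comp (E' := ↥(VW Z W)) (VW Z W).subtypeL
    exact this
  have hq : ∀ N : C(K × Z, ℝ) → ℝ, Q C(K × Z, ℝ) N → Q ↥(VW Z W) fun v => N v := by
    intro N h
    exact hc C(K × Z, ℝ) ↥(VW Z W) (VW Z W).subtypeL N h
  obtain ⟨N, hN1, hN2, hN3⟩ := hs (VW Z W) (fun v => PP (K := K) ν v) hP I cls (fun _ => 1)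
    (fun i v => R i v) (fun i v => S i v) δ hδ (fun _ => ⟨one_pos, le_rfl⟩)
    (fun i => ⟨hsn _ (h1 i).1, fun v => (h1 i).2 v⟩)
    (fun i ε hε => by
      obtain ⟨N, hN1, hN2, hN3⟩ := h2 i ε hε
      exact ⟨fun v => N v, hsn _ hN1, hq N hN2, fun v => hN3 v⟩)
    (fun i => ⟨hsn _ (h3 i).1, hq _ (h3 i).2.1, fun v => (h3 i).2.2 v⟩)
    (fun c v ε hε => (h4 c v ε hε).subset fun i hi => ⟨hi.1, hi.2.2⟩)
    (fun v hv => by
      have hv' : (v : C(K × Z, ℝ)) ≠ 0 := fun h => hv (Subtype.ext h)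
      have hcut : cut W (v : C(K × Z, ℝ)) = v := mem_VW.1 v.2
      obtain ⟨y, hy⟩ := exists_PP (K := K) hν (v : C(K × Z, ℝ))
      have hyW : y ∈ W := by
        by_contra hy'
        have h0 := ev_cut_of_notMem hy' (v : C(K × Z, ℝ))
        rw [hcut] at h0
        rw [h0, hν.map_zero] at hy
        exact (hPP.pos hv').ne hy
      exact h5 v hcut y hyW hy (hPP.pos hv'))
  have hmem : ∀ F : C(K × Z, ℝ), cut W F ∈ VW Z W := fun F => mem_VW.2 (cut_cut le_rfl F)
  refine ⟨fun F => N ((cut W).codRestrict (VW Z W) hmem F),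
    (EqNorm.sn hN1).comp _, hc _ _ ((cut W).codRestrict (VW Z W) hmem) N hN2, fun F => ?_⟩
  exact hN3 ((cut W).codRestrict (VW Z W) hmem F)

theorem GoodOn.bot {Q : Cls} (hc : CompProp Q) (hs : StarProp Q) [Nonempty K]
    (hν : EqNorm C(Z, ℝ) ν) : GoodOn Q ν (⊥ : Clopens K) := by
  intro δ hδ
  refine good_star hc hs (⊥ : Clopens K) hν PEmpty (fun i => i.elim) (fun i => i.elim)
    (fun i => i.elim) δ hδ (fun i => i.elim) (fun i => i.elim) (fun i => i.elim)
    (fun c F ε hε => toFinite _) ?_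
  intro F _ y hy _ _
  exact absurd hy (by rw [← SetLike.mem_coe, Clopens.coe_bot]; exact notMem_empty y)

theorem sn_cut (hν : EqNorm C(Z, ℝ) ν) [Nonempty K] (A : Clopens K) :
    SN C(K × Z, ℝ) fun F => PP (K := K) ν (cut A F) :=
  (EqNorm.sn (eqNorm_PP (K := K) hν)).comp (cut A)

theorem GoodOn.sup {Q : Cls} (hc : CompProp Q) (hs : StarProp Q) [Nonempty K]
    (hν : EqNorm C(Z, ℝ) ν) {A B : Clopens K} (hA : GoodOn Q ν A)
    (hB : GoodOn Q ν B) : GoodOn Q ν (A ⊔ B) := by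
  intro δ hδ
  obtain ⟨N, hN1, hN2, hN3⟩ := hA 1 one_pos
  obtain ⟨M, hM1, hM2, hM3⟩ := hB 1 one_pos
  have hPP := eqNorm_PP (K := K) hν
  have sN := scale hc hN1 hN2 (a := 1 / 2) (by norm_num)
  have sM := scale hc hM1 hM2 (a := 1 / 2) (by norm_num)
  refine good_star hc hs (A ⊔ B) hν (ULift Bool) (fun _ => 0)
    (fun i F => PP (K := K) ν (cut (bif i.down then A else B) F))
    (fun i F => 1 / 2 * (bif i.down then N else M) F) δ hδ ?_ ?_ ?_
    (fun c F ε hε => toFinite _) ?_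
  · rintro ⟨_ | _⟩
    · exact ⟨sn_cut hν B, PP_cut_le hν B⟩
    · exact ⟨sn_cut hν A, PP_cut_le hν A⟩
  · rintro ⟨_ | _⟩ ε hε
    · exact hB ε hε
    · exact hA ε hε
  · rintro ⟨_ | _⟩
    · refine ⟨sM.1, sM.2, fun F => ?_⟩
      have h1 := (hM3 F).2
      have h2 := PP_cut_le hν B F
      change 1 / 2 * M F ≤ _
      linarith
    · refine ⟨sN.1, sN.2, fun F => ?_⟩
      have h1 := (hN3 F).2
      have h2 := PP_cut_le hν A F
      change 1 / 2 * N F ≤ _
      linarith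
  · intro F _ y hy hyP hpos
    have hy : y ∈ A ∨ y ∈ B := hy
    rcases hy with hy | hy
    · refine ⟨⟨true⟩, ?_, ?_⟩
      · change PP (K := K) ν F ≤ PP (K := K) ν (cut A F)
        rw [← hyP]
        exact le_PP_cut hν hy F
      · change 1 / 2 * N F ≠ 0
        have h1 := le_PP_cut hν hy F
        have h2 := (hN3 F).1
        have h3 : 0 < N F := by linarith
        positivity
    · refine ⟨⟨false⟩, ?_, ?_⟩
      · change PP (K := K) ν F ≤ PP (K := K) ν (cut B F)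
        rw [← hyP]
        exact le_PP_cut hν hy F
      · change 1 / 2 * M F ≠ 0
        have h1 := le_PP_cut hν hy F
        have h2 := (hM3 F).1
        have h3 : 0 < M F := by linarith
        positivity

theorem GoodOn.point [T2Space K] [T2Space Z] {Q : Cls} (hc : CompProp Q) (hs : StarProp Q)
    [Nonempty K] (hν : EqNorm C(Z, ℝ) ν) (hQ : Q C(Z, ℝ) ν) {p : K} (S : Sep K p) {W : Clopens K}
    (hW : ∀ A : Clopens K, A ≤ W → p ∉ A → GoodOn Q ν A) : GoodOn Q ν W := by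
  intro δ hδ
  obtain ⟨T, hT1, hT2, hT3⟩ := exists_ops hν S
  have hPP := eqNorm_PP (K := K) hν
  let U : S.I → Clopens K := fun i => ⟨S.U i, S.clopen i⟩ ⊓ W
  refine good_star hc hs W hν (Option S.I) (fun o => match o with
      | none => 0
      | some _ => 1)
    (fun o F => match o with
      | none => ν (ev p F)
      | some i => PP (K := K) ν (cut (U i) F))
    (fun o F => match o with
      | none => ν (ev p F)
      | some i => ν (T i F)) δ hδ ?_ ?_ ?_ ?_ ?_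
  · rintro (_ | i)
    · exact ⟨(EqNorm.sn hν).comp (ev p), le_PP hν p⟩
    · exact ⟨sn_cut hν (U i), PP_cut_le hν (U i)⟩
  · rintro (_ | i) ε hε
    · refine ⟨fun F => ν (ev p F), (EqNorm.sn hν).comp (ev p), hc _ _ (ev p) ν hQ, fun F =>
        ⟨le_rfl, ?_⟩⟩
      have := hν.nonneg (ev p F)
      nlinarith
    · exact hW (U i) inf_le_right (fun h => S.notMem i h.1) ε hε
  · rintro (_ | i)
    · exact ⟨(EqNorm.sn hν).comp (ev p), hc _ _ (ev p) ν hQ, le_PP hν p⟩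
    · exact ⟨(EqNorm.sn hν).comp (T i), hc _ _ (T i) ν hQ, hT1 i⟩
  · intro c F ε hε
    refine ((finite_singleton none).union ((hT2 F ε hε).image some)).subset ?_
    rintro (_ | i) hi
    · exact Or.inl rfl
    · exact Or.inr ⟨i, hi.2, rfl⟩
  · intro F _ y hy hyP hpos
    by_cases h : ev y F = ev p F
    · refine ⟨none, ?_, ?_⟩
      · change _ ≤ ν (ev p F)
        rw [← hyP, h]
      · change ν (ev p F) ≠ 0
        rw [← h, hyP]
        exact hpos.ne'
    · obtain ⟨i, hi1, hi2⟩ := hT3 F y h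
      refine ⟨some i, ?_, ?_⟩
      · rw [← hyP]
        exact le_PP_cut (A := U i) hν ⟨hi1, hy⟩ F
      · exact (hν.pos hi2).ne'

end cut

/-- the sup norm of `C(K × Z)` has arbitrarily good approximations in the class `Q` -/
theorem exists_approx {Q : Cls} (hc : CompProp Q) (hs : StarProp Q) {K Z : Type}
    [TopologicalSpace K] [CompactSpace K] [T2Space K] [TopologicalSpace Z] [CompactSpace Z]
    [T2Space Z] [Nonempty K] (hK : Scattered K) (hsep : ∀ p : K, Nonempty (Sep K p))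
    {ν : C(Z, ℝ) → ℝ} (hν : EqNorm C(Z, ℝ) ν) (hQ : Q C(Z, ℝ) ν) (δ : ℝ) (hδ : 0 < δ) :
    ∃ N : C(K × Z, ℝ) → ℝ, SN C(K × Z, ℝ) N ∧ Q C(K × Z, ℝ) N ∧
      ∀ F, PP (K := K) ν F ≤ N F ∧ N F ≤ (1 + δ) * PP (K := K) ν F := by
  have htd := totallyDisconnected_of_scattered hK
  have hPP := eqNorm_PP (K := K) hν
  -- compact sets covered by good sets
  have hcov : ∀ s : Set K, IsCompact s → (∀ x ∈ s, ∃ A : Clopens K, x ∈ A ∧ GoodOn Q ν A) →
      ∃ A : Clopens K, s ⊆ A ∧ GoodOn Q ν A := by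
    intro s hs' h
    refine hs'.induction_on (p := fun s => ∃ A : Clopens K, s ⊆ A ∧ GoodOn Q ν A) ?_ ?_ ?_ ?_
    · exact ⟨⊥, empty_subset _, GoodOn.bot hc hs hν⟩
    · rintro s t hst ⟨A, hA, hA'⟩
      exact ⟨A, hst.trans hA, hA'⟩
    · rintro s t ⟨A, hA, hA'⟩ ⟨B, hB, hB'⟩
      exact ⟨A ⊔ B, union_subset_union hA hB, GoodOn.sup hc hs hν hA' hB'⟩
    · intro x hx
      obtain ⟨A, hxA, hA⟩ := h x hx
      exact ⟨A, mem_nhdsWithin_of_mem_nhds (A.isClopen.isOpen.mem_nhds hxA), A, Subset.rfl, hA⟩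
  have hall : ∀ x : K, ∃ A : Clopens K, x ∈ A ∧ GoodOn Q ν A := by
    by_contra hcon
    push Not at hcon
    obtain ⟨x0, hx0⟩ := hcon
    obtain ⟨p, hp, U, hU, hUC⟩ := hK {x | ∀ A : Clopens K, x ∈ A → ¬ GoodOn Q ν A} ⟨x0, hx0⟩
    have hpU : p ∈ U := by
      have : p ∈ U ∩ {x | ∀ A : Clopens K, x ∈ A → ¬ GoodOn Q ν A} := by
        rw [hUC]; exact mem_singleton p
      exact this.1
    obtain ⟨V, hV, hpV, hVU⟩ := compact_exists_isClopen_in_isOpen hU hpU
    refine hp ⟨V, hV⟩ hpV (GoodOn.point hc hs hν hQ (hsep p).some ?_)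
    intro A hAV hpA
    obtain ⟨B, hB, hB'⟩ := hcov A A.isClopen.isClosed.isCompact (by
      intro x hx
      by_contra hcon
      push Not at hcon
      have h1 : x ∈ U ∩ {x | ∀ A : Clopens K, x ∈ A → ¬ GoodOn Q ν A} :=
        ⟨hVU (hAV hx), fun A hA hA' => hcon A hA hA'⟩
      rw [hUC] at h1
      have h1 : x = p := h1
      exact hpA (h1 ▸ hx))
    exact hB'.mono hc hB
  obtain ⟨A, hA, hA'⟩ := hcov univ isCompact_univ fun x _ => hall x
  obtain ⟨N, hN1, hN2, hN3⟩ := hA' δ hδ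
  have hcut : ∀ F : C(K × Z, ℝ), cut A F = F := fun F => ext_ev fun x =>
    ev_cut_of_mem (hA (mem_univ x)) F
  refine ⟨N, hN1, hN2, fun F => ?_⟩
  have := hN3 F
  rwa [hcut] at this

end Pool.Agent.helper26.CR
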