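import Pool.Agent.helper26.CR.Defs

/-!
# CR-SepR: the functionals along a transfinite sequence of retractions
-/

set_option autoImplicit false

open Set Topology Filter

namespace Pool.Agent.helper26.CR

open Pool.Agent.helper26.CK

namespace RSeq

variable {K : Type} [TopologicalSpace K] {θ : Ordinal.{0}} (R : RSeq K θ)

theorem SepR_comm_le {α β : Ordinal.{0}} (h : α ≤ β) (x : K) : R.r α (R.r β x) = R.r α x := by
  rw [R.comm, min_eq_left h]

theorem SepR_comm_ge {α β : Ordinal.{0}} (h : β ≤ α) (x : K) : R.r α (R.r β x) = R.r β x := by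
  rw [R.comm, min_eq_right h]

theorem SepR_eq_of_lim [T2Space K] {δ : Ordinal.{0}} (hδ : Order.IsSuccLimit δ) {x y : K}
    (h : ∀ β < δ, R.r β x = R.r β y) : R.r δ x = R.r δ y := by
  by_contra hne
  obtain ⟨U, V, hU, hV, hxU, hyV, hUV⟩ := t2_separation hne
  obtain ⟨β, hβ, h1⟩ := R.lim δ hδ x U (hU.mem_nhds hxU)
  obtain ⟨β', hβ', h2⟩ := R.lim δ hδ y V (hV.mem_nhds hyV)
  have hm : max β β' < δ := max_lt hβ hβ'
  have a := h1 _ (le_max_left β β') hm
  have b := h2 _ (le_max_right β β') hm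
  rw [h _ hm] at a
  exact hUV.le_bot ⟨a, b⟩

/-- uniform convergence at the limits -/
theorem SepR_unif [CompactSpace K] [T2Space K] {δ : Ordinal.{0}} (hδ : Order.IsSuccLimit δ)
    {g : K × K → ℝ} (hg : Continuous g) (hg0 : ∀ a, g (a, a) = 0) {ε : ℝ} (hε : 0 < ε) :
    ∃ γ < δ, ∀ β, γ ≤ β → β < δ → ∀ x, g (R.r β x, R.r δ x) < ε := by
  classical
  let Q : Iio δ → Set (K × K) := fun γ =>
    {p | R.r δ p.1 = p.1 ∧ R.r δ p.2 = p.2 ∧ R.r γ p.1 = R.r γ p.2 ∧ ε ≤ g p}
  have hQc : ∀ γ, IsClosed (Q γ) := by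
    intro γ
    have c1 := R.cont δ
    have c2 := R.cont γ.1
    refine (isClosed_eq (by fun_prop) (by fun_prop)).inter
      ((isClosed_eq (by fun_prop) (by fun_prop)).inter
        ((isClosed_eq (by fun_prop) (by fun_prop)).inter (isClosed_le (by fun_prop) hg)))
  have hmono : ∀ γ γ' : Iio δ, γ ≤ γ' → Q γ' ⊆ Q γ := by
    rintro γ γ' h p ⟨h1, h2, h3, h4⟩
    refine ⟨h1, h2, ?_, h4⟩
    have : R.r γ.1 (R.r γ'.1 p.1) = R.r γ.1 (R.r γ'.1 p.2) := by rw [h3]
    rwa [R.SepR_comm_le h, R.SepR_comm_le h] at this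
  have : Nonempty (Iio δ) := ⟨⟨0, hδ.bot_lt⟩⟩
  by_cases hall : ∀ γ, (Q γ).Nonempty
  · exfalso
    obtain ⟨p, hp⟩ := IsCompact.nonempty_iInter_of_directed_nonempty_isCompact_isClosed Q
      (by
        intro a b
        refine ⟨max a b, hmono _ _ (le_max_left _ _), hmono _ _ (le_max_right _ _)⟩)
      hall (fun γ => (hQc γ).isCompact) hQc
    rw [mem_iInter] at hp
    have h1 : R.r δ p.1 = R.r δ p.2 := R.SepR_eq_of_lim hδ fun β hβ => (hp ⟨β, hβ⟩).2.2.1
    have h0 := hp ⟨0, hδ.bot_lt⟩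
    have h2 : p.1 = p.2 := by rw [← h0.1, h1, h0.2.1]
    have h3 : g p = 0 := by
      have : p = (p.1, p.1) := Prod.ext rfl h2.symm
      rw [this]; exact hg0 _
    have := h0.2.2.2
    linarith
  · push Not at hall
    obtain ⟨γ, hγ⟩ := hall
    refine ⟨γ.1, γ.2, fun β hβ hβδ x => ?_⟩
    by_contra hge
    push Not at hge
    have : (R.r β x, R.r δ x) ∈ Q γ := by
      refine ⟨R.SepR_comm_ge hβδ.le x, R.SepR_comm_le le_rfl x, ?_, hge⟩
      change R.r γ.1 (R.r β x) = R.r γ.1 (R.r δ x)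
      rw [R.SepR_comm_le hβ, R.SepR_comm_le (le_of_lt γ.2)]
    rw [hγ] at this
    exact this

/-- finitely many large jumps -/
theorem fin_jumps [CompactSpace K] [T2Space K] (g : C(K, ℝ)) {ε : ℝ} (hε : 0 < ε) :
    {α | ∃ x, ε ≤ |g (R.r (Order.succ α) x) - g (R.r α x)|}.Finite := by
  classical
  have hg : Continuous fun p : K × K => |g p.1 - g p.2| := by fun_prop
  set B := {α | ∃ x, ε ≤ |g (R.r (Order.succ α) x) - g (R.r α x)|} with hB
  have hid : ∀ α, θ ≤ α → ∀ x, R.r α x = x := by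
    intro α hα x
    have := R.SepR_comm_ge hα x
    rwa [R.last] at this
  have hsub : B ⊆ Iio θ := by
    rintro α ⟨x, hx⟩
    by_contra hα
    have hα : θ ≤ α := not_lt.1 hα
    rw [hid α hα, hid _ (hα.trans (Order.le_succ α)), sub_self, abs_zero] at hx
    linarith
  have key : ∀ δ : Ordinal.{0}, (B ∩ Iio δ).Finite := by
    intro δ
    induction δ using Ordinal.limitRecOn with
    | zero =>
      have : B ∩ Iio (0 : Ordinal.{0}) = ∅ := by
        ext a; simp
      rw [this]; exact finite_empty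
    | add_one δ ih =>
      refine (ih.insert δ).subset ?_
      rintro a ⟨ha, hlt⟩
      rcases (Order.lt_add_one_iff.1 (mem_Iio.1 hlt)).eq_or_lt with h | h
      · exact Or.inl h
      · exact Or.inr ⟨ha, h⟩
    | limit δ hδ ih =>
      obtain ⟨γ, hγ, h1⟩ := R.SepR_unif hδ hg (fun a => by simp) (half_pos hε)
      refine (ih γ hγ).subset ?_
      rintro a ⟨ha, hlt⟩
      refine ⟨ha, ?_⟩
      by_contra hge
      have hge : γ ≤ a := not_lt.1 hge
      obtain ⟨x, hx⟩ := ha
      have hs : Order.succ a < δ := hδ.succ_lt hlt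
      have e1 := h1 (Order.succ a) (hge.trans (Order.le_succ a)) hs x
      have e2 := h1 a hge hlt x
      dsimp only at e1 e2
      have e3 := abs_sub_le (g (R.r (Order.succ a) x)) (g (R.r δ x)) (g (R.r a x))
      rw [abs_sub_comm (g (R.r δ x)) (g (R.r a x))] at e3
      linarith
  have := key θ
  rwa [inter_eq_left.2 hsub] at this

/-- a function which jumps nowhere between two points takes the same values at them -/
theorem SepR_same [CompactSpace K] (g : C(K, ℝ)) {y p : K}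
    (h0 : g (R.r 0 y) = g (R.r 0 p))
    (h1 : ∀ α < θ, g (R.r (Order.succ α) y) - g (R.r α y) =
      g (R.r (Order.succ α) p) - g (R.r α p)) : g y = g p := by
  have key : ∀ δ : Ordinal.{0}, δ ≤ θ → g (R.r δ y) = g (R.r δ p) := by
    intro δ
    induction δ using Ordinal.limitRecOn with
    | zero => intro _; exact h0
    | add_one δ ih =>
      intro h
      have hlt : δ < θ := (Order.lt_succ δ).trans_le h
      have e1 := ih hlt.le
      have e2 := h1 δ hlt
      rw [e1] at e2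
      exact sub_left_inj.1 e2
    | limit δ hδ ih =>
      intro h
      by_contra hne
      obtain ⟨U, V, hU, hV, hxU, hyV, hUV⟩ := t2_separation hne
      obtain ⟨β, hβ, e1⟩ := R.lim δ hδ y (g ⁻¹' U) ((hU.preimage g.continuous).mem_nhds hxU)
      obtain ⟨β', hβ', e2⟩ := R.lim δ hδ p (g ⁻¹' V) ((hV.preimage g.continuous).mem_nhds hyV)
      have hm : max β β' < δ := max_lt hβ hβ'
      have a := e1 _ (le_max_left β β') hm
      have b := e2 _ (le_max_right β β') hm
      rw [mem_preimage] at a b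
      rw [ih _ hm (hm.le.trans h)] at a
      exact hUV.le_bot ⟨a, b⟩
  have := key θ le_rfl
  rwa [R.last, R.last] at this

end RSeq

theorem scattered_range {K : Type} [TopologicalSpace K] (hK : Scattered K) (S : Set K) :
    Scattered S := by
  intro A hA
  obtain ⟨x, ⟨a, ha, rfl⟩, U, hU, hUA⟩ := hK (Subtype.val '' A) (hA.image _)
  refine ⟨a, ha, Subtype.val ⁻¹' U, hU.preimage continuous_subtype_val, ?_⟩
  ext b
  constructor
  · rintro ⟨hb, hbA⟩
    have : b.1 ∈ U ∩ Subtype.val '' A := ⟨hb, b, hbA, rfl⟩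
    rw [hUA] at this
    exact Subtype.ext this
  · rintro rfl
    have : b.1 ∈ U ∩ Subtype.val '' A := by rw [hUA]; exact rfl
    exact ⟨this.1, ha⟩

/-- composition with a continuous map -/
noncomputable def SepR_pull {S K : Type} [TopologicalSpace S] [TopologicalSpace K] [CompactSpace S]
    [CompactSpace K] (φ : C(S, K)) : C(K, ℝ) →L[ℝ] C(S, ℝ) :=
  LinearMap.mkContinuous
    { toFun := fun g => g.comp φ
      map_add' := fun _ _ => rfl
      map_smul' := fun _ _ => rfl } 1 (fun g => by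
    rw [one_mul]
    refine (ContinuousMap.norm_le _ (norm_nonneg g)).2 fun x => ?_
    exact g.norm_coe_le_norm (φ x))

/-- the inclusion of a subset -/
def SepR_inc {K : Type} [TopologicalSpace K] (S : Set K) : C(S, K) :=
  ⟨Subtype.val, continuous_subtype_val⟩

section

variable {K : Type} [TopologicalSpace K] [CompactSpace K] {θ : Ordinal.{0}} (R : RSeq K θ)

/-- restriction -/
noncomputable def SepR_res (α : Ordinal.{0}) : C(K, ℝ) →L[ℝ] C(range (R.r α), ℝ) :=
  SepR_pull (SepR_inc (range (R.r α)))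

/-- the difference operator -/
noncomputable def SepR_D (α : Ordinal.{0}) :
    C(K, ℝ) →L[ℝ] C(range (R.r (Order.succ α)), ℝ) :=
  SepR_pull (SepR_inc (range (R.r (Order.succ α)))) -
    SepR_pull ((⟨R.r α, R.cont α⟩ : C(K, K)).comp (SepR_inc (range (R.r (Order.succ α)))))

theorem SepR_res_apply (α : Ordinal.{0}) (g : C(K, ℝ)) (x : range (R.r α)) :
    SepR_res R α g x = g x.1 := rfl

theorem SepR_D_apply (α : Ordinal.{0}) (g : C(K, ℝ)) (x : range (R.r (Order.succ α))) :
    SepR_D R α g x = g x.1 - g (R.r α x.1) := rfl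

theorem SepR_res_le (α : Ordinal.{0}) (g : C(K, ℝ)) : ‖SepR_res R α g‖ ≤ ‖g‖ := by
  refine (ContinuousMap.norm_le _ (norm_nonneg g)).2 fun x => ?_
  rw [SepR_res_apply]
  exact g.norm_coe_le_norm _

theorem SepR_D_le (α : Ordinal.{0}) (g : C(K, ℝ)) : ‖SepR_D R α g‖ ≤ 2 * ‖g‖ := by
  refine (ContinuousMap.norm_le _ (by positivity)).2 fun x => ?_
  rw [SepR_D_apply]
  have h1 := g.norm_coe_le_norm x.1
  have h2 := g.norm_coe_le_norm (R.r α x.1)
  refine (norm_sub_le _ _).trans ?_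
  linarith

/-- the retraction onto its range -/
def SepR_to (α : Ordinal.{0}) (x : K) : range (R.r α) := ⟨R.r α x, x, rfl⟩

omit [CompactSpace K] in
theorem SepR_to_cont (α : Ordinal.{0}) : Continuous (SepR_to R α) :=
  (R.cont α).subtype_mk _

theorem SepR_D_to (α : Ordinal.{0}) (g : C(K, ℝ)) (x : K) :
    SepR_D R α g (SepR_to R (Order.succ α) x) = g (R.r (Order.succ α) x) - g (R.r α x) := by
  rw [SepR_D_apply]
  change g (R.r (Order.succ α) x) - g (R.r α (R.r (Order.succ α) x)) = _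
  rw [R.SepR_comm_le (Order.le_succ α)]

end

theorem sep_step {K : Type} [TopologicalSpace K] [CompactSpace K] [T2Space K]
    {θ : Ordinal.{0}} (hθ : Order.IsSuccLimit θ) (R : RSeq K θ)
    (h : ∀ α < θ, ∀ q : range (R.r α), Nonempty (Sep (range (R.r α)) q)) (p : K) :
    Nonempty (Sep K p) := by
  classical
  have S0 : Sep (range (R.r 0)) (SepR_to R 0 p) :=
    (h 0 hθ.bot_lt (SepR_to R 0 p)).some
  have S : ∀ α : Iio θ, Sep (range (R.r (Order.succ α.1))) (SepR_to R (Order.succ α.1) p) :=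
    fun α => (h (Order.succ α.1) (hθ.succ_lt α.2) (SepR_to R (Order.succ α.1) p)).some
  refine ⟨{
    I := S0.I ⊕ (Σ α : Iio θ, (S α).I)
    U := Sum.elim (fun i => SepR_to R 0 ⁻¹' S0.U i)
      (fun i => SepR_to R (Order.succ i.1.1) ⁻¹' (S i.1).U i.2)
    clopen := ?_
    notMem := ?_
    J := Sum.elim (fun i => (S0.J i).comp (SepR_res R 0))
      (fun i => (1 / 2 : ℝ) • (((S i.1).J i.2).comp (SepR_D R i.1.1)))
    norm_le := ?_
    fin := ?_
    sep := ?_ }⟩
  · rintro (i | ⟨α, i⟩)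
    · exact (S0.clopen i).preimage (SepR_to_cont R 0)
    · exact ((S α).clopen i).preimage (SepR_to_cont R _)
  · rintro (i | ⟨α, i⟩)
    · exact S0.notMem i
    · exact (S α).notMem i
  · rintro (i | ⟨α, i⟩)
    · refine ContinuousLinearMap.opNorm_le_bound _ zero_le_one fun g => ?_
      change ‖S0.J i (SepR_res R 0 g)‖ ≤ 1 * ‖g‖
      have h1 := (S0.J i).le_opNorm (SepR_res R 0 g)
      have h2 := mul_le_mul (S0.norm_le i) (SepR_res_le R 0 g) (norm_nonneg _) zero_le_one
      exact h1.trans h2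
    · refine ContinuousLinearMap.opNorm_le_bound _ zero_le_one fun g => ?_
      change ‖(1 / 2 : ℝ) • (S α).J i (SepR_D R α.1 g)‖ ≤ 1 * ‖g‖
      have h1 := ((S α).J i).le_opNorm (SepR_D R α.1 g)
      have h2 := mul_le_mul ((S α).norm_le i) (SepR_D_le R α.1 g) (norm_nonneg _) zero_le_one
      rw [smul_eq_mul, norm_mul]
      have h3 : ‖(1 / 2 : ℝ)‖ = 1 / 2 := by norm_num
      rw [h3]
      linarith
  · intro g ε hε
    have hF : (Subtype.val ⁻¹' {α | ∃ x, ε ≤ |g (R.r (Order.succ α) x) - g (R.r α x)|} :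
        Set (Iio θ)).Finite := Finite.preimage Subtype.val_injective.injOn (R.fin_jumps g hε)
    refine (((S0.fin (SepR_res R 0 g) ε hε).image Sum.inl).union
      ((hF.biUnion (t := fun α => Sigma.mk α ''
        {i | ε ≤ |(S α).J i (SepR_D R α.1 g)|}) (fun α _ =>
          ((S α).fin (SepR_D R α.1 g) ε hε).image _)).image Sum.inr)).subset ?_
    rintro (i | ⟨α, i⟩) hi
    · exact Or.inl ⟨i, hi, rfl⟩
    · right
      have hi' : ε ≤ |(1 / 2 : ℝ) • (S α).J i (SepR_D R α.1 g)| := hi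
      rw [smul_eq_mul, abs_mul] at hi'
      have h3 : |(1 / 2 : ℝ)| = 1 / 2 := by norm_num
      rw [h3] at hi'
      have h4 := abs_nonneg ((S α).J i (SepR_D R α.1 g))
      refine ⟨⟨α, i⟩, mem_iUnion₂.2 ⟨α, ?_, i, ?_, rfl⟩, rfl⟩
      · by_contra hcon
        have hcon : ∀ x, |g (R.r (Order.succ α.1) x) - g (R.r α.1 x)| < ε := by
          intro x
          by_contra hx
          exact hcon ⟨x, not_lt.1 hx⟩
        have h5 : ‖SepR_D R α.1 g‖ < ε := by
          rw [ContinuousMap.norm_lt_iff _ hε]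
          rintro ⟨_, y, rfl⟩
          have := hcon y
          rw [← SepR_D_to R α.1 g y] at this
          exact this
        have h6 := ((S α).J i).le_opNorm (SepR_D R α.1 g)
        have h7 : ‖(S α).J i‖ * ‖SepR_D R α.1 g‖ ≤ 1 * ‖SepR_D R α.1 g‖ :=
          mul_le_mul_of_nonneg_right ((S α).norm_le i) (norm_nonneg _)
        rw [Real.norm_eq_abs] at h6
        linarith
      · change ε ≤ |(S α).J i (SepR_D R α.1 g)|
        linarith
  · intro g y hgy
    by_cases h0 : g (R.r 0 y) = g (R.r 0 p)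
    · obtain ⟨α, hα, hne⟩ : ∃ α < θ, g (R.r (Order.succ α) y) - g (R.r α y) ≠
          g (R.r (Order.succ α) p) - g (R.r α p) := by
        by_contra hcon
        push Not at hcon
        exact hgy (R.SepR_same g h0 hcon)
      rw [← SepR_D_to R α g y, ← SepR_D_to R α g p] at hne
      obtain ⟨i, hi1, hi2⟩ := (S ⟨α, hα⟩).sep (SepR_D R α g) (SepR_to R (Order.succ α) y) hne
      refine ⟨Sum.inr ⟨⟨α, hα⟩, i⟩, hi1, ?_⟩
      change (1 / 2 : ℝ) • (S ⟨α, hα⟩).J i (SepR_D R α g) ≠ 0
      rw [smul_eq_mul]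
      exact mul_ne_zero (by norm_num) hi2
    · have hne : SepR_res R 0 g (SepR_to R 0 y) ≠ SepR_res R 0 g (SepR_to R 0 p) := h0
      obtain ⟨i, hi1, hi2⟩ := S0.sep (SepR_res R 0 g) (SepR_to R 0 y) hne
      exact ⟨Sum.inl i, hi1, hi2⟩

end Pool.Agent.helper26.CR
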