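import Pool.Agent.helper26.CR.Defs2

/-!
# CR-StarC: the C¹ case

PART 1 `exists_c1_of_fun'`: this is `hasC1_of_fun` of Pool/Agent/helper26/CK/Gauge.lean with `1/2` replaced by `θ` and
with the norm `N` of its proof returned (there: `HasC1 Y`).  COPY that proof: in it `N` is defined, `P y < N y` for
`y ≠ 0` (`NP`), `N y ≤ 2 * P y` (`le2`, now `N y ≤ θ⁻¹ * P y`), `eN : EqNorm Y N`, and the C¹ part.
(helper68 is writing the same lemma as `exists_c1_of_fun` in StepC.lean; if the store file CR_StepC.lean exists, use his.)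

PART 2 `starProp_C1S`.  Model: Pool/Agent/helper26/CK/GSys.lean (same terms, with ν (T.e i y) replaced by (1 - a) * N and
ν (T.t i y) by S i y); its lemmas loc_fin, summable, convexOn_term, contDiffAt_term, hasC1 can be copied.
`dl n = (1/2)^n`, `sp s = (max s 0)^2`.  Put θ = 1/(1+δ), κ0 = min δ (1/8) > 0, and for p = (n,i), c = cls i:
  k p = κ0 * τ c * (1/2)^(c+n+1)   (so k p ≤ κ0 ≤ 1/8, k p ≤ τ c / 16, k p ≤ (1/2)^(c+n)),   a p = k p * dl n ^ 2 (≤ 1/8).
For p choose a C1S seminorm N_p with R i ≤ N_p ≤ (1 + a p) R i; then (1 - a p) N_p ≤ R i ≤ P.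
Terms φ_p(y) = sp ( ((1 - a p) * N_p y + k p * sp (S i y - dl n) - 1) / (k p * dl n ^ 2) ),   F = ∑' p, φ_p.
* convex, even, ≥ 0.  C¹ at every y with P y < 1: y ↦ sp (S i y - dl n) is C¹ (S i is C¹ where S i ≠ 0, and near the points with
  S i y < dl n it is 0; model `cd_sp` in TSys.lean; continuity of seminorms ≤ M * P: `SN.continuous`); N_p is C¹ at y if N_p y ≠ 0; if
  N_p y = 0 then near y N_p < 1/2 and k p * sp(..) ≤ 1/8 (S i ≤ P < 1), the argument is negative and the term is 0 near y.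
* zero if P y ≤ θ: R i y + k p * (P y)^2 ≤ θ + κ0 θ ≤ θ (1+δ) = 1.
* locally finite at y0, P y0 < 1: a = (1 - P y0)/2, (1/2)^n0 < a; near y0: P y < 1 - a, P (y - y0) < dl n0 / 2, P (y - y0) < τ c / 2 for
  c < n0.  c + n ≥ n0: zero as k p * sp ≤ k p ≤ (1/2)^n0 < a.  Otherwise c < n0, n < n0; off the finite set
  ⋃_{c<n0} {i | cls i = c, (1 - τ c) P y0 ≤ R i y0, dl n0 / 2 ≤ S i y0}: either S i y0 < dl n0 / 2, S i y < dl n0 ≤ dl n: sp = 0, zero;
  or R i y0 < (1 - τ c) P y0 ≤ 1 - τ c, R i y < 1 - τ c / 2, k p * sp ≤ τ c / 16: zero.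
* hbig: y ≠ 0; i with P y ≤ R i y ≤ N_p y, b = S i y / P y > 0; n with 3 * dl n < b.  At r = s / P y, s → 1⁻, the argument is
  ≥ ((1 - a p) s + k p * sp (s b - dl n) - 1)/(k p * dl n ^ 2) → (sp (b - dl n) - dl n ^ 2)/dl n ^ 2 ≥ 3.
Then `exists_c1_of_fun' P F θ` gives N.
-/

set_option autoImplicit false

open Set Topology Filter

namespace Pool.Agent.helper26.CR

open Pool.Agent.helper26.CK

theorem exists_c1_of_fun' {Y : Type*} [NormedAddCommGroup Y] [NormedSpace ℝ Y] (P F : Y → ℝ) (θ : ℝ)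
    (hθ0 : 0 < θ) (hθ1 : θ < 1)
    (hP : EqNorm Y P) (hconv : ConvexOn ℝ {y | P y < 1} F) (heven : ∀ y, F (-y) = F y)
    (hzero : ∀ y, P y ≤ θ → F y = 0) (hC1 : ContDiffOn ℝ 1 F {y | P y < 1})
    (hbig : ∀ y, y ≠ 0 → ∃ r : ℝ, 0 < r ∧ P (r • y) < 1 ∧ 1 < F (r • y)) :
    ∃ N : Y → ℝ, EqNorm Y N ∧ ContDiffOn ℝ 1 N {y | y ≠ 0} ∧
      ∀ y, P y ≤ N y ∧ N y ≤ θ⁻¹ * P y := by
  classical
  have hΩ : IsOpen {y | P y < 1} := isOpen_lt hP.continuous continuous_const
  have hF0 : F 0 = 0 := hzero 0 (by rw [hP.map_zero]; exact hθ0.le)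
  have h0Ω : (0 : Y) ∈ {y | P y < 1} := by
    show P 0 < 1
    rw [hP.map_zero]; norm_num
  -- convexity along rays
  have ray : ∀ (y : Y) (a : ℝ), P y < 1 → 0 ≤ a → a ≤ 1 → F (a • y) ≤ a * F y := by
    intro y a hy ha0 ha1
    have := hconv.2 hy h0Ω ha0 (sub_nonneg.2 ha1) (by ring)
    simpa [hF0] using this
  -- uniqueness along rays
  have mono : ∀ (y : Y) (σ τ : ℝ), 0 < σ → P y < σ → σ < τ → F (σ⁻¹ • y) ≤ 1 →
      F (τ⁻¹ • y) < 1 := by
    intro y σ τ hσ hPy hστ hF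
    have hτ : 0 < τ := hσ.trans hστ
    have h1 : P (σ⁻¹ • y) < 1 := by
      rw [hP.smul, abs_of_pos (inv_pos.2 hσ), inv_mul_lt_iff₀ hσ, mul_one]
      exact hPy
    have h2 := ray (σ⁻¹ • y) (σ / τ) h1 (by positivity) ((div_le_one hτ).2 hστ.le)
    have h3 : (σ / τ) • σ⁻¹ • y = τ⁻¹ • y := by
      rw [smul_smul]; congr 1; field_simp
    rw [h3] at h2
    calc F (τ⁻¹ • y) ≤ σ / τ * F (σ⁻¹ • y) := h2
      _ ≤ σ / τ * 1 := mul_le_mul_of_nonneg_left hF (by positivity)
      _ < 1 := by rw [mul_one]; exact (div_lt_one hτ).2 hστ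
  have ex : ∀ y : Y, y ≠ 0 → ∃ ρ : ℝ, P y < ρ ∧ F (ρ⁻¹ • y) = 1 := by
    intro y hy
    obtain ⟨r, hr0, hr1, hr2⟩ := hbig y hy
    have hcont : ContinuousOn (fun s : ℝ => F (s • y)) (Icc 0 r) := by
      refine hC1.continuousOn.comp (by fun_prop) ?_
      intro s hs
      show P (s • y) < 1
      rw [hP.smul, abs_of_nonneg hs.1]
      rw [hP.smul, abs_of_pos hr0] at hr1
      exact lt_of_le_of_lt (mul_le_mul_of_nonneg_right hs.2 (hP.nonneg y)) hr1
    have h1 : (1 : ℝ) ∈ Icc (F ((0:ℝ) • y)) (F (r • y)) := by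
      rw [zero_smul, hF0]
      exact ⟨zero_le_one, hr2.le⟩
    obtain ⟨s, hs, hs1⟩ := intermediate_value_Icc hr0.le hcont h1
    have hs0 : 0 < s := by
      rcases lt_or_eq_of_le hs.1 with h | h
      · exact h
      · exfalso
        simp only [← h, zero_smul, hF0] at hs1
        norm_num at hs1
    refine ⟨s⁻¹, ?_, by rw [inv_inv]; exact hs1⟩
    rw [hP.smul, abs_of_pos hr0] at hr1
    have h2 : s * P y < 1 := lt_of_le_of_lt (mul_le_mul_of_nonneg_right hs.2 (hP.nonneg y)) hr1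
    rw [← one_div, lt_div_iff₀ hs0, mul_comm]
    exact h2
  choose! ρ hρ1 hρ2 using ex
  obtain ⟨N, hN⟩ : ∃ N : Y → ℝ, N = fun y => if y = 0 then 0 else ρ y := ⟨_, rfl⟩
  have N0 : N 0 = 0 := by rw [hN]; simp
  have Nne : ∀ y, y ≠ 0 → N y = ρ y := fun y hy => by rw [hN]; simp [hy]
  have NP : ∀ y, y ≠ 0 → P y < N y := fun y hy => by rw [Nne y hy]; exact hρ1 y hy
  have NF : ∀ y, y ≠ 0 → F ((N y)⁻¹ • y) = 1 := fun y hy => by rw [Nne y hy]; exact hρ2 y hy
  have Npos : ∀ y, y ≠ 0 → 0 < N y := fun y hy => (hP.pos hy).trans (NP y hy)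
  have star : ∀ y σ, y ≠ 0 → P y < σ → F (σ⁻¹ • y) ≤ 1 → N y ≤ σ := by
    intro y σ hy hPσ hFσ
    by_contra hlt
    push Not at hlt
    have := mono y σ (N y) ((hP.pos hy).trans hPσ) hPσ hlt hFσ
    rw [NF y hy] at this
    exact lt_irrefl _ this
  have uniq : ∀ y σ, y ≠ 0 → P y < σ → F (σ⁻¹ • y) = 1 → N y = σ := by
    intro y σ hy hPσ hFσ
    refine le_antisymm (star y σ hy hPσ hFσ.le) ?_
    by_contra hlt
    push Not at hlt
    have := mono y (N y) σ (Npos y hy) (NP y hy) hlt (NF y hy).le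
    rw [hFσ] at this
    exact lt_irrefl _ this
  have le2 : ∀ y, y ≠ 0 → N y ≤ θ⁻¹ * P y := by
    intro y hy
    by_contra hlt
    push Not at hlt
    have h1 : P ((N y)⁻¹ • y) ≤ θ := by
      rw [hP.smul, abs_of_pos (inv_pos.2 (Npos y hy)), inv_mul_le_iff₀ (Npos y hy)]
      rw [inv_mul_lt_iff₀ hθ0] at hlt
      linarith
    have h2 := hzero _ h1
    rw [NF y hy] at h2
    norm_num at h2
  have NΩ : ∀ y, y ≠ 0 → P ((N y)⁻¹ • y) < 1 := by
    intro y hy
    rw [hP.smul, abs_of_pos (inv_pos.2 (Npos y hy)), inv_mul_lt_iff₀ (Npos y hy), mul_one]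
    exact NP y hy
  have Nnn : ∀ y, 0 ≤ N y := by
    intro y
    by_cases hy : y = 0
    · rw [hy, N0]
    · exact (Npos y hy).le
  have eN : EqNorm Y N := by
    refine ⟨fun y z => ?_, fun a y => ?_, fun y hy => ?_, ?_⟩
    · by_cases hy : y = 0
      · rw [hy, N0, zero_add, zero_add]
      by_cases hz : z = 0
      · rw [hz, N0, add_zero, add_zero]
      by_cases hyz : y + z = 0
      · rw [hyz, N0]
        exact add_nonneg (Nnn y) (Nnn z)
      have hs : 0 < N y + N z := add_pos (Npos y hy) (Npos z hz)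
      refine star _ _ hyz ?_ ?_
      · exact (hP.add_le y z).trans_lt (add_lt_add (NP y hy) (NP z hz))
      · have hw1 : 0 ≤ N y / (N y + N z) := div_nonneg (Nnn y) hs.le
        have hw2 : 0 ≤ N z / (N y + N z) := div_nonneg (Nnn z) hs.le
        have h1 := hconv.2 (NΩ y hy) (NΩ z hz) hw1 hw2
          (by rw [← add_div]; exact div_self hs.ne')
        rw [NF y hy, NF z hz] at h1
        have hyn := (Npos y hy).ne'
        have hzn := (Npos z hz).ne'
        have h2 : (N y / (N y + N z)) • (N y)⁻¹ • y + (N z / (N y + N z)) • (N z)⁻¹ • z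
            = (N y + N z)⁻¹ • (y + z) := by
          rw [smul_smul, smul_smul, smul_add]
          congr 2 <;> field_simp
        rw [h2] at h1
        refine h1.trans (le_of_eq ?_)
        simp only [smul_eq_mul, mul_one]
        rw [← add_div]
        exact div_self hs.ne'
    · by_cases ha : a = 0
      · rw [ha, zero_smul, N0, abs_zero, zero_mul]
      by_cases hy : y = 0
      · rw [hy, smul_zero, N0, mul_zero]
      have ha' : 0 < |a| := abs_pos.2 ha
      have hay : a • y ≠ 0 := smul_ne_zero ha hy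
      refine uniq _ _ hay ?_ ?_
      · rw [hP.smul]
        exact mul_lt_mul_of_pos_left (NP y hy) ha'
      · rw [mul_inv, smul_smul]
        rcases lt_or_gt_of_ne ha with h | h
        · rw [abs_of_neg h]
          have : ((-a)⁻¹ * (N y)⁻¹ * a) • y = -((N y)⁻¹ • y) := by
            rw [← neg_smul]; congr 1
            have hyn := (Npos y hy).ne'
            field_simp
          rw [this, heven]
          exact NF y hy
        · rw [abs_of_pos h]
          have : (a⁻¹ * (N y)⁻¹ * a) • y = (N y)⁻¹ • y := by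
            congr 1
            have hyn := (Npos y hy).ne'
            field_simp
          rw [this]
          exact NF y hy
    · by_contra hne
      exact (Npos y hne).ne' hy
    · obtain ⟨c, C, hc, hC, hcC⟩ := hP.equiv
      refine ⟨c, θ⁻¹ * C, hc, by positivity, fun y => ?_⟩
      by_cases hy : y = 0
      · rw [hy, N0]; simp
      · refine ⟨(hcC y).1.trans (NP y hy).le, (le2 y hy).trans ?_⟩
        have := (hcC y).2
        rw [mul_assoc]
        exact mul_le_mul_of_nonneg_left this (inv_pos.2 hθ0).le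
  refine ⟨N, eN, ?_, fun y => ?_⟩
  swap
  · by_cases hy : y = 0
    · rw [hy, N0, hP.map_zero]; simp
    · exact ⟨(NP y hy).le, le2 y hy⟩
  have hOpen : IsOpen {f : Y | f ≠ 0} := isOpen_ne
  have Ncont := eN.continuous
  obtain ⟨C, hC, hLip⟩ := Gauge_lip eN
  -- the derivative in the radial direction
  have rad : ∀ y, y ≠ 0 → 1 ≤ fderiv ℝ F ((N y)⁻¹ • y) ((N y)⁻¹ • y) := by
    intro y hy
    obtain ⟨x0, hx0⟩ : ∃ x0 : Y, x0 = (N y)⁻¹ • y := ⟨_, rfl⟩
    rw [← hx0]
    have hx0Ω : P x0 < 1 := by rw [hx0]; exact NΩ y hy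
    have hd : HasFDerivAt F (fderiv ℝ F x0) x0 :=
      ((hC1.differentiableOn one_ne_zero).differentiableAt (hΩ.mem_nhds hx0Ω)).hasFDerivAt
    have hd1 : HasDerivAt (fun s : ℝ => F (s • x0)) (fderiv ℝ F x0 x0) 1 := by
      have h1 : HasDerivAt (fun s : ℝ => s • x0) x0 1 := by
        simpa using (hasDerivAt_id (1:ℝ)).smul_const x0
      have h2 : HasFDerivAt F (fderiv ℝ F x0) ((1:ℝ) • x0) := by rw [one_smul]; exact hd
      exact h2.comp_hasDerivAt 1 h1
    have hcv : ConvexOn ℝ (Icc (0:ℝ) 1) (fun s : ℝ => F (s • x0)) := by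
      refine ⟨convex_Icc _ _, fun s hs t ht a b ha hb hab => ?_⟩
      have hsΩ : ∀ s ∈ Icc (0:ℝ) 1, P (s • x0) < 1 := by
        intro s hs
        rw [hP.smul, abs_of_nonneg hs.1]
        exact lt_of_le_of_lt (mul_le_of_le_one_left (hP.nonneg x0) hs.2) hx0Ω
      have := hconv.2 (hsΩ s hs) (hsΩ t ht) ha hb hab
      simp only [smul_eq_mul] at this ⊢
      convert this using 2
      rw [add_smul, smul_smul, smul_smul]
    have := hcv.slope_le_of_hasDerivAt (x := 0) (y := 1) ⟨le_rfl, zero_le_one⟩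
      ⟨zero_le_one, le_rfl⟩ zero_lt_one hd1
    rw [slope_def_field] at this
    simp only [one_smul, zero_smul, hF0, sub_zero, div_one] at this
    rwa [hx0, NF y hy, ← hx0] at this
  have key : ∀ y, y ≠ 0 → HasFDerivAt N
      ((fderiv ℝ F ((N y)⁻¹ • y) ((N y)⁻¹ • y))⁻¹ • fderiv ℝ F ((N y)⁻¹ • y)) y := by
    intro y0 hy0
    obtain ⟨x0, hx0⟩ : ∃ x0 : Y, x0 = (N y0)⁻¹ • y0 := ⟨_, rfl⟩
    rw [← hx0]
    have hx0Ω : P x0 < 1 := by rw [hx0]; exact NΩ y0 hy0
    have hd : HasFDerivAt F (fderiv ℝ F x0) x0 :=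
      ((hC1.differentiableOn one_ne_zero).differentiableAt (hΩ.mem_nhds hx0Ω)).hasFDerivAt
    have hrad : 1 ≤ fderiv ℝ F x0 x0 := by rw [hx0]; exact rad y0 hy0
    have hFx0 : F x0 = 1 := by rw [hx0]; exact NF y0 hy0
    obtain ⟨F', hF'⟩ : ∃ F' : Y →L[ℝ] ℝ, F' = fderiv ℝ F x0 := ⟨_, rfl⟩
    rw [← hF'] at hd hrad ⊢
    have hN0 := Npos y0 hy0
    have hy0x : y0 = N y0 • x0 := by
      rw [hx0, smul_smul, mul_inv_cancel₀ hN0.ne', one_smul]
    -- the map `x(y)`
    have htend : Tendsto (fun y => (N y)⁻¹ • y) (𝓝 y0) (𝓝 x0) := by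
      rw [hx0]
      exact ((Ncont.tendsto y0).inv₀ hN0.ne').smul tendsto_id
    have hident : ∀ y, y ≠ 0 → N y • ((N y)⁻¹ • y - x0) = (y - y0) - (N y - N y0) • x0 := by
      intro y hy
      rw [smul_sub, smul_smul, mul_inv_cancel₀ (Npos y hy).ne', one_smul, sub_smul, ← hy0x]
      abel
    have hne : ∀ᶠ y in 𝓝 y0, y ≠ 0 := hOpen.mem_nhds hy0
    have hhalf : ∀ᶠ y in 𝓝 y0, N y0 / 2 < N y :=
      (Ncont.tendsto y0).eventually (lt_mem_nhds (by linarith))
    have hNtop : ∀ᶠ y in 𝓝 y0, N y < N y0 + 1 :=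
      (Ncont.tendsto y0).eventually (gt_mem_nhds (by linarith))
    have hO : (fun y => (N y)⁻¹ • y - x0) =O[𝓝 y0] fun y => y - y0 := by
      refine Asymptotics.IsBigO.of_bound ((N y0 / 2)⁻¹ * (1 + C * ‖x0‖)) ?_
      filter_upwards [hne, hhalf] with y hy hyh
      have hNy := Npos y hy
      have h1 : (N y)⁻¹ • y - x0 = (N y)⁻¹ • ((y - y0) - (N y - N y0) • x0) := by
        rw [← hident y hy, smul_smul, inv_mul_cancel₀ hNy.ne', one_smul]
      have h2 : ‖(y - y0) - (N y - N y0) • x0‖ ≤ (1 + C * ‖x0‖) * ‖y - y0‖ := by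
        calc ‖(y - y0) - (N y - N y0) • x0‖ ≤ ‖y - y0‖ + ‖(N y - N y0) • x0‖ := norm_sub_le _ _
          _ = ‖y - y0‖ + |N y - N y0| * ‖x0‖ := by rw [norm_smul, Real.norm_eq_abs]
          _ ≤ ‖y - y0‖ + C * ‖y - y0‖ * ‖x0‖ := by
            gcongr
            exact hLip y y0
          _ = (1 + C * ‖x0‖) * ‖y - y0‖ := by ring
      rw [h1, norm_smul, norm_inv, Real.norm_eq_abs, abs_of_pos hNy, mul_assoc]
      have h3 : (N y)⁻¹ ≤ (N y0 / 2)⁻¹ := inv_anti₀ (by linarith) hyh.le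
      exact mul_le_mul h3 h2 (norm_nonneg _) (by positivity)
    have ho1 : (fun y => F ((N y)⁻¹ • y) - F x0 - F' ((N y)⁻¹ • y - x0)) =o[𝓝 y0]
        fun y => (N y)⁻¹ • y - x0 :=
      (hasFDerivAt_iff_isLittleO.1 hd).comp_tendsto htend
    have ho2 : (fun y => F' ((N y)⁻¹ • y - x0)) =o[𝓝 y0] fun y => y - y0 := by
      refine ((ho1.trans_isBigO hO).neg_left).congr' ?_ EventuallyEq.rfl
      filter_upwards [hne] with y hy
      rw [NF y hy, hFx0]
      ring
    have ho3 : (fun y => N y • F' ((N y)⁻¹ • y - x0)) =o[𝓝 y0] fun y => y - y0 := by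
      have hb : (fun y => N y) =O[𝓝 y0] fun _ => (1 : ℝ) := by
        refine Asymptotics.IsBigO.of_bound (N y0 + 1) ?_
        filter_upwards [hNtop] with y hy
        rw [Real.norm_eq_abs, abs_of_nonneg (Nnn y), norm_one, mul_one]
        exact hy.le
      simpa using hb.smul_isLittleO ho2
    rw [hasFDerivAt_iff_isLittleO]
    refine ((ho3.const_smul_left (-(F' x0)⁻¹))).congr' ?_ EventuallyEq.rfl
    filter_upwards [hne] with y hy
    have h4 : N y • F' ((N y)⁻¹ • y - x0) = F' (y - y0) - (N y - N y0) * F' x0 := by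
      rw [← map_smul, hident y hy, map_sub, map_smul, smul_eq_mul]
    have h5 : F' x0 ≠ 0 := by
      have : (0:ℝ) < F' x0 := by linarith
      exact this.ne'
    simp only [Pi.smul_apply, smul_apply]
    rw [h4]
    simp only [smul_eq_mul]
    field_simp
    ring
  have h1 : ContDiffOn ℝ (0 + 1) N {f : Y | f ≠ 0} := by
    rw [contDiffOn_succ_iff_fderiv_of_isOpen hOpen]
    refine ⟨fun y hy => (key y hy).differentiableAt.differentiableWithinAt, by simp, ?_⟩
    rw [contDiffOn_zero]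
    have hx : ContinuousOn (fun y : Y => (N y)⁻¹ • y) {f : Y | f ≠ 0} := by
      refine ContinuousOn.smul (Ncont.continuousOn.inv₀ fun y hy => (Npos y hy).ne')
        continuousOn_id
    have hF' : ContinuousOn (fun y : Y => fderiv ℝ F ((N y)⁻¹ • y)) {f : Y | f ≠ 0} :=
      (hC1.continuousOn_fderiv_of_isOpen hΩ le_rfl).comp hx fun y hy => NΩ y hy
    refine ContinuousOn.congr (((hF'.clm_apply hx).inv₀ fun y hy => ?_).smul hF')
      fun y hy => (key y hy).fderiv
    have := rad y hy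
    exact (lt_of_lt_of_le one_pos this).ne'
  simpa using h1


/-- the data of `StarProp`, with approximations `N` of the `R i` -/
structure StarC_Sys (E : Type) [NormedAddCommGroup E] [NormedSpace ℝ E] (I : Type*) (P : E → ℝ) where
  /-- classes -/
  cls : I → ℕ
  /-- thresholds -/
  τ : ℕ → ℝ
  /-- large seminorms -/
  R : I → E → ℝ
  /-- small seminorms -/
  S : I → E → ℝ
  /-- the factor -/
  κ : ℝ
  /-- approximations -/
  N : ℕ × I → E → ℝ
  κ_pos : 0 < κ
  κ_le : κ ≤ 1 / 8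
  τ_pos : ∀ c, 0 < τ c
  τ_le : ∀ c, τ c ≤ 1
  hR : ∀ i, SN E (R i)
  R_le : ∀ i y, R i y ≤ P y
  hS : ∀ i, SN E (S i)
  S_C1 : ∀ i, C1S E (S i)
  S_le : ∀ i y, S i y ≤ P y
  hN : ∀ p, SN E (N p)
  N_C1 : ∀ p, C1S E (N p)
  N_ge : ∀ p y, R p.2 y ≤ N p y
  N_le : ∀ p y, N p y ≤ (1 + κ * τ (cls p.2) * (1 / 2) ^ (cls p.2 + p.1 + 1) * dl p.1 ^ 2) * R p.2 y
  fin : ∀ (c : ℕ) (y : E) (ε : ℝ), 0 < ε →
    {i | cls i = c ∧ (1 - τ c) * P y ≤ R i y ∧ ε ≤ S i y}.Finite
  catch_ : ∀ y, y ≠ 0 → ∃ i, P y ≤ R i y ∧ S i y ≠ 0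

namespace StarC_Sys

variable {E : Type} [NormedAddCommGroup E] [NormedSpace ℝ E] {I : Type*} {P : E → ℝ}

/-- the weights -/
noncomputable def kp (T : StarC_Sys E I P) (p : ℕ × I) : ℝ :=
  T.κ * T.τ (T.cls p.2) * (1 / 2) ^ (T.cls p.2 + p.1 + 1)

/-- the argument of one term -/
noncomputable def arg (T : StarC_Sys E I P) (p : ℕ × I) (y : E) : ℝ :=
  ((1 - T.kp p * dl p.1 ^ 2) * T.N p y + T.kp p * sp (T.S p.2 y - dl p.1) - 1) /
    (T.kp p * dl p.1 ^ 2)

/-- one term -/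
noncomputable def term (T : StarC_Sys E I P) (p : ℕ × I) (y : E) : ℝ := sp (T.arg p y)

/-- the function -/
noncomputable def F (T : StarC_Sys E I P) (y : E) : ℝ := ∑' p, T.term p y

variable (T : StarC_Sys E I P)

theorem kp_pos (p : ℕ × I) : 0 < T.kp p := by
  have := T.τ_pos (T.cls p.2)
  have := T.κ_pos
  unfold kp; positivity

theorem dl_le (n : ℕ) : dl n ≤ 1 := by
  unfold dl
  exact pow_le_one₀ (by norm_num) (by norm_num)

theorem half_le (m : ℕ) : ((1 : ℝ) / 2) ^ (m + 1) ≤ 1 / 2 := by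
  calc ((1 : ℝ) / 2) ^ (m + 1) ≤ (1 / 2) ^ 1 :=
        pow_le_pow_of_le_one (by norm_num) (by norm_num) (by omega)
    _ = 1 / 2 := by norm_num

theorem kp_le_kappa (p : ℕ × I) : T.kp p ≤ T.κ := by
  unfold kp
  have h1 := T.τ_le (T.cls p.2)
  have h3 := T.τ_pos (T.cls p.2)
  have h4 := T.κ_pos
  have h2 := half_le (T.cls p.2 + p.1)
  calc T.κ * T.τ (T.cls p.2) * (1 / 2) ^ (T.cls p.2 + p.1 + 1) ≤ T.κ * 1 * (1 / 2) := by gcongr
    _ ≤ T.κ := by linarith

theorem kp_le (p : ℕ × I) : T.kp p ≤ 1 / 8 := (T.kp_le_kappa p).trans T.κ_le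

theorem kp_le_tau (p : ℕ × I) : T.kp p ≤ T.τ (T.cls p.2) / 16 := by
  unfold kp
  have h3 := T.τ_pos (T.cls p.2)
  have h4 := T.κ_pos
  have h5 := T.κ_le
  have h2 := half_le (T.cls p.2 + p.1)
  calc T.κ * T.τ (T.cls p.2) * (1 / 2) ^ (T.cls p.2 + p.1 + 1)
      ≤ 1 / 8 * T.τ (T.cls p.2) * (1 / 2) := by gcongr
    _ = T.τ (T.cls p.2) / 16 := by ring

theorem kp_small {n0 : ℕ} (p : ℕ × I) (h : n0 ≤ T.cls p.2 + p.1) : T.kp p ≤ (1 / 2) ^ n0 := by
  unfold kp
  have h1 := T.τ_le (T.cls p.2)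
  have h3 := T.τ_pos (T.cls p.2)
  have h4 := T.κ_pos
  have h5 := T.κ_le
  have h2 : ((1 : ℝ) / 2) ^ (T.cls p.2 + p.1 + 1) ≤ (1 / 2) ^ n0 :=
    pow_le_pow_of_le_one (by norm_num) (by norm_num) (by omega)
  have h6 : (0 : ℝ) < (1 / 2) ^ n0 := by positivity
  calc T.κ * T.τ (T.cls p.2) * (1 / 2) ^ (T.cls p.2 + p.1 + 1) ≤ 1 / 8 * 1 * (1 / 2) ^ n0 := by
        gcongr
    _ ≤ (1 / 2) ^ n0 := by linarith

theorem ap_pos (p : ℕ × I) : 0 < T.kp p * dl p.1 ^ 2 := by
  have := T.kp_pos p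
  have := dl_pos p.1
  positivity

theorem ap_le (p : ℕ × I) : T.kp p * dl p.1 ^ 2 ≤ 1 / 8 := by
  have h1 := T.kp_pos p
  have h2 := T.kp_le p
  have h3 := dl_pos p.1
  have h4 := dl_le p.1
  have h5 : dl p.1 ^ 2 ≤ 1 := pow_le_one₀ h3.le h4
  nlinarith

theorem N_le' (p : ℕ × I) (y : E) : (1 - T.kp p * dl p.1 ^ 2) * T.N p y ≤ T.R p.2 y := by
  have h1 := T.N_le p y
  have h2 := (T.hR p.2).nonneg y
  have h3 := T.ap_pos p
  have h4 := T.ap_le p
  have h5 : T.N p y ≤ (1 + T.kp p * dl p.1 ^ 2) * T.R p.2 y := h1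
  generalize T.kp p * dl p.1 ^ 2 = a at *
  calc (1 - a) * T.N p y ≤ (1 - a) * ((1 + a) * T.R p.2 y) :=
        mul_le_mul_of_nonneg_left h5 (by linarith)
    _ = T.R p.2 y - a ^ 2 * T.R p.2 y := by ring
    _ ≤ T.R p.2 y := by
        have : 0 ≤ a ^ 2 * T.R p.2 y := by positivity
        linarith

theorem term_nonneg (p : ℕ × I) (y : E) : 0 ≤ T.term p y := sp_nonneg _

theorem term_zero_of' {p : ℕ × I} {y : E}
    (h : (1 - T.kp p * dl p.1 ^ 2) * T.N p y + T.kp p * sp (T.S p.2 y - dl p.1) ≤ 1) :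
    T.term p y = 0 := by
  apply sp_zero_of
  apply div_nonpos_of_nonpos_of_nonneg
  · linarith
  · exact (T.ap_pos p).le

theorem term_zero_of {p : ℕ × I} {y : E}
    (h : T.R p.2 y + T.kp p * sp (T.S p.2 y - dl p.1) ≤ 1) : T.term p y = 0 := by
  apply T.term_zero_of'
  have := T.N_le' p y
  linarith

theorem sp_le (p : ℕ × I) (y : E) (hy : P y ≤ 1) :
    sp (T.S p.2 y - dl p.1) ≤ 1 := by
  have h1 := T.S_le p.2 y
  have h2 := dl_pos p.1
  calc sp (T.S p.2 y - dl p.1) ≤ sp 1 := monotone_sp (by linarith)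
    _ = 1 := by rw [sp_of_nonneg (by norm_num)]; norm_num

theorem add_le' {N : E → ℝ} (h : SN E N) (y y0 : E) : N y ≤ N y0 + N (y - y0) := by
  have := h.add_le y0 (y - y0)
  rwa [add_sub_cancel] at this

/-- local finiteness -/
theorem loc_fin (hP : EqNorm E P) {y0 : E} (hy0 : P y0 < 1) :
    ∃ A : Finset (ℕ × I), ∀ᶠ y in 𝓝 y0, ∀ p, p ∉ A → T.term p y = 0 := by
  classical
  set a := (1 - P y0) / 2 with ha
  have ha0 : 0 < a := by rw [ha]; linarith
  obtain ⟨n0, hn0⟩ := exists_pow_lt_of_lt_one ha0 (by norm_num : (1 / 2 : ℝ) < 1)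
  have hfin : (⋃ c ∈ Finset.range n0, {i | T.cls i = c ∧ (1 - T.τ c) * P y0 ≤ T.R i y0 ∧
      dl n0 / 2 ≤ T.S i y0}).Finite :=
    (Finset.range n0).finite_toSet.biUnion fun c _ => T.fin c y0 _ (half_pos (dl_pos n0))
  refine ⟨(Finset.range n0) ×ˢ hfin.toFinset, ?_⟩
  have e1 : ∀ᶠ y in 𝓝 y0, P y < 1 - a := by
    have : Tendsto P (𝓝 y0) (𝓝 (P y0)) := hP.continuous.continuousAt
    exact this.eventually_lt_const (by rw [ha]; linarith)
  have hsmall : ∀ r : ℝ, 0 < r → ∀ᶠ y in 𝓝 y0, P (y - y0) < r := by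
    intro r hr
    have : Tendsto (fun y => P (y - y0)) (𝓝 y0) (𝓝 (P (y0 - y0))) :=
      (hP.continuous.comp (continuous_id.sub continuous_const)).continuousAt
    refine this.eventually_lt_const ?_
    rw [sub_self, hP.map_zero]
    exact hr
  have e2 := hsmall (dl n0 / 2) (half_pos (dl_pos n0))
  have e3 : ∀ᶠ y in 𝓝 y0, ∀ c ∈ Finset.range n0, P (y - y0) < T.τ c / 2 := by
    rw [Finset.eventually_all]
    intro c _
    exact hsmall _ (half_pos (T.τ_pos c))
  filter_upwards [e1, e2, e3] with y hy1 hy2 hy3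
  rintro ⟨n, i⟩ hp
  apply T.term_zero_of
  have hpos := T.kp_pos (n, i)
  have hsp := T.sp_le (n, i) y (by linarith)
  have hsp0 := sp_nonneg (T.S i y - dl n)
  have hRle := T.R_le i y
  by_cases hn : n0 ≤ T.cls i + n
  · have h1 := T.kp_small (n, i) (n0 := n0) hn
    simp only at hsp h1 ⊢
    nlinarith
  · have hc : T.cls i < n0 := by omega
    have hn' : n < n0 := by omega
    have hi : i ∉ hfin.toFinset := fun h => hp (by
      rw [Finset.mem_product, Finset.mem_range]; exact ⟨hn', h⟩)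
    rw [Set.Finite.mem_toFinset] at hi
    have hi' : ¬ ((1 - T.τ (T.cls i)) * P y0 ≤ T.R i y0 ∧ dl n0 / 2 ≤ T.S i y0) := by
      intro h
      exact hi (mem_iUnion₂.2 ⟨T.cls i, Finset.mem_range.2 hc, rfl, h⟩)
    by_cases ht : dl n0 / 2 ≤ T.S i y0
    · have hen : T.R i y0 < (1 - T.τ (T.cls i)) * P y0 := by
        by_contra hcon
        exact hi' ⟨not_lt.1 hcon, ht⟩
      have h1 := add_le' (T.hR i) y y0
      have h2 := T.R_le i (y - y0)
      have h3 := hy3 (T.cls i) (Finset.mem_range.2 hc)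
      have h4 := T.kp_le_tau (n, i)
      have h5 := T.τ_le (T.cls i)
      have h5' := T.τ_pos (T.cls i)
      have h6 := hP.nonneg y0
      have h7 : (1 - T.τ (T.cls i)) * P y0 ≤ 1 - T.τ (T.cls i) := by nlinarith
      have h8 : T.kp (n, i) * sp (T.S i y - dl n) ≤ T.kp (n, i) := by
        simp only at hsp
        nlinarith
      simp only at h4 ⊢
      linarith
    · have h1 := add_le' (T.hS i) y y0
      have h2 := T.S_le i (y - y0)
      have h3 : dl n0 ≤ dl n := by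
        unfold dl
        exact pow_le_pow_of_le_one (by norm_num) (by norm_num) hn'.le
      have h4 : sp (T.S i y - dl n) = 0 := sp_zero_of (by linarith)
      simp only
      rw [h4]
      linarith

theorem summable (hP : EqNorm E P) {y : E} (hy : P y < 1) : Summable fun p => T.term p y := by
  obtain ⟨A, hA⟩ := T.loc_fin hP hy
  have h1 := hA.self_of_nhds
  exact summable_of_ne_finset_zero (s := A) fun p hp => h1 p hp

theorem convexOn_term (p : ℕ × I) : ConvexOn ℝ univ (T.term p) := by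
  have hsp : ∀ g : E → ℝ, ConvexOn ℝ univ g → ConvexOn ℝ univ fun y => sp (g y) := by
    intro g hg
    refine ⟨convex_univ, fun x hx y hy a b ha hb hab => ?_⟩
    calc sp (g (a • x + b • y)) ≤ sp (a • g x + b • g y) := monotone_sp (hg.2 hx hy ha hb hab)
      _ ≤ a • sp (g x) + b • sp (g y) := convexOn_sp.2 (mem_univ _) (mem_univ _) ha hb hab
  have h1 : ConvexOn ℝ univ fun y => (1 - T.kp p * dl p.1 ^ 2) * T.N p y :=
    (T.hN p).convexOn.smul (by have := T.ap_le p; linarith)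
  have h2 : ConvexOn ℝ univ fun y => T.S p.2 y := (T.hS p.2).convexOn
  have h3 : ConvexOn ℝ univ fun y => sp (T.S p.2 y - dl p.1) :=
    hsp _ (h2.sub (concaveOn_const _ convex_univ))
  have h4 : ConvexOn ℝ univ fun y =>
      (1 - T.kp p * dl p.1 ^ 2) * T.N p y + T.kp p * sp (T.S p.2 y - dl p.1) - 1 :=
    (h1.add (h3.smul (T.kp_pos p).le)).sub (concaveOn_const _ convex_univ)
  have h5 : ConvexOn ℝ univ (T.arg p) := by
    have := h4.smul (c := (T.kp p * dl p.1 ^ 2)⁻¹) (inv_pos.2 (T.ap_pos p)).le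
    refine this.congr ?_
    intro y _
    simp only [smul_eq_mul, arg]
    rw [div_eq_inv_mul]
  exact hsp _ h5

theorem cont_S (hP : EqNorm E P) (i : I) : Continuous (T.S i) :=
  (T.hS i).continuous hP (M := 1) fun x => by rw [one_mul]; exact T.S_le i x

theorem cont_N (hP : EqNorm E P) (p : ℕ × I) : Continuous (T.N p) :=
  (T.hN p).continuous hP (M := 1 + T.kp p * dl p.1 ^ 2) fun x => by
    have h1 := T.N_le p x
    have h2 := T.R_le p.2 x
    have h3 := T.ap_pos p
    exact h1.trans (mul_le_mul_of_nonneg_left h2 (by show 0 ≤ 1 + T.kp p * dl p.1 ^ 2; linarith))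

theorem cd_S (hP : EqNorm E P) (i : I) {δ : ℝ} (hδ : 0 < δ) :
    ContDiff ℝ 1 fun x => sp (T.S i x - δ) := by
  have hc := T.cont_S hP i
  rw [contDiff_iff_contDiffAt]
  intro x
  by_cases hx : T.S i x = 0
  · have h1 : ∀ᶠ z in 𝓝 x, T.S i z < δ := by
      have : Tendsto (T.S i) (𝓝 x) (𝓝 (T.S i x)) := hc.continuousAt
      refine this.eventually_lt_const ?_
      rw [hx]; exact hδ
    have h2 : (fun x => sp (T.S i x - δ)) =ᶠ[𝓝 x] fun _ => 0 := by
      filter_upwards [h1] with z hz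
      exact sp_zero_of (by linarith)
    exact contDiffAt_const.congr_of_eventuallyEq h2
  · have hop : IsOpen {y | T.S i y ≠ 0} := isOpen_ne_fun hc continuous_const
    have h1 : ContDiffAt ℝ 1 (T.S i) x := (T.S_C1 i x hx).contDiffAt (hop.mem_nhds hx)
    exact contDiff_sp.contDiffAt.comp x (h1.sub contDiffAt_const)

theorem contDiffAt_term (hP : EqNorm E P) (p : ℕ × I) {y : E} (hy : P y < 1) :
    ContDiffAt ℝ 1 (T.term p) y := by
  have h0 : ContDiff ℝ 1 fun y => sp (T.S p.2 y - dl p.1) := T.cd_S hP p.2 (dl_pos p.1)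
  have hc := T.cont_N hP p
  by_cases hx : T.N p y = 0
  · have e1 : ∀ᶠ z in 𝓝 y, T.N p z < 1 / 2 := by
      have : Tendsto (T.N p) (𝓝 y) (𝓝 (T.N p y)) := hc.continuousAt
      refine this.eventually_lt_const ?_
      rw [hx]; norm_num
    have e2 : ∀ᶠ z in 𝓝 y, P z < 1 := by
      have : Tendsto P (𝓝 y) (𝓝 (P y)) := hP.continuous.continuousAt
      exact this.eventually_lt_const hy
    have h2 : T.term p =ᶠ[𝓝 y] fun _ => 0 := by
      filter_upwards [e1, e2] with z hz1 hz2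
      apply T.term_zero_of'
      have h1 := T.sp_le p z hz2.le
      have h2 := T.kp_le p
      have h3 := T.kp_pos p
      have h4 := T.ap_pos p
      have h5 := T.ap_le p
      have h6 := (T.hN p).nonneg z
      have h7 : (1 - T.kp p * dl p.1 ^ 2) * T.N p z ≤ 1 * T.N p z :=
        mul_le_mul_of_nonneg_right (by linarith) h6
      have h8 : T.kp p * sp (T.S p.2 z - dl p.1) ≤ T.kp p * 1 :=
        mul_le_mul_of_nonneg_left h1 h3.le
      linarith
    exact contDiffAt_const.congr_of_eventuallyEq h2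
  · have hop : IsOpen {y | T.N p y ≠ 0} := isOpen_ne_fun hc continuous_const
    have h1 : ContDiffAt ℝ 1 (T.N p) y := (T.N_C1 p y hx).contDiffAt (hop.mem_nhds hx)
    have h2 : ContDiffAt ℝ 1 (T.arg p) y := by
      unfold arg
      exact (((contDiffAt_const.mul h1).add (contDiffAt_const.mul h0.contDiffAt)).sub
        contDiffAt_const).div_const _
    exact contDiff_sp.contDiffAt.comp y h2

include T in
theorem exN (hP : EqNorm E P) {δ : ℝ} (hδ : 0 < δ) (hκδ : T.κ ≤ δ) :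
    ∃ N : E → ℝ, EqNorm E N ∧ ContDiffOn ℝ 1 N {y | y ≠ 0} ∧
      ∀ y, P y ≤ N y ∧ N y ≤ ((1 + δ)⁻¹)⁻¹ * P y := by
  classical
  have hθ0 : (0 : ℝ) < (1 + δ)⁻¹ := by positivity
  have hθ1 : (1 + δ)⁻¹ < 1 := inv_lt_one_of_one_lt₀ (by linarith)
  refine exists_c1_of_fun' P T.F (1 + δ)⁻¹ hθ0 hθ1 hP ?_ ?_ ?_ ?_ ?_
  · refine ⟨?_, fun x hx y hy a b ha hb hab => ?_⟩
    · have := hP.convexOn.convex_lt 1
      simpa using this
    · have hxy : P (a • x + b • y) < 1 := by
        have := (hP.convexOn.convex_lt 1)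
        have h := this (x := x) ⟨mem_univ _, hx⟩ (y := y) ⟨mem_univ _, hy⟩ ha hb hab
        exact h.2
      have h1 := T.summable hP (y := x) hx
      have h2 := T.summable hP (y := y) hy
      have h3 := T.summable hP hxy
      calc T.F (a • x + b • y) = ∑' p, T.term p (a • x + b • y) := rfl
        _ ≤ ∑' p, (a * T.term p x + b * T.term p y) := by
            refine h3.tsum_le_tsum (fun p => ?_) ((h1.mul_left a).add (h2.mul_left b))
            exact (T.convexOn_term p).2 (mem_univ _) (mem_univ _) ha hb hab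
        _ = a * ∑' p, T.term p x + b * ∑' p, T.term p y := by
            rw [(h1.mul_left a).tsum_add (h2.mul_left b), tsum_mul_left, tsum_mul_left]
        _ = a • T.F x + b • T.F y := rfl
  · intro y
    unfold F
    congr 1
    ext p
    unfold term arg
    rw [(T.hN p).map_neg, (T.hS p.2).map_neg]
  · intro y hy
    unfold F
    have : ∀ p, T.term p y = 0 := by
      intro p
      apply T.term_zero_of
      have h1 := T.R_le p.2 y
      have h2 := T.S_le p.2 y
      have h0 := hP.nonneg y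
      have h3 : sp (T.S p.2 y - dl p.1) ≤ (1 + δ)⁻¹ := by
        have h2' := dl_pos p.1
        calc sp (T.S p.2 y - dl p.1) ≤ sp (P y) := monotone_sp (by linarith)
          _ = P y ^ 2 := sp_of_nonneg h0
          _ = P y * P y := by ring
          _ ≤ 1 * (1 + δ)⁻¹ := mul_le_mul (hy.trans hθ1.le) hy h0 zero_le_one
          _ = (1 + δ)⁻¹ := one_mul _
      have h4 := (T.kp_le_kappa p).trans hκδ
      have h5 := T.kp_pos p
      have h6 : T.kp p * sp (T.S p.2 y - dl p.1) ≤ δ * (1 + δ)⁻¹ :=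
        mul_le_mul h4 h3 (sp_nonneg _) hδ.le
      have h7 : (1 + δ)⁻¹ + δ * (1 + δ)⁻¹ = 1 := by
        have : (1 + δ) ≠ 0 := by positivity
        field_simp
      linarith
    simp [this]
  · intro y hy
    obtain ⟨A, hA⟩ := T.loc_fin hP (y0 := y) hy
    have h1 : T.F =ᶠ[𝓝 y] fun z => ∑ p ∈ A, T.term p z := by
      filter_upwards [hA] with z hz
      exact tsum_eq_sum fun p hp => hz p hp
    have h2 : ContDiffAt ℝ 1 (fun z => ∑ p ∈ A, T.term p z) y :=
      ContDiffAt.sum fun p _ => T.contDiffAt_term hP p hy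
    exact (h2.congr_of_eventuallyEq h1).contDiffWithinAt
  · intro y hy
    obtain ⟨i, hi1, hi2⟩ := T.catch_ y hy
    have hPy : 0 < P y := hP.pos hy
    have hSi : 0 < T.S i y := lt_of_le_of_ne ((T.hS i).nonneg y) (Ne.symm hi2)
    have hb : 0 < T.S i y / P y := div_pos hSi hPy
    set b := T.S i y / P y with hbdef
    obtain ⟨n, hn⟩ := exists_pow_lt_of_lt_one (by positivity : 0 < b / 3)
      (by norm_num : (1 / 2 : ℝ) < 1)
    have hn' : 3 * dl n < b := by
      have : dl n < b / 3 := hn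
      linarith
    have hk := T.kp_pos (n, i)
    have hd := dl_pos n
    have ha1 : T.kp (n, i) * dl n ^ 2 ≤ 1 / 8 := T.ap_le (n, i)
    have ha0 : 0 < T.kp (n, i) * dl n ^ 2 := T.ap_pos (n, i)
    let g : ℝ → ℝ := fun l => ((1 - T.kp (n, i) * dl n ^ 2) * l +
      T.kp (n, i) * sp (l * b - dl n) - 1) / (T.kp (n, i) * dl n ^ 2)
    have hg : Continuous g := by
      have : Continuous sp := contDiff_sp.continuous
      fun_prop
    have hg1 : 1 < g 1 := by
      simp only [g]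
      rw [sp_of_nonneg (by linarith), lt_div_iff₀ (by positivity)]
      have : (2 * dl n) ^ 2 < (1 * b - dl n) ^ 2 := by
        apply pow_lt_pow_left₀ _ (by positivity) (by norm_num)
        linarith
      have h2 : T.kp (n, i) * (2 * dl n) ^ 2 < T.kp (n, i) * (1 * b - dl n) ^ 2 :=
        mul_lt_mul_of_pos_left this hk
      nlinarith
    have hev : ∀ᶠ l in 𝓝[<] (1 : ℝ), 1 < g l := by
      have : Tendsto g (𝓝[<] 1) (𝓝 (g 1)) := hg.continuousWithinAt
      exact this.eventually_const_lt hg1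
    have hev2 : ∀ᶠ l in 𝓝[<] (1 : ℝ), l ∈ Ioo (0 : ℝ) 1 :=
      Ioo_mem_nhdsLT (by norm_num)
    obtain ⟨l, hl1, hl2, hl3⟩ := (hev.and hev2).exists
    refine ⟨l / P y, div_pos hl2 hPy, ?_, ?_⟩
    · rw [hP.smul_nonneg (div_pos hl2 hPy).le, div_mul_cancel₀ _ hPy.ne']
      exact hl3
    · have hPl : P ((l / P y) • y) < 1 := by
        rw [hP.smul_nonneg (div_pos hl2 hPy).le, div_mul_cancel₀ _ hPy.ne']
        exact hl3
      have hNl : l ≤ T.N (n, i) ((l / P y) • y) := by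
        rw [(T.hN (n, i)).smul_nonneg (div_pos hl2 hPy).le]
        have h1 := T.N_ge (n, i) y
        calc l = l / P y * P y := (div_mul_cancel₀ _ hPy.ne').symm
          _ ≤ l / P y * T.N (n, i) y :=
            mul_le_mul_of_nonneg_left (hi1.trans h1) (div_pos hl2 hPy).le
      have hSl : T.S i ((l / P y) • y) = l * b := by
        rw [(T.hS i).smul_nonneg (div_pos hl2 hPy).le, hbdef]; ring
      have harg : g l ≤ T.arg (n, i) ((l / P y) • y) := by
        simp only [arg, g]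
        rw [hSl]
        apply div_le_div_of_nonneg_right _ ha0.le
        have : (1 - T.kp (n, i) * dl n ^ 2) * l ≤
            (1 - T.kp (n, i) * dl n ^ 2) * T.N (n, i) ((l / P y) • y) :=
          mul_le_mul_of_nonneg_left hNl (by linarith)
        linarith
      have hterm : 1 < T.term (n, i) ((l / P y) • y) := by
        unfold term
        rw [sp_of_nonneg (by linarith)]
        nlinarith
      have hle : T.term (n, i) ((l / P y) • y) ≤ T.F ((l / P y) • y) :=
        (T.summable hP hPl).le_tsum (n, i) fun p _ => T.term_nonneg p _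
      linarith

end StarC_Sys

theorem starProp_C1S : StarProp C1S := by
  intro E _ _ P hP I cls τ R S δ hδ hτ hR hN hS hfin hcatch
  have hκ : 0 < min δ (1 / 8) := lt_min hδ (by norm_num)
  have ha : ∀ p : ℕ × I, 0 < min δ (1 / 8) * τ (cls p.2) * (1 / 2) ^ (cls p.2 + p.1 + 1) *
      dl p.1 ^ 2 := by
    intro p
    have h1 := (hτ (cls p.2)).1
    have h2 := dl_pos p.1
    positivity
  choose N hN1 hN2 hN3 using fun p : ℕ × I => hN p.2 _ (ha p)
  let T : StarC_Sys E I P :=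
    { cls := cls
      τ := τ
      R := R
      S := S
      κ := min δ (1 / 8)
      N := N
      κ_pos := hκ
      κ_le := min_le_right _ _
      τ_pos := fun c => (hτ c).1
      τ_le := fun c => (hτ c).2
      hR := fun i => (hR i).1
      R_le := fun i => (hR i).2
      hS := fun i => (hS i).1
      S_C1 := fun i => (hS i).2.1
      S_le := fun i => (hS i).2.2
      hN := hN1
      N_C1 := hN2
      N_ge := fun p y => (hN3 p y).1
      N_le := fun p y => (hN3 p y).2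
      fin := hfin
      catch_ := hcatch }
  obtain ⟨M, hM1, hM2, hM3⟩ := T.exN hP hδ (min_le_left _ _)
  refine ⟨M, hM1, (C1S_iff hM1).2 hM2, fun y => ?_⟩
  have := hM3 y
  rwa [inv_inv] at this

end Pool.Agent.helper26.CR
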