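import Pool.Agent.helper26.CR.Defs2
import Pool.Agent.helper26.CK.TSysP

/-!
# CR-StarP: the polyhedral case
-/

set_option autoImplicit false

open Set Topology Filter

namespace Pool.Agent.helper26.CR

open Pool.Agent.helper26.CK

/-- the data of the construction -/
structure StarP_T (E : Type) [NormedAddCommGroup E] [NormedSpace ℝ E] (P : E → ℝ) (I : Type 1) where
  cls : I → ℕ
  τ : ℕ → ℝ
  κ : ℝ
  R : I → E → ℝ
  S : I → E → ℝ
  M : ℕ × I → E → ℝ
  κ_pos : 0 < κ
  κ_le : κ ≤ 1 / 8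
  τ_pos : ∀ c, 0 < τ c
  τ_le : ∀ c, τ c ≤ 1
  R_sn : ∀ i, SN E (R i)
  R_le : ∀ i y, R i y ≤ P y
  S_sn : ∀ i, SN E (S i)
  S_le : ∀ i y, S i y ≤ P y
  S_poly : ∀ i, PolyS E (S i)
  M_sn : ∀ p, SN E (M p)
  M_poly : ∀ p, PolyS E (M p)
  M_ge : ∀ p y, R p.2 y ≤ M p y
  M_le : ∀ p y, M p y ≤ (1 + κ * τ (cls p.2) * (1 / 2) ^ (cls p.2 + p.1 + 1) * (1 / 2) ^ p.1) * R p.2 y
  fin : ∀ c y (ε : ℝ), 0 < ε → {i | cls i = c ∧ (1 - τ c) * P y ≤ R i y ∧ ε ≤ S i y}.Finite
  catch_ : ∀ y, y ≠ 0 → ∃ i, P y ≤ R i y ∧ S i y ≠ 0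

namespace StarP_T

variable {E : Type} [NormedAddCommGroup E] [NormedSpace ℝ E] {P : E → ℝ} {I : Type 1} (T : StarP_T E P I)

/-- the weight -/
noncomputable def k (p : ℕ × I) : ℝ := T.κ * T.τ (T.cls p.2) * (1 / 2) ^ (T.cls p.2 + p.1 + 1)

/-- the error -/
noncomputable def a (p : ℕ × I) : ℝ := T.k p * (1 / 2) ^ p.1

/-- the terms -/
noncomputable def v (p : ℕ × I) (y : E) : ℝ := (1 - T.a p) * T.M p y + T.k p * T.S p.2 y

/-- the terms, with `P` -/
noncomputable def v' (T : StarP_T E P I) : Option (ℕ × I) → E → ℝ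
  | none => P
  | some p => T.v p

/-- the norm -/
noncomputable def Np (T : StarP_T E P I) (y : E) : ℝ := ⨆ o, T.v' o y

theorem k_pos (p : ℕ × I) : 0 < T.k p := by
  have h1 := T.κ_pos
  have h2 := T.τ_pos (T.cls p.2)
  unfold k; positivity

theorem k_le_kappa (p : ℕ × I) : T.k p ≤ T.κ := by
  have h1 := T.κ_pos
  have h2 := T.τ_pos (T.cls p.2)
  have h3 := T.τ_le (T.cls p.2)
  have h4 : ((1 : ℝ) / 2) ^ (T.cls p.2 + p.1 + 1) ≤ 1 := pow_le_one₀ (by norm_num) (by norm_num)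
  calc T.k p = T.κ * T.τ (T.cls p.2) * (1 / 2) ^ (T.cls p.2 + p.1 + 1) := rfl
    _ ≤ T.κ * 1 * 1 := by gcongr
    _ = T.κ := by ring

theorem k_le (p : ℕ × I) : T.k p ≤ 1 / 8 := (T.k_le_kappa p).trans T.κ_le

theorem k_le_tau (p : ℕ × I) : 16 * T.k p ≤ T.τ (T.cls p.2) := by
  have h1 := T.κ_pos
  have h0 := T.κ_le
  have h2 := T.τ_pos (T.cls p.2)
  have h4 : ((1 : ℝ) / 2) ^ (T.cls p.2 + p.1 + 1) ≤ (1 / 2) ^ 1 :=
    pow_le_pow_of_le_one (by norm_num) (by norm_num) (by omega)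
  calc 16 * T.k p = 16 * (T.κ * T.τ (T.cls p.2) * (1 / 2) ^ (T.cls p.2 + p.1 + 1)) := rfl
    _ ≤ 16 * (1 / 8 * T.τ (T.cls p.2) * (1 / 2) ^ 1) := by gcongr
    _ = T.τ (T.cls p.2) := by ring

theorem k_small {n0 : ℕ} (p : ℕ × I) (h : n0 ≤ T.cls p.2 + p.1) : 16 * T.k p ≤ (1 / 2) ^ n0 := by
  have h1 := T.κ_pos
  have h0 := T.κ_le
  have h2 := T.τ_pos (T.cls p.2)
  have h3 := T.τ_le (T.cls p.2)
  have h4 : ((1 : ℝ) / 2) ^ (T.cls p.2 + p.1 + 1) ≤ (1 / 2) ^ (n0 + 1) :=
    pow_le_pow_of_le_one (by norm_num) (by norm_num) (by omega)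
  calc 16 * T.k p = 16 * (T.κ * T.τ (T.cls p.2) * (1 / 2) ^ (T.cls p.2 + p.1 + 1)) := rfl
    _ ≤ 16 * (1 / 8 * 1 * (1 / 2) ^ (n0 + 1)) := by gcongr
    _ = (1 / 2) ^ n0 := by rw [pow_succ]; ring

theorem a_pos (p : ℕ × I) : 0 < T.a p := by
  have := T.k_pos p
  unfold a; positivity

theorem a_le (p : ℕ × I) : T.a p ≤ 1 / 8 := by
  have h1 := T.k_pos p
  have h2 : ((1 : ℝ) / 2) ^ p.1 ≤ 1 := pow_le_one₀ (by norm_num) (by norm_num)
  calc T.a p = T.k p * (1 / 2) ^ p.1 := rfl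
    _ ≤ T.k p * 1 := by gcongr
    _ ≤ 1 / 8 := by rw [mul_one]; exact T.k_le p

theorem M_le' (p : ℕ × I) (y : E) : (1 - T.a p) * T.M p y ≤ T.R p.2 y := by
  have h1 := T.M_le p y
  have h2 := (T.R_sn p.2).nonneg y
  have h3 := T.a_pos p
  have h4 := T.a_le p
  have h5 : T.M p y ≤ (1 + T.a p) * T.R p.2 y := h1
  have h6 : (1 - T.a p) * T.M p y ≤ (1 - T.a p) * ((1 + T.a p) * T.R p.2 y) :=
    mul_le_mul_of_nonneg_left h5 (by linarith)
  have h7 : (1 - T.a p) * ((1 + T.a p) * T.R p.2 y) = T.R p.2 y - T.a p ^ 2 * T.R p.2 y := by ring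
  have h8 : 0 ≤ T.a p ^ 2 * T.R p.2 y := by positivity
  linarith

theorem v_le (hP : EqNorm E P) (p : ℕ × I) (y : E) : T.v p y ≤ (1 + T.κ) * P y := by
  have h1 := T.M_le' p y
  have h2 := T.R_le p.2 y
  have h3 := T.S_le p.2 y
  have h4 := T.k_pos p
  have h5 := hP.nonneg y
  have h6 := T.k_le_kappa p
  have h7 : T.k p * T.S p.2 y ≤ T.k p * P y := mul_le_mul_of_nonneg_left h3 h4.le
  have h8 : T.k p * P y ≤ T.κ * P y := mul_le_mul_of_nonneg_right h6 h5
  unfold v
  linarith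

theorem v'_le (hP : EqNorm E P) (o : Option (ℕ × I)) (y : E) : T.v' o y ≤ (1 + T.κ) * P y := by
  cases o with
  | none =>
    have := hP.nonneg y
    have h1 := T.κ_pos
    simp only [v']
    nlinarith
  | some p => exact T.v_le hP p y

theorem bdd (hP : EqNorm E P) (y : E) : BddAbove (range fun o => T.v' o y) :=
  ⟨(1 + T.κ) * P y, by rintro _ ⟨o, rfl⟩; exact T.v'_le hP o y⟩

theorem v'_le_Np (hP : EqNorm E P) (o : Option (ℕ × I)) (y : E) : T.v' o y ≤ T.Np y :=
  le_ciSup (T.bdd hP y) o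

theorem v_le_Np (hP : EqNorm E P) (p : ℕ × I) (y : E) : T.v p y ≤ T.Np y := T.v'_le_Np hP (some p) y

theorem P_le_Np (hP : EqNorm E P) (y : E) : P y ≤ T.Np y := T.v'_le_Np hP none y

theorem Np_le (hP : EqNorm E P) (y : E) : T.Np y ≤ (1 + T.κ) * P y :=
  ciSup_le fun o => T.v'_le hP o y

theorem v_smul (c : ℝ) (p : ℕ × I) (y : E) : T.v p (c • y) = |c| * T.v p y := by
  unfold v
  rw [(T.M_sn p).smul, (T.S_sn p.2).smul]
  ring

theorem v'_smul (hP : EqNorm E P) (c : ℝ) (o : Option (ℕ × I)) (y : E) :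
    T.v' o (c • y) = |c| * T.v' o y := by
  cases o with
  | none => exact hP.smul c y
  | some p => exact T.v_smul c p y

theorem v'_add (hP : EqNorm E P) (o : Option (ℕ × I)) (y z : E) :
    T.v' o (y + z) ≤ T.v' o y + T.v' o z := by
  cases o with
  | none => exact hP.add_le y z
  | some p =>
    simp only [v', v]
    have h1 := (T.M_sn p).add_le y z
    have h2 := (T.S_sn p.2).add_le y z
    have h3 := T.k_pos p
    have h4 := T.a_le p
    have h5 : (1 - T.a p) * T.M p (y + z) ≤ (1 - T.a p) * (T.M p y + T.M p z) :=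
      mul_le_mul_of_nonneg_left h1 (by linarith)
    have h6 : T.k p * T.S p.2 (y + z) ≤ T.k p * (T.S p.2 y + T.S p.2 z) :=
      mul_le_mul_of_nonneg_left h2 h3.le
    linarith

theorem eqNorm_Np (hP : EqNorm E P) : EqNorm E T.Np where
  add_le := by
    intro f g
    refine ciSup_le fun o => ?_
    exact (T.v'_add hP o f g).trans (add_le_add (T.v'_le_Np hP o f) (T.v'_le_Np hP o g))
  smul := by
    intro c f
    unfold Np
    rw [Real.mul_iSup_of_nonneg (abs_nonneg c)]
    congr 1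
    ext o
    exact T.v'_smul hP c o f
  eq_zero := by
    intro f hf
    refine hP.eq_zero f (le_antisymm ?_ (hP.nonneg f))
    rw [← hf]
    exact T.P_le_Np hP f
  equiv := by
    obtain ⟨c, C, hc, hC, h⟩ := hP.equiv
    have hκ := T.κ_pos
    refine ⟨c, (1 + T.κ) * C, hc, by positivity, fun f => ⟨(h f).1.trans (T.P_le_Np hP f), ?_⟩⟩
    refine (T.Np_le hP f).trans ?_
    calc (1 + T.κ) * P f ≤ (1 + T.κ) * (C * ‖f‖) := mul_le_mul_of_nonneg_left (h f).2 (by linarith)
      _ = (1 + T.κ) * C * ‖f‖ := by ring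

theorem P_lt_Np (hP : EqNorm E P) {y : E} (hy : y ≠ 0) : P y < T.Np y := by
  obtain ⟨i, hi1, hi2⟩ := T.catch_ y hy
  have hPy := hP.pos hy
  have hS : 0 < T.S i y := lt_of_le_of_ne ((T.S_sn i).nonneg y) (Ne.symm hi2)
  obtain ⟨n, hn⟩ := exists_pow_lt_of_lt_one (div_pos hS hPy) (by norm_num : (1 / 2 : ℝ) < 1)
  rw [lt_div_iff₀ hPy] at hn
  have h1 := T.v_le_Np hP (n, i) y
  have h2 := T.k_pos (n, i)
  have h3 := T.M_ge (n, i) y
  have h4 := T.a_le (n, i)
  have h5 : (1 - T.a (n, i)) * P y ≤ (1 - T.a (n, i)) * T.M (n, i) y :=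
    mul_le_mul_of_nonneg_left (hi1.trans h3) (by linarith)
  have h6 : T.a (n, i) * P y < T.k (n, i) * T.S i y := by
    have e : T.a (n, i) * P y = T.k (n, i) * ((1 / 2) ^ n * P y) := by
      unfold a
      ring
    rw [e]
    exact mul_lt_mul_of_pos_left hn h2
  have h7 : T.v (n, i) y = (1 - T.a (n, i)) * T.M (n, i) y + T.k (n, i) * T.S i y := rfl
  rw [h7] at h1
  nlinarith

theorem exists_radius (n0 : ℕ) : ∃ r : ℝ, 0 < r ∧ ∀ c < n0, r ≤ T.τ c / 4 := by
  induction n0 with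
  | zero => exact ⟨1, one_pos, fun c hc => absurd hc (by omega)⟩
  | succ n ih =>
    obtain ⟨r, hr, h⟩ := ih
    refine ⟨min r (T.τ n / 4), lt_min hr (by have := T.τ_pos n; positivity), fun c hc => ?_⟩
    rcases Nat.lt_succ_iff_lt_or_eq.1 hc with h1 | h1
    · exact (min_le_left _ _).trans (h c h1)
    · rw [h1]; exact min_le_right _ _

theorem finMax (hP : EqNorm E P) (V : Submodule ℝ E) [FiniteDimensional ℝ V] :
    FM fun y : V => T.Np (y : E) := by
  classical
  have hN := T.eqNorm_Np hP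
  let Sph : Set V := {y | P y = 1}
  by_cases hSph : Sph.Nonempty
  swap
  · -- trivial space
    have htriv : ∀ y : V, y = 0 := by
      intro y
      by_contra hy
      have hy' : (y : E) ≠ 0 := fun h => hy (Subtype.ext h)
      have hPy := hP.pos hy'
      refine hSph ⟨(P y)⁻¹ • y, ?_⟩
      change P ((P y)⁻¹ • (y : E)) = 1
      rw [hP.smul_nonneg (inv_pos.2 hPy).le, inv_mul_cancel₀ hPy.ne']
    refine ⟨{0}, fun x => ?_⟩
    rw [htriv x]
    simp [hN.map_zero]
  have hcomp : IsCompact Sph := by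
    refine Metric.isCompact_of_isClosed_isBounded ?_ ?_
    · exact isClosed_eq (hP.continuous.comp continuous_subtype_val) continuous_const
    · obtain ⟨c, C, hc, hC, h⟩ := hP.equiv
      refine (Metric.isBounded_closedBall (x := (0 : V)) (r := 1 / c)).subset ?_
      intro y hy
      have hy : P y = 1 := hy
      rw [mem_closedBall_zero_iff, le_div_iff₀ hc]
      have := (h y).1
      rw [hy] at this
      rw [mul_comm]
      exact this
  obtain ⟨y1, hy1, hmin⟩ := hcomp.exists_isMinOn hSph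
    (f := fun y : V => T.Np y - P y)
    ((hN.continuous.comp continuous_subtype_val).sub
      (hP.continuous.comp continuous_subtype_val)).continuousOn
  set η := T.Np y1 - P y1 with hη
  have hy10 : (y1 : E) ≠ 0 := by
    intro h
    have : P (y1 : E) = 1 := hy1
    rw [h, hP.map_zero] at this
    exact zero_ne_one this
  have hη0 : 0 < η := by
    have := T.P_lt_Np hP hy10
    rw [hη]; linarith
  have hmin' : ∀ y ∈ Sph, 1 + η ≤ T.Np y := by
    intro y hy
    have h1 := hmin hy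
    have h2 : P y = 1 := hy
    simp only [mem_ofPred_eq] at h1
    linarith
  obtain ⟨n0, hn0⟩ := exists_pow_lt_of_lt_one (show 0 < η by exact hη0)
    (by norm_num : (1 / 2 : ℝ) < 1)
  obtain ⟨r, hr0, hr⟩ := T.exists_radius n0
  -- finitely many balls
  obtain ⟨s, hs1, hs2⟩ := hcomp.elim_nhds_subcover
    (fun y => {z : V | P ((z : E) - y) < min r (η / 4)}) (by
    intro y _
    have hc : Continuous fun z : V => P ((z : E) - y) :=
      hP.continuous.comp (continuous_subtype_val.sub continuous_const)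
    refine (isOpen_lt hc continuous_const).mem_nhds ?_
    simp only [mem_ofPred_eq, sub_self, hP.map_zero]
    positivity)
  have hfin : (⋃ y ∈ s, ⋃ c ∈ Finset.range n0, {i | T.cls i = c ∧
      (1 - T.τ c) * P (y : E) ≤ T.R i y ∧ η / 4 ≤ T.S i y}).Finite :=
    s.finite_toSet.biUnion fun y _ => (Finset.range n0).finite_toSet.biUnion fun c _ =>
      T.fin c y (η / 4) (by linarith)
  set A := (Finset.range n0) ×ˢ hfin.toFinset with hA
  have hsmall : ∀ p ∉ A, ∀ y ∈ Sph, T.v p y ≤ 1 + η / 2 := by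
    rintro ⟨n, i⟩ hi y hy
    have h6 : P (y : E) = 1 := hy
    have h5 := T.M_le' (n, i) (y : E)
    have h5' := T.R_le i (y : E)
    have h7 := T.S_le i (y : E)
    have h8 := T.k_pos (n, i)
    have h9 := T.k_le_tau (n, i)
    have h10 := T.k_le (n, i)
    have h11 := (T.S_sn i).nonneg (y : E)
    have hv : T.v (n, i) (y : E) = (1 - T.a (n, i)) * T.M (n, i) y + T.k (n, i) * T.S i y := rfl
    simp only at h5 h9
    by_cases hc : T.cls i + n < n0
    swap
    · have h10 := T.k_small (n, i) (n0 := n0) (not_lt.1 hc)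
      rw [hv]
      have : T.k (n, i) * T.S i y ≤ T.k (n, i) * 1 := mul_le_mul_of_nonneg_left (by linarith) h8.le
      linarith
    obtain ⟨z, hz1, hz2⟩ := mem_iUnion₂.1 (hs2 hy)
    have hz3 : P (z : E) = 1 := hs1 z hz1
    have h4 : P ((y : E) - z) < min r (η / 4) := hz2
    have h41 := h4.trans_le (min_le_left _ _)
    have h42 := h4.trans_le (min_le_right _ _)
    have hcn : T.cls i < n0 := by omega
    have h43 := hr _ hcn
    by_cases ht : η / 4 ≤ T.S i z
    · have h1 : T.R i z < 1 - T.τ (T.cls i) := by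
        by_contra hcon
        apply hi
        rw [hA, Finset.mem_product, Set.Finite.mem_toFinset]
        refine ⟨Finset.mem_range.2 (by simp only; omega), ?_⟩
        refine mem_iUnion₂.2 ⟨z, hz1, mem_iUnion₂.2 ⟨T.cls i, Finset.mem_range.2 hcn, rfl, ?_, ht⟩⟩
        rw [hz3, mul_one]
        exact not_lt.1 hcon
      have h2 := (T.R_sn i).sub_le (y : E) z
      have h3 := T.R_le i ((y : E) - z)
      have h12 := T.τ_pos (T.cls i)
      have h13 : T.k (n, i) * T.S i y ≤ T.k (n, i) * 1 := mul_le_mul_of_nonneg_left (by linarith) h8.le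
      rw [hv]
      linarith
    · have h1 := not_le.1 ht
      have h2 := (T.S_sn i).sub_le (y : E) z
      have h3 := T.S_le i ((y : E) - z)
      have h13 : T.k (n, i) * T.S i y ≤ T.k (n, i) * (η / 2) :=
        mul_le_mul_of_nonneg_left (by linarith) h8.le
      have h14 : T.k (n, i) * (η / 2) ≤ 1 * (η / 2) := mul_le_mul_of_nonneg_right (by linarith) (by linarith)
      rw [hv]
      linarith
  have hatt : ∀ y ∈ Sph, ∃ p ∈ A, T.v p y = T.Np y := by
    intro y hy
    obtain ⟨m, hm1, hm2⟩ := (insert (1 + η / 2) (A.image fun p => T.v p y)).exists_max_image id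
      ⟨_, Finset.mem_insert_self _ _⟩
    have hle : T.Np y ≤ m := by
      refine ciSup_le fun o => ?_
      have h0 : 1 + η / 2 ≤ m := hm2 _ (Finset.mem_insert_self _ _)
      cases o with
      | none =>
        have : P (y : E) = 1 := hy
        simp only [v']
        linarith
      | some p =>
        by_cases hi : p ∈ A
        · exact hm2 (T.v p y) (Finset.mem_insert_of_mem (Finset.mem_image.2 ⟨p, hi, rfl⟩))
        · exact (hsmall p hi y hy).trans h0
    rcases Finset.mem_insert.1 hm1 with h | h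
    · exfalso
      have := hmin' y hy
      rw [h] at hle
      linarith
    · obtain ⟨p, hp, him⟩ := Finset.mem_image.1 h
      refine ⟨p, hp, le_antisymm (T.v_le_Np hP p y) ?_⟩
      rw [him]; exact hle
  refine FM.max (V := V) A (fun p y => T.v p (y : E)) ?_ (N := fun y => T.Np (y : E)) ?_
  · intro p _
    have h1 : FM fun y : V => T.M p (y : E) := T.M_poly p V V.subtype
    have h2 : FM fun y : V => T.S p.2 (y : E) := T.S_poly p.2 V V.subtype
    have h3 := T.a_le p
    exact (h1.smul (c := 1 - T.a p) (by linarith)).add (h2.smul (T.k_pos p).le)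
  · intro y
    refine ⟨fun p _ => T.v_le_Np hP p y, ?_⟩
    by_cases hy : (y : E) = 0
    · obtain ⟨p, hp, -⟩ := hatt y1 hy1
      refine ⟨p, hp, ?_⟩
      rw [hy, hN.map_zero, v, (T.M_sn p).map_zero, (T.S_sn p.2).map_zero]
      simp
    · have hPy := hP.pos hy
      obtain ⟨p, hp, h⟩ := hatt ((P y)⁻¹ • y) (by
        change P ((P y)⁻¹ • (y : E)) = 1
        rw [hP.smul_nonneg (inv_pos.2 hPy).le, inv_mul_cancel₀ hPy.ne'])
      refine ⟨p, hp, ?_⟩
      rw [Submodule.coe_smul, T.v_smul, hN.smul] at h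
      exact mul_left_cancel₀ (by rw [abs_of_pos (inv_pos.2 hPy)]; exact (inv_pos.2 hPy).ne') h

theorem polyS (hP : EqNorm E P) : PolyS E T.Np := by
  intro V _ _ _ f
  have h := T.finMax hP (LinearMap.range f)
  exact h.comp f.rangeRestrict

end StarP_T

theorem starProp_polyS : StarProp PolyS := by
  intro E _ _ P hP I cls τ R S δ hδ hτ hR hRN hS hfin hcatch
  have hκ : 0 < min δ (1 / 8) := lt_min hδ (by norm_num)
  have hch : ∀ p : ℕ × I, ∃ N, SN E N ∧ PolyS E N ∧ ∀ y, R p.2 y ≤ N y ∧ N y ≤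
      (1 + min δ (1 / 8) * τ (cls p.2) * (1 / 2) ^ (cls p.2 + p.1 + 1) * (1 / 2) ^ p.1) * R p.2 y := by
    intro p
    have := (hτ (cls p.2)).1
    exact hRN p.2 _ (by positivity)
  choose M hM1 hM2 hM3 using hch
  let T : StarP_T E P I :=
    { cls := cls
      τ := τ
      κ := min δ (1 / 8)
      R := R
      S := S
      M := M
      κ_pos := hκ
      κ_le := min_le_right _ _
      τ_pos := fun c => (hτ c).1
      τ_le := fun c => (hτ c).2
      R_sn := fun i => (hR i).1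
      R_le := fun i => (hR i).2
      S_sn := fun i => (hS i).1
      S_le := fun i => (hS i).2.2
      S_poly := fun i => (hS i).2.1
      M_sn := hM1
      M_poly := hM2
      M_ge := fun p y => (hM3 p y).1
      M_le := fun p y => (hM3 p y).2
      fin := hfin
      catch_ := hcatch }
  refine ⟨T.Np, T.eqNorm_Np hP, T.polyS hP, fun y => ⟨T.P_le_Np hP y, (T.Np_le hP y).trans ?_⟩⟩
  exact mul_le_mul_of_nonneg_right (add_le_add_right (min_le_left _ _) 1) (hP.nonneg y)

end Pool.Agent.helper26.CR
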