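import Pool.Agent.helper26.CR.Defs
import Pool.Agent.helper41.RC.Vald

/-!
# CR-Val: all Valdivia compact spaces are in the class `Rcl`

PROOF.  It is enough to prove, by strong induction on the cardinal of Γ (well-founded induction on cardinals), for all
Γ : Type and all X : Set (Γ → ℝ) compact with
  hd : X ⊆ closure {y | y ∈ X ∧ (Function.support y).Countable}   that Rcl X; then transfer from X = range j to K by a
homeomorphism (`Rcl.homeo`: if e : K ≃ₜ L, Rcl K → Rcl L; by induction on Rcl; in the case lim conjugate the retractions: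
r' α = e ∘ r α ∘ e.symm, range (r' α) is homeomorphic to range (r α)).
* Γ countable (Cardinal.mk Γ ≤ ℵ₀): X ⊆ ℝ^Γ is compact T2 second countable: Rcl.metr.
* κ = Cardinal.mk Γ > ℵ₀: `exists_op` (Pool/Agent/helper41/RC/Clo.lean) gives D with D F countable and every D-closed A good
  (`Good X A`: A.indicator y ∈ X for y ∈ X).  Well-order Γ in type κ.ord (`Cardinal.exists_ord_eq`, as in `exists_rank` of
  Vald.lean): f : Γ → Ordinal.{0} injective with f γ < κ.ord and, for α < κ.ord, Cardinal.mk {γ | f γ < α} < κ.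
  A α = clo D {γ | f γ < α}; clo D S has cardinality ≤ max (mk S) ℵ₀, so mk (A α) < κ for α < κ.ord, A (κ.ord) = univ.
  r α y = (A α).indicator y on X, θ = κ.ord: it is an `RSeq X θ`.
  range (r α) (α < θ): homeomorphic to X' ⊂ ℝ^(A α), X' = restrictions of the points of X to A α; X' is compact and
  the points with countable support are dense in it.
  By the induction hypothesis (mk (A α) < κ) Rcl X', so Rcl (range (r α)).
-/

set_option autoImplicit false

open Set Topology Filter

namespace Pool.Agent.helper26.CR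

open Pool.Agent.helper26.CK Pool.Agent.helper41.RC

/-- conjugation of a sequence of retractions by a homeomorphism -/
def Val_conj {K L : Type} [TopologicalSpace K] [TopologicalSpace L] {θ : Ordinal.{0}} (R : RSeq K θ)
    (e : K ≃ₜ L) : RSeq L θ where
  r α y := e (R.r α (e.symm y))
  cont α := e.continuous.comp ((R.cont α).comp e.symm.continuous)
  comm α β y := by rw [Homeomorph.symm_apply_apply, R.comm]
  last y := by rw [R.last, Homeomorph.apply_symm_apply]
  lim δ hδ y U hU := by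
    obtain ⟨β, hβ, h⟩ := R.lim δ hδ (e.symm y) (e ⁻¹' U) (e.continuous.continuousAt hU)
    exact ⟨β, hβ, fun γ h1 h2 => h γ h1 h2⟩

theorem Rcl.homeo {K L : Type} [TopologicalSpace K] [TopologicalSpace L] (h : Rcl K) (e : K ≃ₜ L) :
    Rcl L := by
  suffices H : ∀ (K : Type) [TopologicalSpace K], Rcl K → ∀ (L : Type) [TopologicalSpace L],
      (K ≃ₜ L) → Rcl L from H K h L e
  intro K _ h
  induction h with
  | metr K =>
    intro L _ e
    have : CompactSpace L := e.compactSpace
    have : T2Space L := e.t2Space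
    have : SecondCountableTopology L := e.symm.secondCountableTopology
    exact Rcl.metr L
  | lim K θ hθ R h ih =>
    intro L _ e
    have : CompactSpace L := e.compactSpace
    have : T2Space L := e.t2Space
    refine Rcl.lim L θ hθ (Val_conj R e) fun α hα => ?_
    refine ih α hα _ ((e.image (range (R.r α))).trans (Homeomorph.setCongr ?_))
    ext y
    constructor
    · rintro ⟨_, ⟨x, rfl⟩, rfl⟩
      refine ⟨e x, ?_⟩
      change e (R.r α (e.symm (e x))) = e (R.r α x)
      rw [Homeomorph.symm_apply_apply]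
    · rintro ⟨y, rfl⟩
      exact ⟨R.r α (e.symm y), ⟨e.symm y, rfl⟩, rfl⟩

theorem Val_finset {Γ : Type} (T : Set Γ) :
    Cardinal.mk {F : Finset Γ | ↑F ⊆ T} ≤ max (Cardinal.mk T) Cardinal.aleph0 := by
  classical
  have h1 : {F : Finset Γ | ↑F ⊆ T} ⊆
      range (fun G : Finset T => G.map (Function.Embedding.subtype (· ∈ T))) := by
    intro F hF
    refine ⟨F.subtype (· ∈ T), ?_⟩
    ext x
    simp only [Finset.mem_map, Finset.mem_subtype, Function.Embedding.subtype_apply, Subtype.exists,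
      exists_and_left, exists_prop, exists_eq_right_right]
    exact ⟨fun h => h.1, fun h => ⟨h, hF h⟩⟩
  refine (Cardinal.mk_le_mk_of_subset h1).trans (Cardinal.mk_range_le.trans ?_)
  rcases finite_or_infinite T with h | h
  · exact ((Cardinal.lt_aleph0_of_finite (Finset T)).le).trans (le_max_right _ _)
  · rw [Cardinal.mk_finset_of_infinite]
    exact le_max_left _ _

theorem mk_clo_le {Γ : Type} (D : Finset Γ → Set Γ) (hD : ∀ F, (D F).Countable) (S : Set Γ) :
    Cardinal.mk (clo D S) ≤ max (Cardinal.mk S) Cardinal.aleph0 := by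
  classical
  set κ := max (Cardinal.mk S) Cardinal.aleph0 with hκ
  have hκ0 : Cardinal.aleph0 ≤ κ := le_max_right _ _
  have h1 : ∀ n : ℕ, Cardinal.mk ((stp D)^[n] S : Set Γ) ≤ κ := by
    intro n
    induction n with
    | zero => exact le_max_left _ _
    | succ n ih =>
      rw [Function.iterate_succ_apply']
      set T := (stp D)^[n] S with hT
      refine (Cardinal.mk_union_le _ _).trans ?_
      have h2 : Cardinal.mk (⋃ F ∈ {F : Finset Γ | ↑F ⊆ T}, D F : Set Γ) ≤ κ := by
        have h30 := Cardinal.mk_biUnion_le D {F : Finset Γ | ↑F ⊆ T}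
        have h3 : Cardinal.mk {F : Finset Γ | ↑F ⊆ T} ≤ κ :=
          (Val_finset T).trans (max_le ih hκ0)
        have h4 : (⨆ F : {F : Finset Γ | ↑F ⊆ T}, Cardinal.mk (D F.1)) ≤ Cardinal.aleph0 :=
          ciSup_le' fun F => (hD F.1).le_aleph0
        calc _ ≤ _ := h30
          _ ≤ κ * Cardinal.aleph0 := mul_le_mul' h3 h4
          _ = κ := Cardinal.mul_aleph0_eq hκ0
      exact (add_le_add ih h2).trans (Cardinal.add_eq_self hκ0).le
  have h5 : (⨆ n : ℕ, Cardinal.mk ((stp D)^[n] S : Set Γ)) ≤ κ := ciSup_le' h1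
  have h6 : clo D S = ⋃ n : ℕ, (stp D)^[n] S := rfl
  rw [h6]
  have h7 := Cardinal.mk_iUnion_le (fun n : ℕ => (stp D)^[n] S)
  calc Cardinal.mk (⋃ n : ℕ, (stp D)^[n] S : Set Γ) ≤
        Cardinal.mk ℕ * (⨆ n : ℕ, Cardinal.mk ((stp D)^[n] S : Set Γ)) := h7
    _ ≤ Cardinal.aleph0 * κ := mul_le_mul' Cardinal.mk_nat.le h5
    _ = κ := Cardinal.aleph0_mul_eq hκ0

/-- a well-order of type the initial ordinal -/
theorem Val_rank (Γ : Type) :
    ∃ f : Γ → Ordinal.{0}, (∀ γ, f γ < (Cardinal.mk Γ).ord) ∧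
      ∀ α < (Cardinal.mk Γ).ord, Cardinal.mk {γ | f γ < α} < Cardinal.mk Γ := by
  obtain ⟨r, wo, e⟩ := Cardinal.exists_ord_eq Γ
  refine ⟨Ordinal.typein r, fun i => ?_, fun α hα => ?_⟩
  · rw [e]
    exact Ordinal.typein_lt_type r i
  · rw [Cardinal.lt_ord] at hα
    refine lt_of_le_of_lt ?_ hα
    have h1 : Cardinal.lift.{1} (Cardinal.mk {γ | Ordinal.typein r γ < α}) ≤
        Cardinal.lift.{0} (Cardinal.mk (Iio α)) := by
      rw [Cardinal.lift_mk_le']
      exact ⟨⟨fun γ => ⟨Ordinal.typein r γ.1, γ.2⟩, fun γ γ' h =>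
        Subtype.ext (Ordinal.typein_injective r (Subtype.ext_iff.1 h))⟩⟩
    rw [Cardinal.mk_Iio_ordinal, Cardinal.lift_lift, Cardinal.lift_le] at h1
    exact h1

/-- restriction to a set of coordinates -/
def Val_res {Γ : Type} (A : Set Γ) (y : Γ → ℝ) (a : A) : ℝ := y a.1

theorem Val_res_cont {Γ : Type} (A : Set Γ) : Continuous (Val_res A) :=
  continuous_pi fun a => continuous_apply a.1

open Classical in
/-- extension by zero -/
noncomputable def Val_ext {Γ : Type} (A : Set Γ) (v : A → ℝ) (γ : Γ) : ℝ :=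
  if h : γ ∈ A then v ⟨γ, h⟩ else 0

theorem Val_ext_cont {Γ : Type} (A : Set Γ) : Continuous (Val_ext A) := by
  refine continuous_pi fun γ => ?_
  by_cases h : γ ∈ A
  · simp only [Val_ext, h, dite_true]
    exact continuous_apply _
  · simp only [Val_ext, h, dite_false]
    exact continuous_const

theorem Val_res_ext {Γ : Type} (A : Set Γ) (v : A → ℝ) : Val_res A (Val_ext A v) = v := by
  funext a
  simp only [Val_res, Val_ext, a.2, dite_true]

theorem Val_ext_res {Γ : Type} (A : Set Γ) (y : Γ → ℝ) : Val_ext A (Val_res A y) = A.indicator y := by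
  classical
  funext γ
  by_cases h : γ ∈ A
  · simp only [Val_res, Val_ext, h, dite_true, indicator_of_mem]
  · simp only [Val_ext, h, dite_false, not_false_eq_true, indicator_of_notMem]

theorem Val_dense {Γ : Type} {X : Set (Γ → ℝ)} (A : Set Γ)
    (hd : X ⊆ closure {y | y ∈ X ∧ (Function.support y).Countable}) :
    Val_res A '' X ⊆ closure {y | y ∈ Val_res A '' X ∧ (Function.support y).Countable} := by
  rintro _ ⟨y, hy, rfl⟩
  have h1 := image_closure_subset_closure_image (Val_res_cont A) ⟨y, hd hy, rfl⟩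
  refine closure_mono ?_ h1
  rintro _ ⟨y', hy', rfl⟩
  refine ⟨⟨y', hy'.1, rfl⟩, ?_⟩
  have h2 : Function.support (Val_res A y') = (Subtype.val : A → Γ) ⁻¹' Function.support y' := rfl
  rw [h2]
  exact hy'.2.preimage Subtype.val_injective

/-- the sequence of retractions of a compact set of functions -/
theorem Val_seq {Γ : Type} {X : Set (Γ → ℝ)} (D : Finset Γ → Set Γ)
    (hg : ∀ A : Set Γ, (∀ F : Finset Γ, ↑F ⊆ A → D F ⊆ A) → Good X A)
    (f : Γ → Ordinal.{0}) (θ : Ordinal.{0}) (hf : ∀ γ, f γ < θ) :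
    ∃ R : RSeq X θ, ∀ α y, (R.r α y).1 = (clo D {γ | f γ < α}).indicator y.1 := by
  classical
  let A : Ordinal.{0} → Set Γ := fun α => clo D {γ | f γ < α}
  have hAm : ∀ {α β}, α ≤ β → A α ⊆ A β := fun {α β} h =>
    clo_mono D fun i hi => lt_of_lt_of_le hi h
  have hAθ : A θ = univ := by
    have h1 : {γ | f γ < θ} = univ := eq_univ_of_forall hf
    refine eq_univ_of_forall fun γ => subset_clo D _ ?_
    rw [h1]
    exact mem_univ _
  have hAl : ∀ δ, Order.IsSuccLimit δ → ∀ γ ∈ A δ, ∃ β < δ, γ ∈ A β := by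
    intro δ hδ γ hγ
    have : Nonempty (Iio δ) := ⟨⟨0, hδ.bot_lt⟩⟩
    have h1 : {γ | f γ < δ} ⊆ ⋃ β : Iio δ, {γ | f γ < β.1} := by
      intro i hi
      exact mem_iUnion.2 ⟨⟨Order.succ (f i), hδ.succ_lt hi⟩, Order.lt_succ (f i)⟩
    have h2 := clo_iUnion D (fun β : Iio δ => {γ | f γ < β.1}) (by
      intro β β'
      refine ⟨max β β', fun i hi => ?_, fun i hi => ?_⟩
      · exact lt_of_lt_of_le hi (le_max_left β.1 β'.1)
      · exact lt_of_lt_of_le hi (le_max_right β.1 β'.1))
    obtain ⟨β, hβ⟩ := mem_iUnion.1 (h2 (clo_mono D h1 hγ))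
    exact ⟨β.1, β.2, hβ⟩
  have hgood : ∀ α, Good X (A α) := fun α => hg _ (clo_closed D _)
  let r : Ordinal.{0} → X → X := fun α y => ⟨(A α).indicator y.1, hgood α _ y.2⟩
  have hr : ∀ α (y : X), (r α y).1 = (A α).indicator y.1 := fun _ _ => rfl
  refine ⟨⟨r, ?_, ?_, ?_, ?_⟩, fun α y => rfl⟩
  · intro α
    exact Continuous.subtype_mk ((continuous_ind _).comp continuous_subtype_val) _
  · intro α β y
    apply Subtype.ext
    rw [hr, hr, hr, indicator_indicator]
    congr 1
    rcases le_total α β with h | h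
    · rw [min_eq_left h, inter_eq_left.2 (hAm h)]
    · rw [min_eq_right h, inter_eq_right.2 (hAm h)]
  · intro y
    apply Subtype.ext
    rw [hr, hAθ, indicator_univ]
  · intro δ hδ y U hU
    obtain ⟨U', hU', hUU⟩ := mem_nhds_subtype _ _ _ |>.1 hU
    obtain ⟨V, hV, hVo, hyV⟩ := mem_nhds_iff.1 hU'
    obtain ⟨J, u, hu, huV⟩ := isOpen_pi_iff.1 hVo _ hyV
    have h1 : ∃ β < δ, ∀ γ ∈ J, γ ∈ A δ → γ ∈ A β := by
      clear hu huV
      induction J using Finset.induction_on with
      | empty => exact ⟨0, hδ.bot_lt, by simp⟩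
      | insert a J _ ih =>
        obtain ⟨β, hβ, h⟩ := ih
        obtain ⟨β', hβ', h'⟩ : ∃ β' < δ, a ∈ A δ → a ∈ A β' := by
          by_cases ha : a ∈ A δ
          · obtain ⟨β', hβ', h'⟩ := hAl δ hδ a ha
            exact ⟨β', hβ', fun _ => h'⟩
          · exact ⟨0, hδ.bot_lt, fun h => absurd h ha⟩
        refine ⟨max β β', max_lt hβ hβ', fun γ hγ hγδ => ?_⟩
        rcases Finset.mem_insert.1 hγ with h1 | h1
        · rw [h1] at hγδ ⊢
          exact hAm (le_max_right _ _) (h' hγδ)
        · exact hAm (le_max_left _ _) (h γ h1 hγδ)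
    obtain ⟨β, hβ, h⟩ := h1
    refine ⟨β, hβ, fun γ' hγ' hγδ => hUU (hV (huV ?_))⟩
    intro γ hγ
    have h2 : (r γ' y).1 γ = (r δ y).1 γ := by
      rw [hr, hr]
      by_cases hγA : γ ∈ A δ
      · rw [indicator_of_mem hγA, indicator_of_mem (hAm hγ' (h γ hγ hγA))]
      · rw [indicator_of_notMem hγA, indicator_of_notMem fun h3 => hγA (hAm hγδ.le h3)]
    rw [h2]
    exact (hu γ hγ).2

/-- the range of a retraction is a compact set of functions of fewer variables -/
theorem Val_range {Γ : Type} {X : Set (Γ → ℝ)} {A : Set Γ} {r : X → X}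
    (hr : ∀ y, (r y).1 = A.indicator y.1) : Nonempty (Val_res A '' X ≃ₜ range r) := by
  have h1 : ∀ v : Val_res A '' X, ∃ y : X, (r y).1 = Val_ext A v.1 := by
    rintro ⟨_, y, hy, rfl⟩
    refine ⟨⟨y, hy⟩, ?_⟩
    rw [hr, Val_ext_res]
  have h2 : ∀ v : Val_res A '' X, Val_ext A v.1 ∈ X := fun v => by
    obtain ⟨y, hy⟩ := h1 v
    rw [← hy]
    exact (r y).2
  have h3 : ∀ v : Val_res A '' X, (⟨Val_ext A v.1, h2 v⟩ : X) ∈ range r := fun v => by
    obtain ⟨y, hy⟩ := h1 v
    exact ⟨y, Subtype.ext hy⟩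
  refine ⟨⟨⟨fun v => ⟨⟨Val_ext A v.1, h2 v⟩, h3 v⟩,
    fun z => ⟨Val_res A z.1.1, z.1.1, z.1.2, rfl⟩, ?_, ?_⟩, ?_, ?_⟩⟩
  · intro v
    exact Subtype.ext (Val_res_ext A v.1)
  · rintro ⟨_, y, rfl⟩
    refine Subtype.ext (Subtype.ext ?_)
    change Val_ext A (Val_res A (r y).1) = (r y).1
    rw [Val_ext_res, hr, indicator_indicator, inter_self]
  · exact Continuous.subtype_mk (Continuous.subtype_mk
      ((Val_ext_cont A).comp continuous_subtype_val) _) _
  · exact Continuous.subtype_mk
      ((Val_res_cont A).comp (continuous_subtype_val.comp continuous_subtype_val)) _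

theorem Val_main (κ : Cardinal.{0}) : ∀ (Γ : Type), Cardinal.mk Γ = κ → ∀ X : Set (Γ → ℝ),
    IsCompact X → X ⊆ closure {y | y ∈ X ∧ (Function.support y).Countable} → Rcl X := by
  induction κ using Cardinal.lt_wf.induction with
  | _ κ ih =>
    intro Γ hΓ X hX hd
    have hXc : CompactSpace X := isCompact_iff_compactSpace.1 hX
    by_cases hκ : κ ≤ Cardinal.aleph0
    · have : Countable Γ := by
        rw [← Cardinal.mk_le_aleph0_iff, hΓ]
        exact hκ
      exact Rcl.metr X
    · rw [not_le] at hκ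
      obtain ⟨D, hD, hg⟩ := exists_op hX.isClosed hd
      obtain ⟨f, hf, hf2⟩ := Val_rank Γ
      rw [hΓ] at hf hf2
      obtain ⟨R, hR⟩ := Val_seq D hg f κ.ord hf
      refine Rcl.lim X κ.ord (Cardinal.isSuccLimit_ord hκ.le) R fun α hα => ?_
      obtain ⟨e⟩ := Val_range (X := X) (A := clo D {γ | f γ < α}) (r := R.r α) (hR α)
      have h1 : Cardinal.mk (clo D {γ | f γ < α}) < κ :=
        lt_of_le_of_lt (mk_clo_le D hD _) (max_lt (hf2 α hα) hκ)
      have h2 : Rcl (Val_res (clo D {γ | f γ < α}) '' X) :=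
        ih (Cardinal.mk (clo D {γ | f γ < α})) h1 (clo D {γ | f γ < α}) rfl
          (Val_res (clo D {γ | f γ < α}) '' X)
          (hX.image (Val_res_cont (clo D {γ | f γ < α}))) (Val_dense (clo D {γ | f γ < α}) hd)
      exact Rcl.homeo h2 e

theorem rcl_of_closure {Γ : Type} {X : Set (Γ → ℝ)} (hX : IsCompact X)
    (hd : X ⊆ closure {y | y ∈ X ∧ (Function.support y).Countable}) : Rcl X :=
  Val_main _ Γ rfl X hX hd

theorem rcl_of_valdivia {K : Type} [TopologicalSpace K] [CompactSpace K] (h : Valdivia K) :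
    Rcl K := by
  obtain ⟨Γ, j, hj, hd⟩ := h
  have hXc : IsCompact (range j) := isCompact_range hj.continuous
  have hd' : range j ⊆ closure {y | y ∈ range j ∧ (Function.support y).Countable} := by
    rintro _ ⟨x, rfl⟩
    have h1 := image_closure_subset_closure_image hj.continuous ⟨x, hd x, rfl⟩
    refine closure_mono ?_ h1
    rintro _ ⟨x', hx', rfl⟩
    exact ⟨⟨x', rfl⟩, hx'⟩
  exact Rcl.homeo (rcl_of_closure hXc hd') hj.toHomeomorph.symm

end Pool.Agent.helper26.CR
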