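import Pool.Agent.helper26.CR.Adm
import Pool.Agent.helper26.CR.SepR
import Pool.Agent.helper26.CR.StarC
import Pool.Agent.helper26.CR.StarP
import Pool.Agent.helper26.CR.Val

/-!
# CR-Gcl: the class of compact spaces and its norms
-/

set_option autoImplicit false

open Set Topology Filter TopologicalSpace

namespace Pool.Agent.helper26.CR

open Pool.Agent.helper26.CK

open Pool.Agent.helper41

/-- the smallest class of compact Hausdorff spaces which contains the scattered members of the class
`Rcl`, the scattered continuous images of compact linearly ordered spaces and the scattered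
continuous images, of weight at most `ℵ₁`, of Valdivia compact spaces, and is closed under
continuous images (in Hausdorff spaces), finite products and layered unions: `K` is covered by
countably many families `C n j` of closed sets, the `n`-th family is locally finite at the points
outside of a closed set `B n`, every point is for some `n` in a member of the `n`-th family and not
in `B n`, and all intersections of a `C n j` with finitely many `B m` are in the class. -/
inductive Gcl : ∀ (K : Type) [TopologicalSpace K], Prop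
  | retr (K : Type) [TopologicalSpace K] (h : Rcl K) (hK : Scattered K) : Gcl K
  | ord (K L : Type) [TopologicalSpace K] [T2Space K] [LinearOrder L] [TopologicalSpace L]
      [OrderTopology L] [CompactSpace L] (φ : L → K) (hφ : Continuous φ)
      (hs : Function.Surjective φ) (hK : Scattered K) : Gcl K
  | vald (K L : Type) [TopologicalSpace K] [T2Space K] [TopologicalSpace L] [CompactSpace L]
      (φ : L → K) (hφ : Continuous φ) (hs : Function.Surjective φ) (hL : RC.Valdivia L)
      (hw : RC.WeightLe K) (hK : Scattered K) : Gcl K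
  | image (K L : Type) [TopologicalSpace K] [T2Space K] [TopologicalSpace L] (φ : L → K)
      (hφ : Continuous φ) (hs : Function.Surjective φ) (hL : Gcl L) : Gcl K
  | prod (K L : Type) [TopologicalSpace K] [TopologicalSpace L] (hK : Gcl K) (hL : Gcl L) :
      Gcl (K × L)
  | lay (K : Type) [TopologicalSpace K] [CompactSpace K] [T2Space K] (B : ℕ → Set K)
      (J : ℕ → Type) (C : ∀ n, J n → Set K) (hB : ∀ n, IsClosed (B n))
      (hC : ∀ n j, IsClosed (C n j))
      (lf : ∀ n, ∀ x ∉ B n, ∃ U ∈ 𝓝 x, {j | (C n j ∩ U).Nonempty}.Finite)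
      (cov : ∀ x, ∃ n, x ∉ B n ∧ ∃ j, x ∈ C n j)
      (h : ∀ n j (G : Finset ℕ), Gcl ↥(C n j ∩ {x | ∀ m ∈ G, x ∈ B m})) : Gcl K

theorem Gcl.compact_t2 {K : Type} [TopologicalSpace K] (h : Gcl K) :
    CompactSpace K ∧ T2Space K := by
  induction h with
  | retr K h hK => exact ⟨h.compactSpace, h.t2Space⟩
  | ord K L φ hφ hs hK =>
    refine ⟨?_, inferInstance⟩
    rw [← isCompact_univ_iff, ← hs.range_eq]
    exact isCompact_range hφ
  | vald K L φ hφ hs hL hw hK =>
    refine ⟨?_, inferInstance⟩
    rw [← isCompact_univ_iff, ← hs.range_eq]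
    exact isCompact_range hφ
  | image K L φ hφ hs hL ih =>
    have := ih.1
    refine ⟨?_, inferInstance⟩
    rw [← isCompact_univ_iff, ← hs.range_eq]
    exact isCompact_range hφ
  | prod K L hK hL ihK ihL =>
    have := ihK.1
    have := ihK.2
    have := ihL.1
    have := ihL.2
    exact ⟨inferInstance, inferInstance⟩
  | lay K B J C hB hC lf cov h ih => exact ⟨inferInstance, inferInstance⟩

/-- the members of the class `Rcl` have separating functionals -/
theorem Rcl.sep {K : Type} [TopologicalSpace K] (h : Rcl K) :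
    ∀ [CompactSpace K], Scattered K → ∀ p : K, Nonempty (Sep K p) := by
  induction h with
  | metr K => intro _ hK p; exact sep_metr hK p
  | lim K θ hθ R h ih =>
    intro _ hK p
    exact sep_step hθ R (fun α hα q => ih α hα (scattered_range hK _) q) p

theorem Gcl.adm {K : Type} [TopologicalSpace K] (h : Gcl K) :
    ∀ [CompactSpace K], Nonempty K → Adm K := by
  induction h with
  | retr K h hK =>
    intro _ _
    have := h.t2Space
    exact adm_of_sep hK (h.sep hK)
  | @ord K L _ _ _ _ _ _ φ hφ hs hK =>
    intro _ _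
    have hO : OrdImages K := ⟨fun _ => L, fun _ => inferInstance, fun _ => inferInstance,
      fun _ => φ, fun _ => inferInstance, fun _ => inferInstance, fun _ => hφ,
      fun x => ⟨0, hs x⟩⟩
    refine adm_of_TSys fun Z _ _ ν hν => ?_
    obtain ⟨I, ⟨T⟩⟩ := CK.exists_TSys (Z := Z) hK hO hν
    refine ⟨ULift.{1} I, ⟨⟨fun i => T.e i.down, fun i => T.t i.down, fun i => T.he i.down,
      fun i => T.ht i.down, fun F ε hε => ?_, fun F hF => ?_⟩⟩⟩
    · exact (T.fin F ε hε).preimage (f := (ULift.down : ULift.{1} I → I))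
        ULift.down_injective.injOn
    · obtain ⟨i, hi⟩ := T.catch_ F hF
      exact ⟨⟨i⟩, hi⟩
  | vald K L φ hφ hs hL hw hK =>
    intro _ _
    have hC := RC.chainImages_of_valdivia hw hL hφ hs
    exact adm_of_TSys fun Z _ _ ν hν => RC.exists_TSys (Z := Z) hK hC hν
  | image K L φ hφ hs hL ih =>
    intro _ _
    have := hL.compact_t2.1
    exact adm_image ⟨φ, hφ⟩ hs fun hne => ih hne
  | prod K L hK hL ihK ihL =>
    intro _ hne
    obtain ⟨k, l⟩ := hne.some
    have hKn : Nonempty K := ⟨k⟩
    have hLn : Nonempty L := ⟨l⟩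
    have := hK.compact_t2.1
    have := hL.compact_t2.1
    have := hL.compact_t2.2
    exact adm_prod (ihK hKn) (ihL hLn)
  | lay K B J C hB hC lf cov h ih =>
    intro _ _
    refine adm_layered ⟨B, J, C, hB, hC, lf, cov⟩ ?_
    intro q j hc hne
    exact @ih q.n j q.G hc hne.to_subtype

section
variable {K : Type} [TopologicalSpace K] [CompactSpace K] [T2Space K] [Nonempty K]

omit [T2Space K] in
theorem Gcl.hasPoly_prod (h : Gcl K) {Z : Type} [TopologicalSpace Z] [CompactSpace Z] [T2Space Z]
    (hZ : HasPoly C(Z, ℝ)) : HasPoly C(K × Z, ℝ) := by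
  obtain ⟨ν, hν, hν1⟩ := hZ
  obtain ⟨N, hN, hN1⟩ := (h.adm inferInstance).norm compProp_polyS starProp_polyS hν
    (polyS_of_polyhedral hν hν1)
  exact ⟨N, hN, polyhedral_of_polyS hN hN1⟩

omit [T2Space K] in
theorem Gcl.hasC1_prod (h : Gcl K) {Z : Type} [TopologicalSpace Z] [CompactSpace Z] [T2Space Z]
    (hZ : HasC1 C(Z, ℝ)) : HasC1 C(K × Z, ℝ) := by
  obtain ⟨ν, hν, hν1⟩ := hZ
  obtain ⟨N, hN, hN1⟩ := (h.adm inferInstance).norm compProp_C1S starProp_C1S hν
    ((C1S_iff hν).2 hν1)
  exact ⟨N, hN, (C1S_iff hN).1 hN1⟩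

omit [T2Space K] in
theorem Gcl.hasPoly (h : Gcl K) : HasPoly C(K, ℝ) :=
  (h.hasPoly_prod hasPoly_unit).comp (fstIso K Unit)

omit [T2Space K] in
theorem Gcl.hasC1 (h : Gcl K) : HasC1 C(K, ℝ) :=
  (h.hasC1_prod hasC1_unit).comp (fstIso K Unit)

omit [CompactSpace K] [T2Space K] [Nonempty K] in
theorem Gcl.scattered (h : Gcl K) : Scattered K := by
  have := h.compact_t2.1
  have := h.compact_t2.2
  by_cases hne : Nonempty K
  · by_contra hK
    exact not_hasC1 hK h.hasC1
  · intro A hA
    exact absurd ⟨hA.some⟩ hne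

end

end Pool.Agent.helper26.CR
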