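import Pool.Agent.helper26.CR.Defs

/-!
# CR-Ops: vector-valued functionals

A functional `J` on `C(K)` acts on `C(K × Z)` in the first variable; the result is a function on
`Z`.  Applied to the separating functionals this gives the small operators.
-/

set_option autoImplicit false

open Set Topology Filter

namespace Pool.Agent.helper26.CR

open Pool.Agent.helper26.CK

section fn
variable {K Z : Type} [TopologicalSpace K] [CompactSpace K] [TopologicalSpace Z] [CompactSpace Z]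

/-- the function of the first variable -/
def Ops_fib (F : C(K × Z, ℝ)) (z : Z) : C(K, ℝ) := F.comp ⟨fun x => (x, z), by fun_prop⟩

omit [CompactSpace K] [CompactSpace Z] in
theorem Ops_fib_apply (F : C(K × Z, ℝ)) (z : Z) (x : K) : Ops_fib F z x = F (x, z) := rfl

omit [CompactSpace K] [CompactSpace Z] in
theorem Ops_continuous_fib (F : C(K × Z, ℝ)) : Continuous (Ops_fib F) := by
  have h : Ops_fib F = (F.comp ⟨fun q : Z × K => (q.2, q.1), by fun_prop⟩).curry := by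
    ext z x; rfl
  rw [h]
  exact (F.comp ⟨fun q : Z × K => (q.2, q.1), by fun_prop⟩).curry.continuous

theorem Ops_norm_fib_le (F : C(K × Z, ℝ)) (z : Z) : ‖Ops_fib F z‖ ≤ ‖F‖ := by
  refine (ContinuousMap.norm_le _ (norm_nonneg _)).2 fun x => ?_
  exact F.norm_coe_le_norm (x, z)

/-- the functional applied in the first variable -/
noncomputable def Ops_vj (J : C(K, ℝ) →L[ℝ] ℝ) : C(K × Z, ℝ) →L[ℝ] C(Z, ℝ) :=
  LinearMap.mkContinuous
    { toFun := fun F => ⟨fun z => J (Ops_fib F z), J.continuous.comp (Ops_continuous_fib F)⟩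
      map_add' := fun F G => by
        ext z
        change J (Ops_fib (F + G) z) = J (Ops_fib F z) + J (Ops_fib G z)
        rw [← map_add]
        rfl
      map_smul' := fun a F => by
        ext z
        change J (Ops_fib (a • F) z) = a * J (Ops_fib F z)
        rw [← smul_eq_mul, ← map_smul]
        rfl } ‖J‖ (by
    intro F
    refine (ContinuousMap.norm_le _ (by positivity)).2 fun z => ?_
    exact (J.le_opNorm _).trans (mul_le_mul_of_nonneg_left (Ops_norm_fib_le F z) (norm_nonneg _)))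

theorem Ops_vj_apply (J : C(K, ℝ) →L[ℝ] ℝ) (F : C(K × Z, ℝ)) (z : Z) :
    Ops_vj J F z = J (Ops_fib F z) := rfl

theorem Ops_norm_vj_le {J : C(K, ℝ) →L[ℝ] ℝ} (hJ : ‖J‖ ≤ 1) (F : C(K × Z, ℝ)) :
    ‖Ops_vj J F‖ ≤ ‖F‖ := by
  refine (ContinuousMap.norm_le _ (norm_nonneg _)).2 fun z => ?_
  rw [Ops_vj_apply]
  calc ‖J (Ops_fib F z)‖ ≤ ‖J‖ * ‖Ops_fib F z‖ := J.le_opNorm _
    _ ≤ 1 * ‖Ops_fib F z‖ := mul_le_mul_of_nonneg_right hJ (norm_nonneg _)
    _ = ‖Ops_fib F z‖ := one_mul _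
    _ ≤ ‖F‖ := Ops_norm_fib_le F z

/-- only finitely many of the functionals are large on `F` -/
theorem Ops_fin {p : K} (S : Sep K p) (F : C(K × Z, ℝ)) {ε : ℝ} (hε : 0 < ε) :
    {i | ε ≤ ‖Ops_vj (S.J i) F‖}.Finite := by
  have hc : IsCompact (range (Ops_fib F)) := isCompact_range (Ops_continuous_fib F)
  have hε3 : 0 < ε / 3 := by positivity
  obtain ⟨t, -, htf, hcov⟩ := hc.finite_cover_balls hε3
  refine (htf.biUnion fun g _ => S.fin g (ε / 3) hε3).subset fun i hi => ?_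
  by_contra hcon
  have h1 : ∀ g ∈ t, |S.J i g| < ε / 3 := by
    intro g hg
    by_contra h2
    exact hcon (mem_iUnion₂.2 ⟨g, hg, not_lt.1 h2⟩)
  have h2 : ‖Ops_vj (S.J i) F‖ ≤ 2 * (ε / 3) := by
    refine (ContinuousMap.norm_le _ (by positivity)).2 fun z => ?_
    obtain ⟨g, hg, hz⟩ := mem_iUnion₂.1 (hcov (mem_range_self z))
    have h3 : ‖Ops_fib F z - g‖ < ε / 3 := by rwa [Metric.mem_ball, dist_eq_norm] at hz
    have h4 : |S.J i (Ops_fib F z - g)| ≤ ‖Ops_fib F z - g‖ := by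
      calc |S.J i (Ops_fib F z - g)| ≤ ‖S.J i‖ * ‖Ops_fib F z - g‖ := (S.J i).le_opNorm _
        _ ≤ 1 * ‖Ops_fib F z - g‖ := mul_le_mul_of_nonneg_right (S.norm_le i) (norm_nonneg _)
        _ = ‖Ops_fib F z - g‖ := one_mul _
    have h5 : Ops_vj (S.J i) F z = S.J i (Ops_fib F z - g) + S.J i g := by
      rw [Ops_vj_apply, map_sub, sub_add_cancel]
    rw [h5, Real.norm_eq_abs]
    have h6 := abs_add_le (S.J i (Ops_fib F z - g)) (S.J i g)
    have h7 := h1 g hg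
    linarith
  have hi : ε ≤ ‖Ops_vj (S.J i) F‖ := hi
  linarith

end fn

theorem exists_ops {K Z : Type} [TopologicalSpace K] [CompactSpace K] [T2Space K]
    [TopologicalSpace Z] [CompactSpace Z] [T2Space Z] [Nonempty K] {ν : C(Z, ℝ) → ℝ}
    (hν : EqNorm C(Z, ℝ) ν) {p : K} (S : Sep K p) :
    ∃ T : S.I → C(K × Z, ℝ) →L[ℝ] C(Z, ℝ),
      (∀ i F, ν (T i F) ≤ PP (K := K) ν F) ∧
      (∀ F (ε : ℝ), 0 < ε → {i | ε ≤ ν (T i F)}.Finite) ∧
      ∀ F y, ev y F ≠ ev p F → ∃ i, y ∈ S.U i ∧ T i F ≠ 0 := by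
  obtain ⟨c, C, hc, hC, h⟩ := hν.equiv
  obtain ⟨M, hM1, hM2⟩ : ∃ M : ℝ, 1 ≤ M ∧ C / c ≤ M :=
    ⟨max 1 (C / c), le_max_left _ _, le_max_right _ _⟩
  have hM0 : 0 < M := by linarith
  -- `c ‖F‖ ≤ PP ν F`
  have hP : ∀ F : C(K × Z, ℝ), c * ‖F‖ ≤ PP (K := K) ν F := by
    intro F
    have h0 : 0 ≤ PP (K := K) ν F := (eqNorm_PP hν).nonneg F
    rw [mul_comm, ← le_div_iff₀ hc]
    refine (ContinuousMap.norm_le _ (by positivity)).2 ?_
    rintro ⟨x, z⟩
    rw [le_div_iff₀ hc, mul_comm]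
    calc c * ‖F (x, z)‖ = c * ‖ev x F z‖ := rfl
      _ ≤ c * ‖ev x F‖ := mul_le_mul_of_nonneg_left ((ev x F).norm_coe_le_norm z) hc.le
      _ ≤ ν (ev x F) := (h _).1
      _ ≤ PP ν F := le_PP hν x F
  have hT : ∀ i F, ν ((M⁻¹ • Ops_vj (S.J i)) F) = M⁻¹ * ν (Ops_vj (S.J i) F) := by
    intro i F
    rw [_root_.smul_apply, hν.smul_nonneg (by positivity)]
  refine ⟨fun i => M⁻¹ • Ops_vj (S.J i), ?_, ?_, ?_⟩
  · intro i F
    rw [hT]
    rw [inv_mul_le_iff₀ hM0]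
    have h1 : C ≤ M * c := by rwa [div_le_iff₀ hc] at hM2
    calc ν (Ops_vj (S.J i) F) ≤ C * ‖Ops_vj (S.J i) F‖ := (h _).2
      _ ≤ C * ‖F‖ := mul_le_mul_of_nonneg_left (Ops_norm_vj_le (S.norm_le i) F) hC.le
      _ ≤ (M * c) * ‖F‖ := mul_le_mul_of_nonneg_right h1 (norm_nonneg _)
      _ = M * (c * ‖F‖) := by ring
      _ ≤ M * PP ν F := mul_le_mul_of_nonneg_left (hP F) hM0.le
  · intro F ε hε
    refine (Ops_fin S F (ε := ε / C) (by positivity)).subset fun i hi => ?_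
    have hi : ε ≤ ν ((M⁻¹ • Ops_vj (S.J i)) F) := hi
    rw [hT] at hi
    change ε / C ≤ ‖Ops_vj (S.J i) F‖
    rw [div_le_iff₀ hC, mul_comm]
    have h2 := hν.nonneg (Ops_vj (S.J i) F)
    have h3 : M⁻¹ ≤ 1 := inv_le_one_of_one_le₀ hM1
    calc ε ≤ M⁻¹ * ν (Ops_vj (S.J i) F) := hi
      _ ≤ 1 * ν (Ops_vj (S.J i) F) := mul_le_mul_of_nonneg_right h3 h2
      _ = ν (Ops_vj (S.J i) F) := one_mul _
      _ ≤ C * ‖Ops_vj (S.J i) F‖ := (h _).2
  · intro F y hy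
    obtain ⟨z, hz⟩ : ∃ z, ev y F z ≠ ev p F z := by
      by_contra hcon
      push Not at hcon
      exact hy (ContinuousMap.ext hcon)
    obtain ⟨i, hi1, hi2⟩ := S.sep (Ops_fib F z) y hz
    refine ⟨i, hi1, fun h0 => hi2 ?_⟩
    have h0 : M⁻¹ • Ops_vj (S.J i) F = 0 := h0
    have h1 : Ops_vj (S.J i) F = 0 := (smul_eq_zero.1 h0).resolve_left (by positivity)
    rw [← Ops_vj_apply, h1]
    rfl

end Pool.Agent.helper26.CR
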