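import Pool.Agent.helper26.CR.Defs
import Pool.Agent.helper26.CK.GSys

/-!
# CR-StepC: the step for C¹ seminorms
-/

set_option autoImplicit false

open Set Topology Filter

namespace Pool.Agent.helper26.CR

open Pool.Agent.helper26.CK

theorem exists_c1_of_fun {Y : Type*} [NormedAddCommGroup Y] [NormedSpace ℝ Y] (P F : Y → ℝ) (θ : ℝ)
    (hθ0 : 0 < θ) (hθ1 : θ < 1)
    (hP : EqNorm Y P) (hconv : ConvexOn ℝ {y | P y < 1} F) (heven : ∀ y, F (-y) = F y)
    (hzero : ∀ y, P y ≤ θ → F y = 0) (hC1 : ContDiffOn ℝ 1 F {y | P y < 1})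
    (hbig : ∀ y, y ≠ 0 → ∃ r : ℝ, 0 < r ∧ P (r • y) < 1 ∧ 1 < F (r • y)) :
    ∃ N : Y → ℝ, EqNorm Y N ∧ ContDiffOn ℝ 1 N {y | y ≠ 0} ∧
      ∀ y, P y ≤ N y ∧ N y ≤ θ⁻¹ * P y := by
  classical
  have hΩ : IsOpen {y | P y < 1} := isOpen_lt hP.continuous continuous_const
  have hF0 : F 0 = 0 := hzero 0 (by rw [hP.map_zero]; exact hθ0.le)
  have h0Ω : (0 : Y) ∈ {y | P y < 1} := by
    show P 0 < 1
    rw [hP.map_zero]; norm_num
  -- convexity along rays
  have ray : ∀ (y : Y) (a : ℝ), P y < 1 → 0 ≤ a → a ≤ 1 → F (a • y) ≤ a * F y := by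
    intro y a hy ha0 ha1
    have := hconv.2 hy h0Ω ha0 (sub_nonneg.2 ha1) (by ring)
    simpa [hF0] using this
  -- uniqueness along rays
  have mono : ∀ (y : Y) (σ τ : ℝ), 0 < σ → P y < σ → σ < τ → F (σ⁻¹ • y) ≤ 1 →
      F (τ⁻¹ • y) < 1 := by
    intro y σ τ hσ hPy hστ hF
    have hτ : 0 < τ := hσ.trans hστ
    have h1 : P (σ⁻¹ • y) < 1 := by
      rw [hP.smul, abs_of_pos (inv_pos.2 hσ), inv_mul_lt_iff₀ hσ, mul_one]
      exact hPy
    have h2 := ray (σ⁻¹ • y) (σ / τ) h1 (by positivity) ((div_le_one hτ).2 hστ.le)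
    have h3 : (σ / τ) • σ⁻¹ • y = τ⁻¹ • y := by
      rw [smul_smul]; congr 1; field_simp
    rw [h3] at h2
    calc F (τ⁻¹ • y) ≤ σ / τ * F (σ⁻¹ • y) := h2
      _ ≤ σ / τ * 1 := mul_le_mul_of_nonneg_left hF (by positivity)
      _ < 1 := by rw [mul_one]; exact (div_lt_one hτ).2 hστ
  have ex : ∀ y : Y, y ≠ 0 → ∃ ρ : ℝ, P y < ρ ∧ F (ρ⁻¹ • y) = 1 := by
    intro y hy
    obtain ⟨r, hr0, hr1, hr2⟩ := hbig y hy
    have hcont : ContinuousOn (fun s : ℝ => F (s • y)) (Icc 0 r) := by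
      refine hC1.continuousOn.comp (by fun_prop) ?_
      intro s hs
      show P (s • y) < 1
      rw [hP.smul, abs_of_nonneg hs.1]
      rw [hP.smul, abs_of_pos hr0] at hr1
      exact lt_of_le_of_lt (mul_le_mul_of_nonneg_right hs.2 (hP.nonneg y)) hr1
    have h1 : (1 : ℝ) ∈ Icc (F ((0:ℝ) • y)) (F (r • y)) := by
      rw [zero_smul, hF0]
      exact ⟨zero_le_one, hr2.le⟩
    obtain ⟨s, hs, hs1⟩ := intermediate_value_Icc hr0.le hcont h1
    have hs0 : 0 < s := by
      rcases lt_or_eq_of_le hs.1 with h | h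
      · exact h
      · exfalso
        simp only [← h, zero_smul, hF0] at hs1
        norm_num at hs1
    refine ⟨s⁻¹, ?_, by rw [inv_inv]; exact hs1⟩
    rw [hP.smul, abs_of_pos hr0] at hr1
    have h2 : s * P y < 1 := lt_of_le_of_lt (mul_le_mul_of_nonneg_right hs.2 (hP.nonneg y)) hr1
    rw [← one_div, lt_div_iff₀ hs0, mul_comm]
    exact h2
  choose! ρ hρ1 hρ2 using ex
  obtain ⟨N, hN⟩ : ∃ N : Y → ℝ, N = fun y => if y = 0 then 0 else ρ y := ⟨_, rfl⟩
  have N0 : N 0 = 0 := by rw [hN]; simp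
  have Nne : ∀ y, y ≠ 0 → N y = ρ y := fun y hy => by rw [hN]; simp [hy]
  have NP : ∀ y, y ≠ 0 → P y < N y := fun y hy => by rw [Nne y hy]; exact hρ1 y hy
  have NF : ∀ y, y ≠ 0 → F ((N y)⁻¹ • y) = 1 := fun y hy => by rw [Nne y hy]; exact hρ2 y hy
  have Npos : ∀ y, y ≠ 0 → 0 < N y := fun y hy => (hP.pos hy).trans (NP y hy)
  have star : ∀ y σ, y ≠ 0 → P y < σ → F (σ⁻¹ • y) ≤ 1 → N y ≤ σ := by
    intro y σ hy hPσ hFσ
    by_contra hlt
    push Not at hlt
    have := mono y σ (N y) ((hP.pos hy).trans hPσ) hPσ hlt hFσ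
    rw [NF y hy] at this
    exact lt_irrefl _ this
  have uniq : ∀ y σ, y ≠ 0 → P y < σ → F (σ⁻¹ • y) = 1 → N y = σ := by
    intro y σ hy hPσ hFσ
    refine le_antisymm (star y σ hy hPσ hFσ.le) ?_
    by_contra hlt
    push Not at hlt
    have := mono y (N y) σ (Npos y hy) (NP y hy) hlt (NF y hy).le
    rw [hFσ] at this
    exact lt_irrefl _ this
  have le2 : ∀ y, y ≠ 0 → N y ≤ θ⁻¹ * P y := by
    intro y hy
    by_contra hlt
    push Not at hlt
    have h1 : P ((N y)⁻¹ • y) ≤ θ := by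
      rw [hP.smul, abs_of_pos (inv_pos.2 (Npos y hy)), inv_mul_le_iff₀ (Npos y hy)]
      rw [inv_mul_lt_iff₀ hθ0] at hlt
      linarith
    have h2 := hzero _ h1
    rw [NF y hy] at h2
    norm_num at h2
  have NΩ : ∀ y, y ≠ 0 → P ((N y)⁻¹ • y) < 1 := by
    intro y hy
    rw [hP.smul, abs_of_pos (inv_pos.2 (Npos y hy)), inv_mul_lt_iff₀ (Npos y hy), mul_one]
    exact NP y hy
  have Nnn : ∀ y, 0 ≤ N y := by
    intro y
    by_cases hy : y = 0
    · rw [hy, N0]
    · exact (Npos y hy).le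
  have eN : EqNorm Y N := by
    refine ⟨fun y z => ?_, fun a y => ?_, fun y hy => ?_, ?_⟩
    · by_cases hy : y = 0
      · rw [hy, N0, zero_add, zero_add]
      by_cases hz : z = 0
      · rw [hz, N0, add_zero, add_zero]
      by_cases hyz : y + z = 0
      · rw [hyz, N0]
        exact add_nonneg (Nnn y) (Nnn z)
      have hs : 0 < N y + N z := add_pos (Npos y hy) (Npos z hz)
      refine star _ _ hyz ?_ ?_
      · exact (hP.add_le y z).trans_lt (add_lt_add (NP y hy) (NP z hz))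
      · have hw1 : 0 ≤ N y / (N y + N z) := div_nonneg (Nnn y) hs.le
        have hw2 : 0 ≤ N z / (N y + N z) := div_nonneg (Nnn z) hs.le
        have h1 := hconv.2 (NΩ y hy) (NΩ z hz) hw1 hw2
          (by rw [← add_div]; exact div_self hs.ne')
        rw [NF y hy, NF z hz] at h1
        have hyn := (Npos y hy).ne'
        have hzn := (Npos z hz).ne'
        have h2 : (N y / (N y + N z)) • (N y)⁻¹ • y + (N z / (N y + N z)) • (N z)⁻¹ • z
            = (N y + N z)⁻¹ • (y + z) := by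
          rw [smul_smul, smul_smul, smul_add]
          congr 2 <;> field_simp
        rw [h2] at h1
        refine h1.trans (le_of_eq ?_)
        simp only [smul_eq_mul, mul_one]
        rw [← add_div]
        exact div_self hs.ne'
    · by_cases ha : a = 0
      · rw [ha, zero_smul, N0, abs_zero, zero_mul]
      by_cases hy : y = 0
      · rw [hy, smul_zero, N0, mul_zero]
      have ha' : 0 < |a| := abs_pos.2 ha
      have hay : a • y ≠ 0 := smul_ne_zero ha hy
      refine uniq _ _ hay ?_ ?_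
      · rw [hP.smul]
        exact mul_lt_mul_of_pos_left (NP y hy) ha'
      · rw [mul_inv, smul_smul]
        rcases lt_or_gt_of_ne ha with h | h
        · rw [abs_of_neg h]
          have : ((-a)⁻¹ * (N y)⁻¹ * a) • y = -((N y)⁻¹ • y) := by
            rw [← neg_smul]; congr 1
            have hyn := (Npos y hy).ne'
            field_simp
          rw [this, heven]
          exact NF y hy
        · rw [abs_of_pos h]
          have : (a⁻¹ * (N y)⁻¹ * a) • y = (N y)⁻¹ • y := by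
            congr 1
            have hyn := (Npos y hy).ne'
            field_simp
          rw [this]
          exact NF y hy
    · by_contra hne
      exact (Npos y hne).ne' hy
    · obtain ⟨c, C, hc, hC, hcC⟩ := hP.equiv
      refine ⟨c, θ⁻¹ * C, hc, by positivity, fun y => ?_⟩
      by_cases hy : y = 0
      · rw [hy, N0]; simp
      · refine ⟨(hcC y).1.trans (NP y hy).le, (le2 y hy).trans ?_⟩
        have := (hcC y).2
        rw [mul_assoc]
        exact mul_le_mul_of_nonneg_left this (inv_nonneg.2 hθ0.le)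
  refine ⟨N, eN, ?_, fun y => ?_⟩
  swap
  · by_cases hy : y = 0
    · rw [hy, N0, hP.map_zero, mul_zero]
      exact ⟨le_rfl, le_rfl⟩
    · exact ⟨(NP y hy).le, le2 y hy⟩
  have hOpen : IsOpen {f : Y | f ≠ 0} := isOpen_ne
  have Ncont := eN.continuous
  obtain ⟨C, hC, hLip⟩ := Gauge_lip eN
  -- the derivative in the radial direction
  have rad : ∀ y, y ≠ 0 → 1 ≤ fderiv ℝ F ((N y)⁻¹ • y) ((N y)⁻¹ • y) := by
    intro y hy
    obtain ⟨x0, hx0⟩ : ∃ x0 : Y, x0 = (N y)⁻¹ • y := ⟨_, rfl⟩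
    rw [← hx0]
    have hx0Ω : P x0 < 1 := by rw [hx0]; exact NΩ y hy
    have hd : HasFDerivAt F (fderiv ℝ F x0) x0 :=
      ((hC1.differentiableOn one_ne_zero).differentiableAt (hΩ.mem_nhds hx0Ω)).hasFDerivAt
    have hd1 : HasDerivAt (fun s : ℝ => F (s • x0)) (fderiv ℝ F x0 x0) 1 := by
      have h1 : HasDerivAt (fun s : ℝ => s • x0) x0 1 := by
        simpa using (hasDerivAt_id (1:ℝ)).smul_const x0
      have h2 : HasFDerivAt F (fderiv ℝ F x0) ((1:ℝ) • x0) := by rw [one_smul]; exact hd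
      exact h2.comp_hasDerivAt 1 h1
    have hcv : ConvexOn ℝ (Icc (0:ℝ) 1) (fun s : ℝ => F (s • x0)) := by
      refine ⟨convex_Icc _ _, fun s hs t ht a b ha hb hab => ?_⟩
      have hsΩ : ∀ s ∈ Icc (0:ℝ) 1, P (s • x0) < 1 := by
        intro s hs
        rw [hP.smul, abs_of_nonneg hs.1]
        exact lt_of_le_of_lt (mul_le_of_le_one_left (hP.nonneg x0) hs.2) hx0Ω
      have := hconv.2 (hsΩ s hs) (hsΩ t ht) ha hb hab
      simp only [smul_eq_mul] at this ⊢
      convert this using 2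
      rw [add_smul, smul_smul, smul_smul]
    have := hcv.slope_le_of_hasDerivAt (x := 0) (y := 1) ⟨le_rfl, zero_le_one⟩
      ⟨zero_le_one, le_rfl⟩ zero_lt_one hd1
    rw [slope_def_field] at this
    simp only [one_smul, zero_smul, hF0, sub_zero, div_one] at this
    rwa [hx0, NF y hy, ← hx0] at this
  have key : ∀ y, y ≠ 0 → HasFDerivAt N
      ((fderiv ℝ F ((N y)⁻¹ • y) ((N y)⁻¹ • y))⁻¹ • fderiv ℝ F ((N y)⁻¹ • y)) y := by
    intro y0 hy0
    obtain ⟨x0, hx0⟩ : ∃ x0 : Y, x0 = (N y0)⁻¹ • y0 := ⟨_, rfl⟩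
    rw [← hx0]
    have hx0Ω : P x0 < 1 := by rw [hx0]; exact NΩ y0 hy0
    have hd : HasFDerivAt F (fderiv ℝ F x0) x0 :=
      ((hC1.differentiableOn one_ne_zero).differentiableAt (hΩ.mem_nhds hx0Ω)).hasFDerivAt
    have hrad : 1 ≤ fderiv ℝ F x0 x0 := by rw [hx0]; exact rad y0 hy0
    have hFx0 : F x0 = 1 := by rw [hx0]; exact NF y0 hy0
    obtain ⟨F', hF'⟩ : ∃ F' : Y →L[ℝ] ℝ, F' = fderiv ℝ F x0 := ⟨_, rfl⟩
    rw [← hF'] at hd hrad ⊢
    have hN0 := Npos y0 hy0
    have hy0x : y0 = N y0 • x0 := by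
      rw [hx0, smul_smul, mul_inv_cancel₀ hN0.ne', one_smul]
    -- the map `x(y)`
    have htend : Tendsto (fun y => (N y)⁻¹ • y) (𝓝 y0) (𝓝 x0) := by
      rw [hx0]
      exact ((Ncont.tendsto y0).inv₀ hN0.ne').smul tendsto_id
    have hident : ∀ y, y ≠ 0 → N y • ((N y)⁻¹ • y - x0) = (y - y0) - (N y - N y0) • x0 := by
      intro y hy
      rw [smul_sub, smul_smul, mul_inv_cancel₀ (Npos y hy).ne', one_smul, sub_smul, ← hy0x]
      abel
    have hne : ∀ᶠ y in 𝓝 y0, y ≠ 0 := hOpen.mem_nhds hy0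
    have hhalf : ∀ᶠ y in 𝓝 y0, N y0 / 2 < N y :=
      (Ncont.tendsto y0).eventually (lt_mem_nhds (by linarith))
    have hNtop : ∀ᶠ y in 𝓝 y0, N y < N y0 + 1 :=
      (Ncont.tendsto y0).eventually (gt_mem_nhds (by linarith))
    have hO : (fun y => (N y)⁻¹ • y - x0) =O[𝓝 y0] fun y => y - y0 := by
      refine Asymptotics.IsBigO.of_bound ((N y0 / 2)⁻¹ * (1 + C * ‖x0‖)) ?_
      filter_upwards [hne, hhalf] with y hy hyh
      have hNy := Npos y hy
      have h1 : (N y)⁻¹ • y - x0 = (N y)⁻¹ • ((y - y0) - (N y - N y0) • x0) := by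
        rw [← hident y hy, smul_smul, inv_mul_cancel₀ hNy.ne', one_smul]
      have h2 : ‖(y - y0) - (N y - N y0) • x0‖ ≤ (1 + C * ‖x0‖) * ‖y - y0‖ := by
        calc ‖(y - y0) - (N y - N y0) • x0‖ ≤ ‖y - y0‖ + ‖(N y - N y0) • x0‖ := norm_sub_le _ _
          _ = ‖y - y0‖ + |N y - N y0| * ‖x0‖ := by rw [norm_smul, Real.norm_eq_abs]
          _ ≤ ‖y - y0‖ + C * ‖y - y0‖ * ‖x0‖ := by
            gcongr
            exact hLip y y0
          _ = (1 + C * ‖x0‖) * ‖y - y0‖ := by ring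
      rw [h1, norm_smul, norm_inv, Real.norm_eq_abs, abs_of_pos hNy, mul_assoc]
      have h3 : (N y)⁻¹ ≤ (N y0 / 2)⁻¹ := inv_anti₀ (by linarith) hyh.le
      exact mul_le_mul h3 h2 (norm_nonneg _) (by positivity)
    have ho1 : (fun y => F ((N y)⁻¹ • y) - F x0 - F' ((N y)⁻¹ • y - x0)) =o[𝓝 y0]
        fun y => (N y)⁻¹ • y - x0 :=
      (hasFDerivAt_iff_isLittleO.1 hd).comp_tendsto htend
    have ho2 : (fun y => F' ((N y)⁻¹ • y - x0)) =o[𝓝 y0] fun y => y - y0 := by
      refine ((ho1.trans_isBigO hO).neg_left).congr' ?_ EventuallyEq.rfl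
      filter_upwards [hne] with y hy
      rw [NF y hy, hFx0]
      ring
    have ho3 : (fun y => N y • F' ((N y)⁻¹ • y - x0)) =o[𝓝 y0] fun y => y - y0 := by
      have hb : (fun y => N y) =O[𝓝 y0] fun _ => (1 : ℝ) := by
        refine Asymptotics.IsBigO.of_bound (N y0 + 1) ?_
        filter_upwards [hNtop] with y hy
        rw [Real.norm_eq_abs, abs_of_nonneg (Nnn y), norm_one, mul_one]
        exact hy.le
      simpa using hb.smul_isLittleO ho2
    rw [hasFDerivAt_iff_isLittleO]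
    refine ((ho3.const_smul_left (-(F' x0)⁻¹))).congr' ?_ EventuallyEq.rfl
    filter_upwards [hne] with y hy
    have h4 : N y • F' ((N y)⁻¹ • y - x0) = F' (y - y0) - (N y - N y0) * F' x0 := by
      rw [← map_smul, hident y hy, map_sub, map_smul, smul_eq_mul]
    have h5 : F' x0 ≠ 0 := by
      have : (0:ℝ) < F' x0 := by linarith
      exact this.ne'
    simp only [Pi.smul_apply, smul_apply]
    rw [h4]
    simp only [smul_eq_mul]
    field_simp
    ring
  have h1 : ContDiffOn ℝ (0 + 1) N {f : Y | f ≠ 0} := by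
    rw [contDiffOn_succ_iff_fderiv_of_isOpen hOpen]
    refine ⟨fun y hy => (key y hy).differentiableAt.differentiableWithinAt, by simp, ?_⟩
    rw [contDiffOn_zero]
    have hx : ContinuousOn (fun y : Y => (N y)⁻¹ • y) {f : Y | f ≠ 0} := by
      refine ContinuousOn.smul (Ncont.continuousOn.inv₀ fun y hy => (Npos y hy).ne')
        continuousOn_id
    have hF' : ContinuousOn (fun y : Y => fderiv ℝ F ((N y)⁻¹ • y)) {f : Y | f ≠ 0} :=
      (hC1.continuousOn_fderiv_of_isOpen hΩ le_rfl).comp hx fun y hy => NΩ y hy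
    refine ContinuousOn.congr (((hF'.clm_apply hx).inv₀ fun y hy => ?_).smul hF')
      fun y hy => (key y hy).fderiv
    have := rad y hy
    exact (lt_of_lt_of_le one_pos this).ne'
  simpa using h1

/-! ## the step -/

theorem StepC_convex {E : Type} [AddCommGroup E] [Module ℝ E] {g : E → ℝ}
    (hg : ConvexOn ℝ univ g) : ConvexOn ℝ univ fun y => sp (g y) := by
  refine ⟨convex_univ, fun x hx y hy a b ha hb hab => ?_⟩
  calc sp (g (a • x + b • y)) ≤ sp (a • g x + b • g y) := monotone_sp (hg.2 hx hy ha hb hab)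
    _ ≤ a • sp (g x) + b • sp (g y) := convexOn_sp.2 (mem_univ _) (mem_univ _) ha hb hab

/-- a `C¹` seminorm is `C¹` at the points where it is not zero -/
theorem StepC_at {E : Type} [NormedAddCommGroup E] [NormedSpace ℝ E] {P N : E → ℝ}
    (hP : EqNorm E P) (hN : SN E N) {M : ℝ} (hM : ∀ x, N x ≤ M * P x) (h : C1S E N) {y : E}
    (hy : N y ≠ 0) : ContDiffAt ℝ 1 N y := by
  have hc := hN.continuous hP hM
  exact ContDiffOn.contDiffAt h ((isOpen_ne.preimage hc).mem_nhds hy)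

/-- the terms of the second kind -/
noncomputable def StepC_psi {E : Type} (η : ℝ) (B : E → ℝ) (y : E) : ℝ :=
  sp (((1 + η) * B y - 1) / (η / 2))

section psi

variable {E : Type} [NormedAddCommGroup E] [NormedSpace ℝ E] {P B : E → ℝ} {η : ℝ}

theorem StepC_psi_nonneg (y : E) : 0 ≤ StepC_psi η B y := sp_nonneg _

theorem StepC_psi_zero (hη : 0 < η) {y : E} (h : (1 + η) * B y ≤ 1) : StepC_psi η B y = 0 := by
  apply sp_zero_of
  apply div_nonpos_of_nonpos_of_nonneg
  · linarith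
  · positivity

theorem StepC_psi_convex (hη : 0 < η) (hB : SN E B) : ConvexOn ℝ univ (StepC_psi η B) := by
  have h1 : ConvexOn ℝ univ fun y => (1 + η) * B y - 1 :=
    (hB.convexOn.smul (by positivity)).sub (concaveOn_const _ convex_univ)
  have h2 : ConvexOn ℝ univ fun y => ((1 + η) * B y - 1) / (η / 2) := by
    have := h1.smul (c := (η / 2)⁻¹) (by positivity)
    refine this.congr ?_
    intro y _
    simp only [smul_eq_mul]
    exact (div_eq_inv_mul _ _).symm
  exact StepC_convex h2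

theorem StepC_psi_at (hP : EqNorm E P) (hη : 0 < η) (hB : SN E B) {M : ℝ}
    (hM : ∀ x, B x ≤ M * P x) (h1 : C1S E B) (y : E) : ContDiffAt ℝ 1 (StepC_psi η B) y := by
  by_cases hy : B y = 0
  · have hc := hB.continuous hP hM
    have e1 : ∀ᶠ z in 𝓝 y, B z < (1 + η)⁻¹ := by
      have : Tendsto B (𝓝 y) (𝓝 (B y)) := hc.continuousAt
      refine this.eventually_lt_const ?_
      rw [hy]
      positivity
    have h2 : StepC_psi η B =ᶠ[𝓝 y] fun _ => 0 := by
      filter_upwards [e1] with z hz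
      apply StepC_psi_zero hη
      have h3 : 0 < 1 + η := by positivity
      rw [← one_div, lt_div_iff₀ h3] at hz
      linarith
    exact contDiffAt_const.congr_of_eventuallyEq h2
  · have h2 := StepC_at hP hB hM h1 hy
    have h3 : ContDiffAt ℝ 1 (fun y => ((1 + η) * B y - 1) / (η / 2)) y :=
      ((contDiffAt_const.mul h2).sub contDiffAt_const).div_const _
    exact contDiff_sp.contDiffAt.comp y h3

end psi

/-- the data for the terms of the first kind -/
structure StepC_Sys (E X : Type) [NormedAddCommGroup E] [NormedSpace ℝ E] [NormedAddCommGroup X]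
    [NormedSpace ℝ X] (I : Type 1) (ν : X → ℝ) (P : E → ℝ) where
  /-- the factor -/
  κ : ℝ
  κ_pos : 0 < κ
  κ_le : κ ≤ 1 / 8
  /-- the seminorms -/
  N : ℕ → I → E → ℝ
  /-- the operators -/
  T : I → E →L[ℝ] X
  sn : ∀ n i, SN E (N n i)
  c1 : ∀ n i, C1S E (N n i)
  hN : ∀ n i y, (1 - κ * (1 / 2) ^ n * dl n ^ 2) * N n i y ≤ P y
  hT : ∀ i y, ν (T i y) ≤ P y
  fin : ∀ (y : E) (ε : ℝ), 0 < ε → {i | ε ≤ ν (T i y)}.Finite

namespace StepC_Sys

variable {E X : Type} [NormedAddCommGroup E] [NormedSpace ℝ E] [NormedAddCommGroup X]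
    [NormedSpace ℝ X] {I : Type 1} {ν : X → ℝ} {P : E → ℝ}

/-- the weights -/
noncomputable def kp (S : StepC_Sys E X I ν P) (n : ℕ) : ℝ := S.κ * (1 / 2) ^ n

/-- the argument of one term -/
noncomputable def arg (S : StepC_Sys E X I ν P) (p : ℕ × I) (y : E) : ℝ :=
  ((1 - S.kp p.1 * dl p.1 ^ 2) * S.N p.1 p.2 y + S.kp p.1 * sp (ν (S.T p.2 y) - dl p.1) - 1) /
    (S.kp p.1 * dl p.1 ^ 2)

/-- one term -/
noncomputable def term (S : StepC_Sys E X I ν P) (p : ℕ × I) (y : E) : ℝ := sp (S.arg p y)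

/-- the function -/
noncomputable def F (S : StepC_Sys E X I ν P) (y : E) : ℝ := ∑' p, S.term p y

variable (S : StepC_Sys E X I ν P)

theorem kp_pos (n : ℕ) : 0 < S.kp n := by
  have := S.κ_pos
  unfold kp; positivity

theorem kp_le_pow (n : ℕ) : S.kp n ≤ (1 / 2) ^ n / 8 := by
  unfold kp
  have h1 := S.κ_le
  have h2 : (0 : ℝ) < (1 / 2) ^ n := by positivity
  calc S.κ * (1 / 2) ^ n ≤ 1 / 8 * (1 / 2) ^ n := mul_le_mul_of_nonneg_right h1 h2.le
    _ = (1 / 2) ^ n / 8 := by ring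

theorem kp_le_κ (n : ℕ) : S.kp n ≤ S.κ := by
  unfold kp
  exact mul_le_of_le_one_right S.κ_pos.le (pow_le_one₀ (by norm_num) (by norm_num))

theorem kp_le (n : ℕ) : S.kp n ≤ 1 / 8 := (S.kp_le_κ n).trans S.κ_le

theorem ap_le (n : ℕ) : S.kp n * dl n ^ 2 ≤ 1 / 8 := by
  have h1 := S.kp_le n
  have h2 := S.kp_pos n
  have h3 : dl n ^ 2 ≤ 1 := by
    unfold dl
    exact pow_le_one₀ (by positivity) (pow_le_one₀ (by norm_num) (by norm_num))
  calc S.kp n * dl n ^ 2 ≤ S.kp n * 1 := mul_le_mul_of_nonneg_left h3 h2.le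
    _ ≤ 1 / 8 := by rw [mul_one]; exact h1

theorem ap_pos (n : ℕ) : 0 < S.kp n * dl n ^ 2 := by
  have h2 := S.kp_pos n
  have := dl_pos n
  positivity

theorem hN' (n : ℕ) (i : I) (y : E) : (1 - S.kp n * dl n ^ 2) * S.N n i y ≤ P y := S.hN n i y

theorem N_le (n : ℕ) (i : I) (y : E) : S.N n i y ≤ (1 - S.kp n * dl n ^ 2)⁻¹ * P y := by
  have h1 := S.ap_le n
  have h2 : 0 < 1 - S.kp n * dl n ^ 2 := by linarith
  rw [le_inv_mul_iff₀ h2]
  exact S.hN' n i y

theorem term_nonneg (p : ℕ × I) (y : E) : 0 ≤ S.term p y := sp_nonneg _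

theorem term_zero_of {p : ℕ × I} {y : E}
    (h : (1 - S.kp p.1 * dl p.1 ^ 2) * S.N p.1 p.2 y +
      S.kp p.1 * sp (ν (S.T p.2 y) - dl p.1) ≤ 1) : S.term p y = 0 := by
  apply sp_zero_of
  apply div_nonpos_of_nonpos_of_nonneg
  · linarith
  · exact (S.ap_pos p.1).le

theorem sp_le (hP : EqNorm E P) (p : ℕ × I) (y : E) :
    sp (ν (S.T p.2 y) - dl p.1) ≤ P y ^ 2 := by
  have h1 := S.hT p.2 y
  have h2 := dl_pos p.1
  have h3 := hP.nonneg y
  calc sp (ν (S.T p.2 y) - dl p.1) ≤ sp (P y) := monotone_sp (by linarith)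
    _ = P y ^ 2 := sp_of_nonneg h3

theorem sp_le_one (hP : EqNorm E P) (p : ℕ × I) {y : E} (hy : P y ≤ 1) :
    sp (ν (S.T p.2 y) - dl p.1) ≤ 1 :=
  (S.sp_le hP p y).trans (pow_le_one₀ (hP.nonneg y) hy)

/-- local finiteness -/
theorem loc_fin (hν : EqNorm X ν) (hP : EqNorm E P) {y0 : E} (hy0 : P y0 < 1) :
    ∃ A : Finset (ℕ × I), ∀ᶠ y in 𝓝 y0, ∀ p, p ∉ A → S.term p y = 0 := by
  classical
  set a := (1 - P y0) / 2 with ha
  have ha0 : 0 < a := by rw [ha]; linarith
  obtain ⟨n0, hn0⟩ := exists_pow_lt_of_lt_one ha0 (by norm_num : (1 / 2 : ℝ) < 1)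
  have hfin := S.fin y0 _ (half_pos (dl_pos n0))
  refine ⟨(Finset.range n0) ×ˢ hfin.toFinset, ?_⟩
  have e1 : ∀ᶠ y in 𝓝 y0, P y < 1 - a := by
    have : Tendsto P (𝓝 y0) (𝓝 (P y0)) := hP.continuous.continuousAt
    exact this.eventually_lt_const (by rw [ha]; linarith)
  have e2 : ∀ᶠ y in 𝓝 y0, P (y - y0) < dl n0 / 2 := by
    have : Tendsto (fun y => P (y - y0)) (𝓝 y0) (𝓝 (P (y0 - y0))) :=
      (hP.continuous.comp (continuous_id.sub continuous_const)).continuousAt
    refine this.eventually_lt_const ?_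
    rw [sub_self, hP.map_zero]
    exact half_pos (dl_pos n0)
  filter_upwards [e1, e2] with y hy1 hy2
  rintro ⟨n, i⟩ hp
  apply S.term_zero_of
  have hpos := S.kp_pos n
  have hN := S.hN' n i y
  have hsp := S.sp_le_one hP (n, i) (y := y) (by linarith)
  have hsp0 := sp_nonneg (ν (S.T i y) - dl n)
  by_cases hn : n0 ≤ n
  · have h1 : S.kp n ≤ a := by
      have h2 := S.kp_le_pow n
      have h3 : ((1 : ℝ) / 2) ^ n ≤ (1 / 2) ^ n0 :=
        pow_le_pow_of_le_one (by norm_num) (by norm_num) hn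
      have h4 : (0 : ℝ) < (1 / 2) ^ n := by positivity
      linarith
    simp only at hsp ⊢
    nlinarith
  · have hn' : n < n0 := by omega
    have hi : i ∉ hfin.toFinset := fun h => hp (by
      rw [Finset.mem_product, Finset.mem_range]; exact ⟨hn', h⟩)
    rw [Set.Finite.mem_toFinset] at hi
    have hi' : ν (S.T i y0) < dl n0 / 2 := not_le.1 hi
    have h1 : ν (S.T i y) ≤ ν (S.T i y0) + ν (S.T i (y - y0)) := by
      have := hν.add_le (S.T i y0) (S.T i (y - y0))
      rw [← map_add, add_sub_cancel] at this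
      exact this
    have h2 := S.hT i (y - y0)
    have h3 : dl n0 ≤ dl n := by
      unfold dl
      exact pow_le_pow_of_le_one (by norm_num) (by norm_num) hn'.le
    have h4 : sp (ν (S.T i y) - dl n) = 0 := sp_zero_of (by linarith)
    simp only
    rw [h4]
    linarith

theorem summable (hν : EqNorm X ν) (hP : EqNorm E P) {y : E} (hy : P y < 1) :
    Summable fun p => S.term p y := by
  obtain ⟨A, hA⟩ := S.loc_fin hν hP hy
  have h1 := hA.self_of_nhds
  exact summable_of_ne_finset_zero (s := A) fun p hp => h1 p hp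

theorem convexOn_term (hν : EqNorm X ν) (p : ℕ × I) : ConvexOn ℝ univ (S.term p) := by
  have h0 := S.ap_le p.1
  have h1 : ConvexOn ℝ univ fun y => (1 - S.kp p.1 * dl p.1 ^ 2) * S.N p.1 p.2 y :=
    (S.sn p.1 p.2).convexOn.smul (by linarith)
  have h2 : ConvexOn ℝ univ fun y => ν (S.T p.2 y) :=
    hν.convexOn.comp_linearMap (S.T p.2 : E →ₗ[ℝ] X)
  have h3 : ConvexOn ℝ univ fun y => sp (ν (S.T p.2 y) - dl p.1) :=
    StepC_convex (h2.sub (concaveOn_const _ convex_univ))
  have h4 : ConvexOn ℝ univ fun y => (1 - S.kp p.1 * dl p.1 ^ 2) * S.N p.1 p.2 y +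
      S.kp p.1 * sp (ν (S.T p.2 y) - dl p.1) - 1 :=
    (h1.add (h3.smul (S.kp_pos p.1).le)).sub (concaveOn_const _ convex_univ)
  have h5 : ConvexOn ℝ univ (S.arg p) := by
    have := h4.smul (c := (S.kp p.1 * dl p.1 ^ 2)⁻¹) (by have := S.ap_pos p.1; positivity)
    refine this.congr ?_
    intro y _
    simp only [smul_eq_mul, arg]
    rw [div_eq_inv_mul]
  exact StepC_convex h5

theorem contDiffAt_term (hν : EqNorm X ν) (hν1 : ContDiffOn ℝ 1 ν {f | f ≠ 0})
    (hP : EqNorm E P) (p : ℕ × I) {y : E} (hy : P y < 1) : ContDiffAt ℝ 1 (S.term p) y := by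
  have h0 : ContDiff ℝ 1 fun y => sp (ν (S.T p.2 y) - dl p.1) :=
    (cd_sp hν hν1 (dl_pos p.1)).comp (S.T p.2).contDiff
  by_cases hx : S.N p.1 p.2 y = 0
  · have e1 : ∀ᶠ z in 𝓝 y, S.N p.1 p.2 z < 1 / 2 := by
      have : Tendsto (S.N p.1 p.2) (𝓝 y) (𝓝 (S.N p.1 p.2 y)) :=
        ((S.sn p.1 p.2).continuous hP (S.N_le p.1 p.2)).continuousAt
      refine this.eventually_lt_const ?_
      rw [hx]; norm_num
    have e2 : ∀ᶠ z in 𝓝 y, P z < 1 := by
      have : Tendsto P (𝓝 y) (𝓝 (P y)) := hP.continuous.continuousAt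
      exact this.eventually_lt_const hy
    have h2 : S.term p =ᶠ[𝓝 y] fun _ => 0 := by
      filter_upwards [e1, e2] with z hz1 hz2
      apply S.term_zero_of
      have h1 := S.sp_le_one hP p (y := z) hz2.le
      have h2 := S.kp_le p.1
      have h3 := S.kp_pos p.1
      have h4 := S.ap_pos p.1
      have h5 := (S.sn p.1 p.2).nonneg z
      nlinarith
    exact contDiffAt_const.congr_of_eventuallyEq h2
  · have h1 := StepC_at hP (S.sn p.1 p.2) (S.N_le p.1 p.2) (S.c1 p.1 p.2) hx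
    have h2 : ContDiffAt ℝ 1 (S.arg p) y := by
      unfold arg
      exact (((contDiffAt_const.mul h1).add (contDiffAt_const.mul h0.contDiffAt)).sub
        contDiffAt_const).div_const _
    exact contDiff_sp.contDiffAt.comp y h2

theorem F_nonneg (y : E) : 0 ≤ S.F y := tsum_nonneg fun p => S.term_nonneg p y

theorem convexOn_F (hν : EqNorm X ν) (hP : EqNorm E P) : ConvexOn ℝ {y | P y < 1} S.F := by
  refine ⟨?_, fun x hx y hy a b ha hb hab => ?_⟩
  · have := hP.convexOn.convex_lt 1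
    simpa using this
  · have hxy : P (a • x + b • y) < 1 := by
      have := (hP.convexOn.convex_lt 1)
      have h := this (x := x) ⟨mem_univ _, hx⟩ (y := y) ⟨mem_univ _, hy⟩ ha hb hab
      exact h.2
    have h1 := S.summable hν hP (y := x) hx
    have h2 := S.summable hν hP (y := y) hy
    have h3 := S.summable hν hP hxy
    calc S.F (a • x + b • y) = ∑' p, S.term p (a • x + b • y) := rfl
      _ ≤ ∑' p, (a * S.term p x + b * S.term p y) := by
          refine h3.tsum_le_tsum (fun p => ?_) ((h1.mul_left a).add (h2.mul_left b))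
          exact (S.convexOn_term hν p).2 (mem_univ _) (mem_univ _) ha hb hab
      _ = a * ∑' p, S.term p x + b * ∑' p, S.term p y := by
          rw [(h1.mul_left a).tsum_add (h2.mul_left b), tsum_mul_left, tsum_mul_left]
      _ = a • S.F x + b • S.F y := rfl

theorem F_neg (hν : EqNorm X ν) (y : E) : S.F (-y) = S.F y := by
  unfold F
  congr 1
  ext p
  unfold term arg
  rw [map_neg, hν.map_neg, (S.sn p.1 p.2).map_neg]

theorem F_zero (hP : EqNorm E P) {θ δ' : ℝ} (hθ0 : 0 < θ) (hθ1 : θ ≤ 1) (hθ : θ * (1 + δ') = 1)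
    (hκ : S.κ ≤ δ') {y : E} (hy : P y ≤ θ) : S.F y = 0 := by
  unfold F
  have : ∀ p, S.term p y = 0 := by
    intro p
    apply S.term_zero_of
    have h1 := S.hN' p.1 p.2 y
    have h2 := S.sp_le hP p y
    have h3 := S.kp_pos p.1
    have h4 := S.kp_le_κ p.1
    have h5 := hP.nonneg y
    have h6 : P y ^ 2 ≤ θ := by nlinarith
    have h7 : sp (ν (S.T p.2 y) - dl p.1) ≤ θ := h2.trans h6
    have h8 := sp_nonneg (ν (S.T p.2 y) - dl p.1)
    have h9 : S.kp p.1 * sp (ν (S.T p.2 y) - dl p.1) ≤ δ' * θ :=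
      mul_le_mul (h4.trans hκ) h7 h8 (h3.le.trans (h4.trans hκ))
    nlinarith
  simp [this]

theorem contDiffAt_F (hν : EqNorm X ν) (hν1 : ContDiffOn ℝ 1 ν {f | f ≠ 0})
    (hP : EqNorm E P) {y : E} (hy : P y < 1) : ContDiffAt ℝ 1 S.F y := by
  obtain ⟨A, hA⟩ := S.loc_fin hν hP (y0 := y) hy
  have h1 : S.F =ᶠ[𝓝 y] fun z => ∑ p ∈ A, S.term p z := by
    filter_upwards [hA] with z hz
    exact tsum_eq_sum fun p hp => hz p hp
  have h2 : ContDiffAt ℝ 1 (fun z => ∑ p ∈ A, S.term p z) y :=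
    ContDiffAt.sum fun p _ => S.contDiffAt_term hν hν1 hP p hy
  exact h2.congr_of_eventuallyEq h1

theorem F_big (hν : EqNorm X ν) (hP : EqNorm E P) {y : E} (hy : y ≠ 0) {i : I}
    (hi1 : ∀ n, P y ≤ S.N n i y) (hi2 : S.T i y ≠ 0) :
    ∃ r : ℝ, 0 < r ∧ P (r • y) < 1 ∧ 1 < S.F (r • y) := by
  have hPy : 0 < P y := hP.pos hy
  have hb : 0 < ν (S.T i y) / P y := div_pos (hν.pos hi2) hPy
  set b := ν (S.T i y) / P y with hbdef
  obtain ⟨n, hn⟩ := exists_pow_lt_of_lt_one (by positivity : 0 < b / 3)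
    (by norm_num : (1 / 2 : ℝ) < 1)
  have hn' : 3 * dl n < b := by
    have : dl n < b / 3 := hn
    linarith
  have hk := S.kp_pos n
  have hd := dl_pos n
  have hap := S.ap_pos n
  have hal := S.ap_le n
  let g : ℝ → ℝ := fun l => ((1 - S.kp n * dl n ^ 2) * l + S.kp n * sp (l * b - dl n) - 1) /
    (S.kp n * dl n ^ 2)
  have hg : Continuous g := by
    have : Continuous sp := contDiff_sp.continuous
    fun_prop
  have hg1 : 1 < g 1 := by
    simp only [g]
    rw [sp_of_nonneg (by linarith), lt_div_iff₀ hap]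
    have h1 : (2 * dl n) ^ 2 < (1 * b - dl n) ^ 2 := by
      apply pow_lt_pow_left₀ _ (by positivity) (by norm_num)
      linarith
    nlinarith
  have hev : ∀ᶠ l in 𝓝[<] (1 : ℝ), 1 < g l := by
    have : Tendsto g (𝓝[<] 1) (𝓝 (g 1)) := hg.continuousWithinAt
    exact this.eventually_const_lt hg1
  have hev2 : ∀ᶠ l in 𝓝[<] (1 : ℝ), l ∈ Ioo (0 : ℝ) 1 :=
    Ioo_mem_nhdsLT (by norm_num)
  obtain ⟨l, hl1, hl2, hl3⟩ := (hev.and hev2).exists
  refine ⟨l / P y, div_pos hl2 hPy, ?_, ?_⟩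
  · rw [hP.smul_nonneg (div_pos hl2 hPy).le, div_mul_cancel₀ _ hPy.ne']
    exact hl3
  · have hPl : P ((l / P y) • y) < 1 := by
      rw [hP.smul_nonneg (div_pos hl2 hPy).le, div_mul_cancel₀ _ hPy.ne']
      exact hl3
    have harg : g l ≤ S.arg (n, i) ((l / P y) • y) := by
      simp only [arg, g]
      rw [map_smul, hν.smul_nonneg (div_pos hl2 hPy).le,
        (S.sn n i).smul_nonneg (div_pos hl2 hPy).le]
      have h1 : l / P y * ν (S.T i y) = l * b := by
        rw [hbdef]; ring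
      rw [h1]
      have h2 : l ≤ l / P y * S.N n i y := by
        rw [div_mul_eq_mul_div, le_div_iff₀ hPy]
        exact mul_le_mul_of_nonneg_left (hi1 n) hl2.le
      have h3 : 0 ≤ 1 - S.kp n * dl n ^ 2 := by linarith
      have h4 := mul_le_mul_of_nonneg_left h2 h3
      exact div_le_div_of_nonneg_right (by linarith) hap.le
    have hterm : 1 < S.term (n, i) ((l / P y) • y) := by
      unfold term
      rw [sp_of_nonneg (by linarith)]
      nlinarith
    have hle : S.term (n, i) ((l / P y) • y) ≤ S.F ((l / P y) • y) :=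
      (S.summable hν hP hPl).le_tsum (n, i) fun p _ => S.term_nonneg p _
    linarith

end StepC_Sys

theorem stepProp_C1S : StepProp C1S := by
  intro E X _ _ _ _ P ν hP hν hQν L _ B I R T δ δ' hδ hδδ' hB hR hN hT hfin hcatch
  classical
  have := Fintype.ofFinite L
  have hδ' : 0 < δ' := hδ.trans hδδ'
  have hν1 : ContDiffOn ℝ 1 ν {f | f ≠ 0} := (C1S_iff hν).1 hQν
  set θ : ℝ := (1 + δ')⁻¹ with hθdef
  have hθ0 : 0 < θ := by positivity
  have hθ1 : θ < 1 := inv_lt_one_of_one_lt₀ (by linarith)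
  have hθ : θ * (1 + δ') = 1 := inv_mul_cancel₀ (by positivity)
  set η : ℝ := (δ' - δ) / (1 + δ) with hηdef
  have hη : 0 < η := div_pos (by linarith) (by linarith)
  have hη1 : (1 + η) * (1 + δ) = 1 + δ' := by
    rw [hηdef]
    field_simp
    ring
  set κ : ℝ := min δ' (1 / 8) with hκdef
  have hκ : 0 < κ := lt_min hδ' (by norm_num)
  have ha : ∀ n : ℕ, 0 < κ * (1 / 2) ^ n * dl n ^ 2 := fun n => by
    have := dl_pos n
    positivity
  choose N hNsn hNc hNb using fun (n : ℕ) (i : I) => hN i (κ * (1 / 2) ^ n * dl n ^ 2) (ha n)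
  have hale : ∀ n : ℕ, κ * (1 / 2) ^ n * dl n ^ 2 ≤ 1 := by
    intro n
    have h1 : κ ≤ 1 / 8 := min_le_right _ _
    have h2 : ((1 : ℝ) / 2) ^ n ≤ 1 := pow_le_one₀ (by norm_num) (by norm_num)
    have h3 : dl n ^ 2 ≤ 1 := by
      unfold dl
      exact pow_le_one₀ (by positivity) h2
    have h4 : κ * (1 / 2) ^ n ≤ 1 := by
      have h5 : (0:ℝ) < (1 / 2) ^ n := by positivity
      nlinarith
    have h5 : (0:ℝ) ≤ κ * (1 / 2) ^ n := by positivity
    have h6 : (0:ℝ) ≤ dl n ^ 2 := by positivity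
    nlinarith
  let S : StepC_Sys E X I ν P :=
    { κ := κ
      κ_pos := hκ
      κ_le := min_le_right _ _
      N := N
      T := T
      sn := hNsn
      c1 := hNc
      hN := fun n i y => by
        obtain ⟨h1, h2⟩ := hNb n i y
        have h3 := (hNsn n i).nonneg y
        have h4 := ha n
        have h5 := hale n
        have h6 := hR i y
        set a := κ * (1 / 2) ^ n * dl n ^ 2
        have h7 : 0 ≤ R i y := by
          by_contra hcon
          push Not at hcon
          nlinarith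
        calc (1 - a) * N n i y ≤ (1 - a) * ((1 + a) * R i y) :=
              mul_le_mul_of_nonneg_left h2 (by linarith)
          _ = R i y - a ^ 2 * R i y := by ring
          _ ≤ R i y := by
              have : 0 ≤ a ^ 2 * R i y := by positivity
              linarith
          _ ≤ P y := h6
      hT := hT
      fin := hfin }
  have hBM : ∀ l x, B l x ≤ (1 + δ) * P x := fun l => (hB l).2.2
  have key : ∃ N' : E → ℝ, EqNorm E N' ∧ ContDiffOn ℝ 1 N' {y | y ≠ 0} ∧
      ∀ y, P y ≤ N' y ∧ N' y ≤ θ⁻¹ * P y := by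
    refine exists_c1_of_fun P (fun y => ∑ l, StepC_psi η (B l) y + S.F y) θ hθ0 hθ1 hP ?_ ?_ ?_ ?_ ?_
    · have h0 : Convex ℝ {y | P y < 1} := by
        have := hP.convexOn.convex_lt 1
        simpa using this
      have h1 : ConvexOn ℝ {y | P y < 1} fun y => ∑ l, StepC_psi η (B l) y := by
        refine ⟨h0, fun x _ y _ a b ha hb hab => ?_⟩
        simp only [smul_eq_mul]
        rw [Finset.mul_sum, Finset.mul_sum, ← Finset.sum_add_distrib]
        refine Finset.sum_le_sum fun l _ => ?_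
        exact (StepC_psi_convex hη (hB l).1).2 (mem_univ _) (mem_univ _) ha hb hab
      exact h1.add (S.convexOn_F hν hP)
    · intro y
      rw [S.F_neg hν]
      congr 1
      refine Finset.sum_congr rfl fun l _ => ?_
      unfold StepC_psi
      rw [(hB l).1.map_neg]
    · intro y hy
      rw [S.F_zero hP hθ0 hθ1.le hθ (min_le_left _ _) hy, add_zero]
      refine Finset.sum_eq_zero fun l _ => ?_
      apply StepC_psi_zero hη
      have h1 := hBM l y
      have h2 : (1 + η) * B l y ≤ (1 + η) * ((1 + δ) * P y) :=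
        mul_le_mul_of_nonneg_left h1 (by linarith)
      have h3 : (1 + η) * ((1 + δ) * P y) = (1 + δ') * P y := by rw [← mul_assoc, hη1]
      nlinarith
    · intro y hy
      refine ContDiffAt.contDiffWithinAt ?_
      refine ContDiffAt.add ?_ (S.contDiffAt_F hν hν1 hP hy)
      exact ContDiffAt.sum fun l _ => StepC_psi_at hP hη (hB l).1 (hBM l) (hB l).2.1 y
    · intro y hy
      have hPy : 0 < P y := hP.pos hy
      rcases hcatch y hy with ⟨l, hl⟩ | ⟨i, hi1, hi2⟩
      · let g : ℝ → ℝ := fun t => ((1 + η) * t - 1) / (η / 2)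
        have hg : Continuous g := by fun_prop
        have hg1 : 1 < g 1 := by
          simp only [g]
          rw [lt_div_iff₀ (by positivity)]
          linarith
        have hev : ∀ᶠ t in 𝓝[<] (1 : ℝ), 1 < g t := by
          have : Tendsto g (𝓝[<] 1) (𝓝 (g 1)) := hg.continuousWithinAt
          exact this.eventually_const_lt hg1
        have hev2 : ∀ᶠ t in 𝓝[<] (1 : ℝ), t ∈ Ioo (0 : ℝ) 1 :=
          Ioo_mem_nhdsLT (by norm_num)
        obtain ⟨t, ht1, ht2, ht3⟩ := (hev.and hev2).exists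
        have hr : 0 < t / P y := div_pos ht2 hPy
        refine ⟨t / P y, hr, ?_, ?_⟩
        · rw [hP.smul_nonneg hr.le, div_mul_cancel₀ _ hPy.ne']
          exact ht3
        · have h1 : t ≤ B l ((t / P y) • y) := by
            rw [(hB l).1.smul_nonneg hr.le, div_mul_eq_mul_div, le_div_iff₀ hPy]
            exact mul_le_mul_of_nonneg_left hl ht2.le
          have h2 : g t ≤ ((1 + η) * B l ((t / P y) • y) - 1) / (η / 2) := by
            refine div_le_div_of_nonneg_right ?_ (by positivity)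
            have := mul_le_mul_of_nonneg_left h1 (by linarith : 0 ≤ 1 + η)
            linarith
          have h3 : 1 < StepC_psi η (B l) ((t / P y) • y) := by
            unfold StepC_psi
            rw [sp_of_nonneg (by linarith)]
            nlinarith
          have h4 : StepC_psi η (B l) ((t / P y) • y) ≤ ∑ l, StepC_psi η (B l) ((t / P y) • y) :=
            Finset.single_le_sum (f := fun l => StepC_psi η (B l) ((t / P y) • y))
              (fun l _ => StepC_psi_nonneg _) (Finset.mem_univ l)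
          have h5 := S.F_nonneg ((t / P y) • y)
          linarith
      · obtain ⟨r, hr0, hr1, hr2⟩ := S.F_big hν hP hy (i := i)
          (fun n => hi1.trans (hNb n i y).1) hi2
        refine ⟨r, hr0, hr1, ?_⟩
        have h4 : 0 ≤ ∑ l, StepC_psi η (B l) (r • y) :=
          Finset.sum_nonneg fun l _ => StepC_psi_nonneg _
        linarith
  obtain ⟨N', hN', hN'c, hN'b⟩ := key
  refine ⟨N', hN', (C1S_iff hN').2 hN'c, fun y => ?_⟩
  have := hN'b y
  rw [hθdef, inv_inv] at this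
  exact this

end Pool.Agent.helper26.CR
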